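import Mathlib
import Pool.Agent.N949.AD.Mixw
import Pool.Agent.N543.AO.TVbase

/-!
# Binomial averages, for all weights `y > 0`

Adapted from the starting files `Pool/Agent/N949/AD/Two.lean`, `Pool/Agent/N457/AD/CHR.lean`,
`Pool/Agent/N288/AD/DIF2.lean`, `Pool/Agent/N543/AO/TVbase.lean`, which treat `1/5 ≤ y ≤ 5`.
-/

set_option autoImplicit false

namespace Pool.Agent.V7H98.ON

open Finset
open scoped Classical

/-- `(1 + y) ^ (N + M)` times the mean value of `h (2 (B + B'), 2 (B - B'))` for independent binomial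
`B`, `B'` with parameters `N`, `y / (1 + y)` and `M`, `y / (1 + y)` -/
noncomputable def bb (y : ℝ) (N M : ℕ) (h : ℤ × ℤ → ℝ) : ℝ :=
  ∑ j ∈ range (N + 1), ∑ i ∈ range (M + 1), ((N.choose j : ℝ) * (M.choose i : ℝ) * y ^ (j + i)) *
    h (2 * ((j : ℤ) + i), 2 * ((j : ℤ) - i))

/-- the two vectors -/
def v2 : Fin 2 → ℤ × ℤ := ![(2, 2), (2, -2)]

theorem v2_sum {κ : Type} (T : Finset κ) (τ : κ → Fin 2) :
    (∑ q ∈ T, v2 (τ q)).1 = 2 * (T.card : ℤ) := by
  rw [Prod.fst_sum]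
  have : ∀ q ∈ T, (v2 (τ q)).1 = 2 := by
    intro q _
    have h : ∀ t : Fin 2, (v2 t).1 = 2 := by
      intro t
      fin_cases t <;> rfl
    exact h _
  rw [sum_congr rfl this, sum_const, nsmul_eq_mul]
  ring

theorem sum_two (s : Fin 2 → Finset ℕ) (g : (Fin 2 → ℕ) → ℝ) :
    ∑ j ∈ Fintype.piFinset s, g j = ∑ a ∈ s 0, ∑ b ∈ s 1, g ![a, b] := by
  rw [← Finset.sum_product']
  refine Finset.sum_nbij' (fun j => (j 0, j 1)) (fun x => ![x.1, x.2]) ?_ ?_ ?_ ?_ ?_
  · intro j hj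
    rw [Fintype.mem_piFinset] at hj
    exact mem_product.2 ⟨hj 0, hj 1⟩
  · intro x hx
    rw [mem_product] at hx
    rw [Fintype.mem_piFinset]
    intro t
    fin_cases t
    · exact hx.1
    · exact hx.2
  · intro j _
    funext t
    fin_cases t <;> rfl
  · intro x _
    rfl
  · intro j _
    congr 1
    funext t
    fin_cases t <;> rfl

theorem two_types {κ : Type} (E : Finset κ) (τ : κ → Fin 2) (y : ℝ) (u : ℤ × ℤ)
    (g : ℤ × ℤ → ℝ) :
    ∑ T ∈ E.powerset, y ^ T.card * g (u + ∑ q ∈ T, v2 (τ q)) =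
      bb y (E.filter (fun q => τ q = 0)).card (E.filter (fun q => τ q = 1)).card
        (fun z => g (u + z)) := by
  have h := Pool.Agent.N402.CM.mixb E τ v2
    (fun z : ℤ × ℤ => y ^ (z.1.toNat / 2) * g (u + z)) 0
  have e1 : ∀ T ∈ E.powerset, y ^ T.card * g (u + ∑ q ∈ T, v2 (τ q)) =
      (fun z : ℤ × ℤ => y ^ (z.1.toNat / 2) * g (u + z)) (0 + ∑ q ∈ T, v2 (τ q)) := by
    intro T _
    have e2 : (0 + ∑ q ∈ T, v2 (τ q)).1.toNat / 2 = T.card := by
      rw [zero_add, v2_sum]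
      omega
    simp only [e2]
    rw [zero_add]
  rw [sum_congr rfl e1]
  refine h.trans ?_
  have e3 : ∀ t : Fin 2, (@Finset.filter _ (fun q => τ q = t)
      (fun q => Classical.propDecidable (τ q = t)) E).card =
      (E.filter (fun q => τ q = t)).card := by
    intro t
    refine congrArg card ?_
    ext q
    simp only [mem_filter]
  simp only [e3]
  have e4 : @Fintype.piFinset (Fin 2) (fun a b => Classical.propDecidable (a = b)) _ _
      (fun t => range ((E.filter (fun q => τ q = t)).card + 1)) =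
      Fintype.piFinset (fun t => range ((E.filter (fun q => τ q = t)).card + 1)) := by
    ext j
    simp only [Fintype.mem_piFinset]
  rw [e4, sum_two]
  unfold bb
  refine sum_congr rfl fun a _ => sum_congr rfl fun b _ => ?_
  rw [Fin.prod_univ_two, Fin.sum_univ_two]
  have e5 : (0 : ℤ × ℤ) + ((![a, b] : Fin 2 → ℕ) 0 • v2 0 + (![a, b] : Fin 2 → ℕ) 1 • v2 1) =
      (2 * ((a : ℤ) + b), 2 * ((a : ℤ) - b)) := by
    refine Prod.ext ?_ ?_
    · simp [v2]
      ring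
    · simp [v2]
      ring
  rw [e5]
  have e6 : (2 * ((a : ℤ) + b), 2 * ((a : ℤ) - b)).1.toNat / 2 = a + b := by
    show (2 * ((a : ℤ) + b)).toNat / 2 = a + b
    omega
  simp only [e6]
  simp only [Matrix.cons_val_zero, Matrix.cons_val_one]
  ring

/-! ### characteristic functions -/

/-- the constant -/
noncomputable def cy (y : ℝ) : ℝ := 2 * y / (1 + y) ^ 2

theorem cy_pos {y : ℝ} (hy : 0 < y) : 0 < cy y := by
  unfold cy
  positivity

theorem norm_le {y : ℝ} (hy : 0 < y) (t m : ℝ) (hm : m ≤ Real.sin t ^ 2) :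
    ‖1 + (y : ℂ) * Complex.exp ((2 * t : ℝ) * Complex.I)‖ ≤
      Real.exp (-(cy y * m)) * (1 + y) := by
  obtain ⟨z, hz⟩ : ∃ z : ℂ, z = (y : ℂ) * Complex.exp ((2 * t : ℝ) * Complex.I) := ⟨_, rfl⟩
  rw [← hz]
  have h3 : ‖1 + z‖ ^ 2 = (1 + y) ^ 2 - 4 * y * Real.sin t ^ 2 := by
    rw [Complex.sq_norm, Complex.normSq_apply, hz, Complex.add_re, Complex.add_im,
      Complex.re_ofReal_mul, Complex.im_ofReal_mul, Complex.exp_ofReal_mul_I_re,
      Complex.exp_ofReal_mul_I_im, Complex.one_re, Complex.one_im]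
    have h4 : Real.cos (2 * t) = 1 - 2 * Real.sin t ^ 2 := by
      rw [Real.cos_two_mul, Real.cos_sq']
      ring
    have h5 := Real.sin_sq_add_cos_sq (2 * t)
    have h6 : (1 + y * Real.cos (2 * t)) * (1 + y * Real.cos (2 * t)) +
        (0 + y * Real.sin (2 * t)) * (0 + y * Real.sin (2 * t)) =
        1 + 2 * y * Real.cos (2 * t) +
          y ^ 2 * (Real.sin (2 * t) ^ 2 + Real.cos (2 * t) ^ 2) := by ring
    rw [h6, h5, h4]
    ring
  have h7 : 0 ≤ Real.sin t ^ 2 := sq_nonneg _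
  have hc := cy_pos hy
  have h8 : ‖1 + z‖ ≤ Real.exp (-(cy y * Real.sin t ^ 2)) * (1 + y) := by
    refine abs_le_of_sq_le_sq' ?_ (by positivity) |>.2
    rw [h3, mul_pow, ← Real.exp_nat_mul]
    have h9 : 1 - 2 * cy y * Real.sin t ^ 2 ≤
        Real.exp (((2 : ℕ) : ℝ) * (-(cy y * Real.sin t ^ 2))) := by
      have := Real.add_one_le_exp (((2 : ℕ) : ℝ) * (-(cy y * Real.sin t ^ 2)))
      push_cast at this ⊢
      linarith
    have h10 : (1 - 2 * cy y * Real.sin t ^ 2) * (1 + y) ^ 2 ≤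
        Real.exp (((2 : ℕ) : ℝ) * (-(cy y * Real.sin t ^ 2))) * (1 + y) ^ 2 :=
      mul_le_mul_of_nonneg_right h9 (by positivity)
    refine le_trans (le_of_eq ?_) h10
    unfold cy
    have : (1 + y) ^ 2 ≠ 0 := by positivity
    field_simp
    ring
  refine h8.trans (mul_le_mul_of_nonneg_right (Real.exp_le_exp.2 ?_) (by positivity))
  nlinarith

/-- the characteristic function -/
theorem chr {y : ℝ} (hy : 0 < y) (α β φ m : ℝ) (N M : ℕ)
    (hm1 : m ≤ Real.sin (α + β) ^ 2) (hm2 : m ≤ Real.sin (α - β) ^ 2) :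
    |bb y N M (fun z => Real.cos (α * z.1 + β * z.2 + φ))| ≤
      Real.exp (-(cy y * m * ((N + M : ℕ) : ℝ))) * (1 + y) ^ (N + M) := by
  obtain ⟨z, hz⟩ : ∃ z : ℂ, z = (y : ℂ) * Complex.exp ((2 * (α + β) : ℝ) * Complex.I) := ⟨_, rfl⟩
  obtain ⟨w, hw⟩ : ∃ w : ℂ, w = (y : ℂ) * Complex.exp ((2 * (α - β) : ℝ) * Complex.I) := ⟨_, rfl⟩
  obtain ⟨c, hc⟩ : ∃ c : ℂ, c = Complex.exp ((φ : ℝ) * Complex.I) := ⟨_, rfl⟩
  have h1 : c * ((1 + z) ^ N * (1 + w) ^ M) = ∑ j ∈ range (N + 1), ∑ i ∈ range (M + 1),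
      ((((N.choose j : ℝ) * (M.choose i : ℝ) * y ^ (j + i) : ℝ)) : ℂ) *
      Complex.exp ((α * ((2 * ((j : ℤ) + i) : ℤ) : ℝ) + β * ((2 * ((j : ℤ) - i) : ℤ) : ℝ) + φ : ℝ) *
        Complex.I) := by
    rw [add_comm 1 z, add_comm 1 w, add_pow, add_pow, sum_mul_sum, mul_sum]
    refine sum_congr rfl fun j _ => ?_
    rw [mul_sum]
    refine sum_congr rfl fun i _ => ?_
    rw [one_pow, mul_one, one_pow, mul_one, hz, hw, mul_pow, mul_pow, ← Complex.exp_nat_mul,
      ← Complex.exp_nat_mul, hc]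
    have e1 : Complex.exp ((α * ((2 * ((j : ℤ) + i) : ℤ) : ℝ) +
        β * ((2 * ((j : ℤ) - i) : ℤ) : ℝ) + φ : ℝ) * Complex.I) =
        Complex.exp ((φ : ℝ) * Complex.I) *
          (Complex.exp ((j : ℂ) * (((2 * (α + β) : ℝ) : ℂ) * Complex.I)) *
            Complex.exp ((i : ℂ) * (((2 * (α - β) : ℝ) : ℂ) * Complex.I))) := by
      rw [← Complex.exp_add, ← Complex.exp_add]
      congr 1
      push_cast
      ring
    rw [e1]
    push_cast
    ring
  have h2 : bb y N M (fun z => Real.cos (α * z.1 + β * z.2 + φ)) =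
      (c * ((1 + z) ^ N * (1 + w) ^ M)).re := by
    rw [h1, Complex.re_sum, bb]
    refine sum_congr rfl fun j _ => ?_
    rw [Complex.re_sum]
    refine sum_congr rfl fun i _ => ?_
    rw [Complex.re_ofReal_mul, Complex.exp_ofReal_mul_I_re]
  rw [h2]
  refine (Complex.abs_re_le_norm _).trans ?_
  rw [norm_mul, norm_mul, norm_pow, norm_pow, hc, Complex.norm_exp_ofReal_mul_I, one_mul]
  have h3 := norm_le hy (α + β) m hm1
  have h4 := norm_le hy (α - β) m hm2
  rw [← hz] at h3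
  rw [← hw] at h4
  calc ‖1 + z‖ ^ N * ‖1 + w‖ ^ M
      ≤ (Real.exp (-(cy y * m)) * (1 + y)) ^ N * (Real.exp (-(cy y * m)) * (1 + y)) ^ M :=
        mul_le_mul (pow_le_pow_left₀ (norm_nonneg _) h3 N)
          (pow_le_pow_left₀ (norm_nonneg _) h4 M) (by positivity) (by positivity)
    _ = _ := by
        rw [← pow_add, mul_pow, ← Real.exp_nat_mul]
        congr 2
        ring

/-! ### iterated differences -/

open Pool.Agent.N543.AO.TV in
theorem bound' (r N : ℕ) {y : ℝ} (hy : 0 < y) {h : ℕ → ℝ} (hh : Bd 1 h) :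
    |(Op y ^ N) ((Op (-1) ^ r) h) 0| ≤
      ((1 + y) * Real.sqrt (((r : ℝ) + 1) / y)) ^ r / Real.sqrt ((N : ℝ) + 1) ^ r *
        (1 + y) ^ N := by
  set m := N / r with hm
  have hmr : r * m ≤ N := Nat.mul_div_le N r
  have e1 : Op y ^ N * Op (-1) ^ r = Op y ^ (N - r * m) * (Op y ^ m * Op (-1)) ^ r := by
    rw [((Op_comm y (-1)).pow_left m).mul_pow, ← pow_mul, ← mul_assoc, ← pow_add]
    congr 2
    rw [mul_comm m r]; omega
  have e2 : (Op y ^ N) ((Op (-1) ^ r) h) = (Op y ^ (N - r * m)) (((Op y ^ m * Op (-1)) ^ r) h) := by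
    rw [← Module.End.mul_apply, e1, Module.End.mul_apply]
  have h1 := iter (fun c f hf => step2 hy m hf) r hh
  have h2 := step1 hy.le (N - r * m) h1 0
  rw [← e2, mul_one] at h2
  refine h2.trans ?_
  rcases Nat.eq_zero_or_pos r with h0 | h0
  · subst h0
    simp
  · have hN0 : (0 : ℝ) < (N : ℝ) + 1 := by positivity
    have h3 : (N : ℝ) + 1 ≤ ((m + 1 : ℕ) : ℝ) * r := by
      have h4 := Nat.lt_div_mul_add (a := N) h0
      have h5 : N + 1 ≤ (m + 1) * r := by
        calc N + 1 ≤ N / r * r + r := h4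
          _ = (m + 1) * r := by rw [hm]; ring
      exact_mod_cast h5
    have h4 : (1 + y) ^ (m + 1) / Real.sqrt (((m + 1 : ℕ) : ℝ) * y) ≤
        (1 + y) ^ m * ((1 + y) * Real.sqrt (((r : ℝ) + 1) / y) / Real.sqrt ((N : ℝ) + 1)) := by
      rw [pow_succ, mul_div_assoc]
      refine mul_le_mul_of_nonneg_left ?_ (by positivity)
      rw [div_le_div_iff₀ (Real.sqrt_pos.mpr (by positivity)) (Real.sqrt_pos.mpr hN0), mul_assoc]
      refine mul_le_mul_of_nonneg_left ?_ (by positivity)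
      rw [← Real.sqrt_mul (by positivity)]
      refine Real.sqrt_le_sqrt ?_
      have hm0 : (0 : ℝ) ≤ ((m + 1 : ℕ) : ℝ) := by positivity
      calc (N : ℝ) + 1 ≤ ((m + 1 : ℕ) : ℝ) * r := h3
        _ ≤ ((m + 1 : ℕ) : ℝ) * ((r : ℝ) + 1) := mul_le_mul_of_nonneg_left (by linarith) hm0
        _ = ((r : ℝ) + 1) / y * (((m + 1 : ℕ) : ℝ) * y) := by
            field_simp
    have h7 : ((1 + y) ^ (m + 1) / Real.sqrt (((m + 1 : ℕ) : ℝ) * y)) ^ r ≤
        ((1 + y) ^ m * ((1 + y) * Real.sqrt (((r : ℝ) + 1) / y) / Real.sqrt ((N : ℝ) + 1))) ^ r :=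
      pow_le_pow_left₀ (by positivity) h4 r
    calc (1 + y) ^ (N - r * m) * ((1 + y) ^ (m + 1) / Real.sqrt (((m + 1 : ℕ) : ℝ) * y)) ^ r
        ≤ (1 + y) ^ (N - r * m) * ((1 + y) ^ m * ((1 + y) * Real.sqrt (((r : ℝ) + 1) / y) /
            Real.sqrt ((N : ℝ) + 1))) ^ r := mul_le_mul_of_nonneg_left h7 (by positivity)
      _ = ((1 + y) ^ (N - r * m) * (1 + y) ^ (m * r)) *
          (((1 + y) * Real.sqrt (((r : ℝ) + 1) / y)) ^ r / Real.sqrt ((N : ℝ) + 1) ^ r) := by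
          rw [mul_pow, ← pow_mul, div_pow]; ring
      _ = (1 + y) ^ N *
          (((1 + y) * Real.sqrt (((r : ℝ) + 1) / y)) ^ r / Real.sqrt ((N : ℝ) + 1) ^ r) := by
          rw [← pow_add]
          congr 2
          rw [mul_comm m r]; omega
      _ = _ := by ring

open Pool.Agent.N543.AO.TV in
/-- iterated differences tested against binomial weights -/
theorem dif (k : ℕ) {y : ℝ} (hy : 0 < y) (n : ℕ) (h : ℕ → ℝ) (hh : ∀ m, |h m| ≤ 1) :
    |∑ j ∈ range (n + 1), (n.choose j : ℝ) * y ^ j *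
      ∑ i ∈ range (k + 1), (-1 : ℝ) ^ i * (k.choose i : ℝ) * h (j + i)| ≤
      ((1 + y) * Real.sqrt (((k : ℝ) + 1) / y)) ^ k / Real.sqrt ((n : ℝ) + 1) ^ k *
        (1 + y) ^ n := by
  have h1 := bound' k n hy (h := h) hh
  have e : ∑ j ∈ range (n + 1), (n.choose j : ℝ) * y ^ j *
      ∑ i ∈ range (k + 1), (-1 : ℝ) ^ i * (k.choose i : ℝ) * h (j + i) =
      (Op y ^ n) ((Op (-1) ^ k) h) 0 := by
    rw [Op_pow]
    refine sum_congr rfl fun j _ => ?_
    rw [Op_pow, zero_add]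
    congr 1
    refine sum_congr rfl fun i _ => ?_
    ring
  rw [e]
  exact h1

/-- the constant for the differences -/
noncomputable def Ky (y : ℝ) (k : ℕ) : ℝ :=
  ((1 + y) * Real.sqrt (((k : ℝ) + 1) / y)) ^ k * Real.sqrt 2 ^ k

theorem Ky_pos {y : ℝ} (hy : 0 < y) (k : ℕ) : 0 < Ky y k := by
  unfold Ky
  positivity

theorem fac (k : ℕ) {C : ℝ} (hC : 0 < C) {a b : ℕ} (h : b ≤ a) :
    C / Real.sqrt ((a : ℝ) + 1) ^ k ≤
      C * Real.sqrt 2 ^ k / Real.sqrt (((a + b : ℕ) : ℝ) + 1) ^ k := by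
  have h1 : (0 : ℝ) < (a : ℝ) + 1 := by positivity
  have h2 : (0 : ℝ) < ((a + b : ℕ) : ℝ) + 1 := by positivity
  have h3 : Real.sqrt (((a + b : ℕ) : ℝ) + 1) ≤ Real.sqrt 2 * Real.sqrt ((a : ℝ) + 1) := by
    rw [← Real.sqrt_mul (by norm_num)]
    apply Real.sqrt_le_sqrt
    have : (b : ℝ) ≤ a := by exact_mod_cast h
    push_cast
    linarith
  rw [div_le_div_iff₀ (pow_pos (Real.sqrt_pos.2 h1) k) (pow_pos (Real.sqrt_pos.2 h2) k),
    mul_assoc, ← mul_pow]
  exact mul_le_mul_of_nonneg_left (pow_le_pow_left₀ (Real.sqrt_nonneg _) h3 k) hC.le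

/-- the weighted average of quantities which are at most `B` -/
theorem avg {y : ℝ} (hy : 0 < y) (M : ℕ) (f : ℕ → ℝ) {B : ℝ} (hf : ∀ i, |f i| ≤ B) :
    |∑ i ∈ range (M + 1), ((M.choose i : ℝ) * y ^ i) * f i| ≤ B * (1 + y) ^ M := by
  refine (abs_sum_le_sum_abs _ _).trans ?_
  rw [← Pool.Agent.N543.AO.TV.sum_pow y M, mul_sum]
  refine sum_le_sum fun i _ => ?_
  rw [abs_mul, abs_of_nonneg (by positivity), mul_comm B]
  exact mul_le_mul_of_nonneg_left (hf i) (by positivity)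

/-- iterated differences in the first variable (the length) -/
theorem dif1 (k : ℕ) {y : ℝ} (hy : 0 < y) (N M : ℕ) (A : ℤ) (g : ℤ → ℝ) (hg : ∀ a, |g a| ≤ 1) :
    |bb y N M (fun z => ∑ r ∈ range (k + 1), (-1 : ℝ) ^ r * (k.choose r : ℝ) *
      g (A + z.1 + 2 * r))| ≤
      Ky y k / Real.sqrt (((N + M : ℕ) : ℝ) + 1) ^ k * (1 + y) ^ (N + M) := by
  have hC : 0 < ((1 + y) * Real.sqrt (((k : ℝ) + 1) / y)) ^ k := by positivity
  rcases le_total M N with hMN | hMN
  · have e : bb y N M (fun z => ∑ r ∈ range (k + 1), (-1 : ℝ) ^ r * (k.choose r : ℝ) *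
        g (A + z.1 + 2 * r)) = ∑ i ∈ range (M + 1), ((M.choose i : ℝ) * y ^ i) *
          ∑ j ∈ range (N + 1), (N.choose j : ℝ) * y ^ j *
            ∑ r ∈ range (k + 1), (-1 : ℝ) ^ r * (k.choose r : ℝ) *
              (fun n : ℕ => g (A + 2 * (i : ℤ) + 2 * (n : ℤ))) (j + r) := by
      unfold bb
      rw [sum_comm]
      refine sum_congr rfl fun i _ => ?_
      rw [mul_sum]
      refine sum_congr rfl fun j _ => ?_
      rw [← mul_assoc, pow_add]
      congr 1
      · ring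
      · refine sum_congr rfl fun r _ => ?_
        congr 2
        push_cast
        ring
    rw [e]
    refine (avg hy M _ fun i => dif k hy N (fun n : ℕ => g (A + 2 * (i : ℤ) + 2 * (n : ℤ)))
      fun m => hg _).trans ?_
    rw [mul_assoc, ← pow_add]
    exact mul_le_mul_of_nonneg_right (fac k hC hMN) (by positivity)
  · have e : bb y N M (fun z => ∑ r ∈ range (k + 1), (-1 : ℝ) ^ r * (k.choose r : ℝ) *
        g (A + z.1 + 2 * r)) = ∑ j ∈ range (N + 1), ((N.choose j : ℝ) * y ^ j) *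
          ∑ i ∈ range (M + 1), (M.choose i : ℝ) * y ^ i *
            ∑ r ∈ range (k + 1), (-1 : ℝ) ^ r * (k.choose r : ℝ) *
              (fun n : ℕ => g (A + 2 * (j : ℤ) + 2 * (n : ℤ))) (i + r) := by
      unfold bb
      refine sum_congr rfl fun j _ => ?_
      rw [mul_sum]
      refine sum_congr rfl fun i _ => ?_
      rw [← mul_assoc, pow_add]
      congr 1
      · ring
      · refine sum_congr rfl fun r _ => ?_
        congr 2
        push_cast
        ring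
    rw [e]
    refine (avg hy N _ fun j => dif k hy M (fun n : ℕ => g (A + 2 * (j : ℤ) + 2 * (n : ℤ)))
      fun m => hg _).trans ?_
    have h5 := fac k hC hMN
    rw [add_comm M N] at h5
    rw [mul_assoc, ← pow_add, add_comm M N]
    exact mul_le_mul_of_nonneg_right h5 (by positivity)

/-- iterated differences in the second variable (the area) -/
theorem dif2 (k : ℕ) {y : ℝ} (hy : 0 < y) (N M : ℕ) (A : ℤ) (g : ℤ → ℝ) (hg : ∀ a, |g a| ≤ 1) :
    |bb y N M (fun z => ∑ r ∈ range (k + 1), (-1 : ℝ) ^ r * (k.choose r : ℝ) *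
      g (A + z.2 + 2 * r))| ≤
      Ky y k / Real.sqrt (((N + M : ℕ) : ℝ) + 1) ^ k * (1 + y) ^ (N + M) := by
  have hC : 0 < ((1 + y) * Real.sqrt (((k : ℝ) + 1) / y)) ^ k := by positivity
  rcases le_total M N with hMN | hMN
  · have e : bb y N M (fun z => ∑ r ∈ range (k + 1), (-1 : ℝ) ^ r * (k.choose r : ℝ) *
        g (A + z.2 + 2 * r)) = ∑ i ∈ range (M + 1), ((M.choose i : ℝ) * y ^ i) *
          ∑ j ∈ range (N + 1), (N.choose j : ℝ) * y ^ j *
            ∑ r ∈ range (k + 1), (-1 : ℝ) ^ r * (k.choose r : ℝ) *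
              (fun n : ℕ => g (A - 2 * (i : ℤ) + 2 * (n : ℤ))) (j + r) := by
      unfold bb
      rw [sum_comm]
      refine sum_congr rfl fun i _ => ?_
      rw [mul_sum]
      refine sum_congr rfl fun j _ => ?_
      rw [← mul_assoc, pow_add]
      congr 1
      · ring
      · refine sum_congr rfl fun r _ => ?_
        congr 2
        push_cast
        ring
    rw [e]
    refine (avg hy M _ fun i => dif k hy N (fun n : ℕ => g (A - 2 * (i : ℤ) + 2 * (n : ℤ)))
      fun m => hg _).trans ?_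
    rw [mul_assoc, ← pow_add]
    exact mul_le_mul_of_nonneg_right (fac k hC hMN) (by positivity)
  · have e : bb y N M (fun z => ∑ r ∈ range (k + 1), (-1 : ℝ) ^ r * (k.choose r : ℝ) *
        g (A + z.2 + 2 * r)) = ∑ j ∈ range (N + 1), ((N.choose j : ℝ) * y ^ j) *
          ((-1) ^ k * ∑ i ∈ range (M + 1), (M.choose i : ℝ) * y ^ i *
            ∑ r ∈ range (k + 1), (-1 : ℝ) ^ r * (k.choose r : ℝ) *
              (fun n : ℕ => g (A + 2 * (j : ℤ) + 2 * k - 2 * (n : ℤ))) (i + r)) := by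
      unfold bb
      refine sum_congr rfl fun j _ => ?_
      rw [mul_sum, mul_sum]
      refine sum_congr rfl fun i _ => ?_
      have e1 : ∑ r ∈ range (k + 1), (-1 : ℝ) ^ r * (k.choose r : ℝ) *
          g (A + 2 * ((j : ℤ) - i) + 2 * r) = (-1) ^ k *
            ∑ r ∈ range (k + 1), (-1 : ℝ) ^ r * (k.choose r : ℝ) *
              g (A + 2 * (j : ℤ) + 2 * k - 2 * ((i + r : ℕ) : ℤ)) := by
        rw [← sum_range_reflect, mul_sum]
        refine sum_congr rfl fun r hr => ?_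
        have hrk : r ≤ k := by
          have := mem_range.1 hr
          omega
        have e2 : k + 1 - 1 - r = k - r := by omega
        rw [e2, Nat.choose_symm hrk]
        have e3 : (-1 : ℝ) ^ (k - r) = (-1) ^ k * (-1) ^ r := by
          obtain ⟨s, rfl⟩ := Nat.exists_eq_add_of_le hrk
          rw [Nat.add_sub_cancel_left, pow_add]
          have : ((-1 : ℝ) ^ r) * (-1) ^ r = 1 := by
            rw [← mul_pow]
            norm_num
          calc (-1 : ℝ) ^ s = ((-1 : ℝ) ^ r * (-1) ^ r) * (-1) ^ s := by rw [this, one_mul]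
            _ = _ := by ring
        rw [e3]
        have e4 : A + 2 * ((j : ℤ) - i) + 2 * ((k - r : ℕ) : ℤ) =
            A + 2 * (j : ℤ) + 2 * k - 2 * ((i + r : ℕ) : ℤ) := by
          push_cast [Nat.cast_sub hrk]
          ring
        rw [e4]
        ring
      simp only []
      rw [e1, pow_add]
      ring
    rw [e]
    have key : ∀ j : ℕ, |(-1 : ℝ) ^ k * ∑ i ∈ range (M + 1), (M.choose i : ℝ) * y ^ i *
        ∑ r ∈ range (k + 1), (-1 : ℝ) ^ r * (k.choose r : ℝ) *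
          (fun n : ℕ => g (A + 2 * (j : ℤ) + 2 * k - 2 * (n : ℤ))) (i + r)| ≤
        ((1 + y) * Real.sqrt (((k : ℝ) + 1) / y)) ^ k / Real.sqrt ((M : ℝ) + 1) ^ k *
          (1 + y) ^ M := fun j => by
      rw [abs_mul, abs_pow, abs_neg, abs_one, one_pow, one_mul]
      exact dif k hy M (fun n : ℕ => g (A + 2 * (j : ℤ) + 2 * k - 2 * (n : ℤ))) fun m => hg _
    refine (avg hy N _ key).trans ?_
    have h5 := fac k hC hMN
    rw [add_comm M N] at h5
    rw [mul_assoc, ← pow_add, add_comm M N]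
    exact mul_le_mul_of_nonneg_right h5 (by positivity)

theorem bb_one (y : ℝ) (N M : ℕ) : bb y N M (fun _ => 1) = (1 + y) ^ (N + M) := by
  have h1 := Pool.Agent.N543.AO.TV.sum_pow y N
  have h2 := Pool.Agent.N543.AO.TV.sum_pow y M
  rw [pow_add, ← h1, ← h2, sum_mul_sum, bb]
  refine sum_congr rfl fun j _ => sum_congr rfl fun i _ => ?_
  rw [pow_add]
  ring

/-! ### iterated differences and point masses -/

/-- iterated differences of order `k + 1` -/
theorem pascal (k : ℕ) (g : ℕ → ℝ) :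
    ∑ i ∈ range (k + 1 + 1), (-1 : ℝ) ^ i * ((k + 1).choose i : ℝ) * g i =
      ∑ i ∈ range (k + 1), (-1 : ℝ) ^ i * (k.choose i : ℝ) * (g i - g (i + 1)) := by
  rw [sum_range_succ']
  have h1 : ∑ i ∈ range (k + 1), (-1 : ℝ) ^ (i + 1) * ((k + 1).choose (i + 1) : ℝ) * g (i + 1) =
      -∑ i ∈ range (k + 1), (-1 : ℝ) ^ i * (k.choose i : ℝ) * g (i + 1) +
      ∑ i ∈ range (k + 1), (-1 : ℝ) ^ (i + 1) * (k.choose (i + 1) : ℝ) * g (i + 1) := by
    rw [← sum_neg_distrib, ← sum_add_distrib]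
    refine sum_congr rfl fun i _ => ?_
    rw [Nat.choose_succ_succ]
    push_cast
    ring
  have h2 : ∑ i ∈ range (k + 1), (-1 : ℝ) ^ i * (k.choose i : ℝ) * g i =
      ∑ i ∈ range (k + 1), (-1 : ℝ) ^ (i + 1) * (k.choose (i + 1) : ℝ) * g (i + 1) + g 0 := by
    rw [sum_range_succ', sum_range_succ (fun i => (-1 : ℝ) ^ (i + 1) *
      (k.choose (i + 1) : ℝ) * g (i + 1))]
    rw [Nat.choose_succ_self]
    simp
  have h3 : ∑ i ∈ range (k + 1), (-1 : ℝ) ^ i * (k.choose i : ℝ) * (g i - g (i + 1)) =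
      ∑ i ∈ range (k + 1), (-1 : ℝ) ^ i * (k.choose i : ℝ) * g i -
      ∑ i ∈ range (k + 1), (-1 : ℝ) ^ i * (k.choose i : ℝ) * g (i + 1) := by
    rw [← sum_sub_distrib]
    refine sum_congr rfl fun i _ => ?_
    ring
  rw [h1, h3, h2]
  simp
  ring

/-- the indicator function of a number as a difference -/
theorem ind_dif (n m : ℤ) : (if m ≤ n ∧ m % 2 = n % 2 then (1 : ℝ) else 0) -
    (if m + 2 ≤ n ∧ (m + 2) % 2 = n % 2 then (1 : ℝ) else 0) = if m = n then 1 else 0 := by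
  split_ifs <;> first | omega | norm_num

theorem dif_ind (k : ℕ) (n m : ℤ) :
    ∑ i ∈ range (k + 1 + 1), (-1 : ℝ) ^ i * ((k + 1).choose i : ℝ) *
      (if m + 2 * i ≤ n ∧ (m + 2 * i) % 2 = n % 2 then (1 : ℝ) else 0) =
      ∑ i ∈ range (k + 1), (-1 : ℝ) ^ i * (k.choose i : ℝ) *
        (if m + 2 * i = n then (1 : ℝ) else 0) := by
  have h := pascal k (fun i => if m + 2 * (i : ℤ) ≤ n ∧ (m + 2 * (i : ℤ)) % 2 = n % 2
    then (1 : ℝ) else 0)
  rw [h]
  refine sum_congr rfl fun i _ => ?_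
  congr 1
  have := ind_dif n (m + 2 * (i : ℤ))
  rw [← this]
  have e : m + 2 * ((i + 1 : ℕ) : ℤ) = m + 2 * (i : ℤ) + 2 := by
    push_cast
    ring
  rw [e]

end Pool.Agent.V7H98.ON
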