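import Mathlib

/-!
# Domain walls of spins on the hexagons: the dynamics along the walls
-/

set_option autoImplicit false

namespace Pool.Agent.V7H98.ON

/-- the six unit vectors of the triangular lattice of the centres of the hexagons -/
def d : ZMod 6 → ℤ × ℤ := ![(1, 0), (0, 1), (-1, 1), (-1, 0), (0, -1), (1, -1)]

theorem d_add (k : ZMod 6) : d (k - 1) + d (k + 1) = d k := by
  revert k
  decide

theorem d_opp (k : ZMod 6) : d k + d (k + 3) = 0 := by
  revert k
  decide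

theorem d_ne (k : ZMod 6) : d k ≠ 0 := by
  revert k
  decide

theorem d_inj : Function.Injective d := by
  decide

/-- the spins of the hexagons -/
abbrev Spin := ℤ × ℤ → Bool

/-- the oriented edges: `e.1` is the hexagon on the left and `e.1 + d e.2` the hexagon on the right
of the edge `e` -/
abbrev Edg := (ℤ × ℤ) × ZMod 6

/-- the hexagon on the right -/
def rt (e : Edg) : ℤ × ℤ := e.1 + d e.2

/-- the hexagon in front -/
def fr (e : Edg) : ℤ × ℤ := e.1 + d (e.2 + 1)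

/-- the hexagon behind -/
def bk (e : Edg) : ℤ × ℤ := e.1 + d (e.2 - 1)

/-- the oriented walls: plus on the left, minus on the right -/
def Wl (σ : Spin) (e : Edg) : Prop := σ e.1 = true ∧ σ (rt e) = false

instance (σ : Spin) (e : Edg) : Decidable (Wl σ e) := by
  unfold Wl
  infer_instance

/-- the next wall -/
def stp (σ : Spin) (e : Edg) : Edg :=
  if Wl σ e then (if σ (fr e) = true then (fr e, e.2 - 1) else (e.1, e.2 + 1)) else e

/-- the previous wall -/
def pst (σ : Spin) (e : Edg) : Edg :=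
  if Wl σ e then (if σ (bk e) = true then (bk e, e.2 + 1) else (e.1, e.2 - 1)) else e

theorem stp_of {σ : Spin} {e : Edg} (h : Wl σ e) (h1 : σ (fr e) = true) :
    stp σ e = (fr e, e.2 - 1) := by
  rw [stp, if_pos h, if_pos h1]

theorem stp_of' {σ : Spin} {e : Edg} (h : Wl σ e) (h1 : σ (fr e) = false) :
    stp σ e = (e.1, e.2 + 1) := by
  rw [stp, if_pos h, if_neg (by simp [h1])]

theorem stp_not {σ : Spin} {e : Edg} (h : ¬ Wl σ e) : stp σ e = e := by
  rw [stp, if_neg h]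

theorem pst_of {σ : Spin} {e : Edg} (h : Wl σ e) (h1 : σ (bk e) = true) :
    pst σ e = (bk e, e.2 + 1) := by
  rw [pst, if_pos h, if_pos h1]

theorem pst_of' {σ : Spin} {e : Edg} (h : Wl σ e) (h1 : σ (bk e) = false) :
    pst σ e = (e.1, e.2 - 1) := by
  rw [pst, if_pos h, if_neg (by simp [h1])]

theorem pst_not {σ : Spin} {e : Edg} (h : ¬ Wl σ e) : pst σ e = e := by
  rw [pst, if_neg h]

theorem rt_turn (e : Edg) : rt (fr e, e.2 - 1) = rt e := by
  show e.1 + d (e.2 + 1) + d (e.2 - 1) = e.1 + d e.2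
  rw [← d_add e.2, add_assoc, add_comm (d (e.2 + 1))]

theorem rt_turn' (e : Edg) : rt (bk e, e.2 + 1) = rt e := by
  show e.1 + d (e.2 - 1) + d (e.2 + 1) = e.1 + d e.2
  rw [← d_add e.2, add_assoc]

theorem bk_turn (e : Edg) : bk (fr e, e.2 - 1) = e.1 := by
  show e.1 + d (e.2 + 1) + d (e.2 - 1 - 1) = e.1
  have h := d_opp (e.2 - 1 - 1)
  rw [show e.2 - 1 - 1 + 3 = e.2 + 1 by ring] at h
  rw [add_assoc, add_comm (d (e.2 + 1)), h, add_zero]

theorem fr_turn (e : Edg) : fr (bk e, e.2 + 1) = e.1 := by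
  show e.1 + d (e.2 - 1) + d (e.2 + 1 + 1) = e.1
  have h := d_opp (e.2 - 1)
  rw [show e.2 - 1 + 3 = e.2 + 1 + 1 by ring] at h
  rw [add_assoc, h, add_zero]

theorem bk_left (e : Edg) : bk (e.1, e.2 + 1) = rt e := by
  show e.1 + d (e.2 + 1 - 1) = e.1 + d e.2
  rw [add_sub_cancel_right]

theorem fr_left (e : Edg) : fr (e.1, e.2 - 1) = rt e := by
  show e.1 + d (e.2 - 1 + 1) = e.1 + d e.2
  rw [sub_add_cancel]

theorem wl_stp {σ : Spin} {e : Edg} (h : Wl σ e) : Wl σ (stp σ e) := by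
  rcases Bool.eq_false_or_eq_true (σ (fr e)) with h1 | h1
  · rw [stp_of h h1]
    exact ⟨h1, by rw [rt_turn]; exact h.2⟩
  · rw [stp_of' h h1]
    exact ⟨h.1, h1⟩

theorem wl_pst {σ : Spin} {e : Edg} (h : Wl σ e) : Wl σ (pst σ e) := by
  rcases Bool.eq_false_or_eq_true (σ (bk e)) with h1 | h1
  · rw [pst_of h h1]
    exact ⟨h1, by rw [rt_turn']; exact h.2⟩
  · rw [pst_of' h h1]
    exact ⟨h.1, h1⟩

theorem pst_stp (σ : Spin) (e : Edg) : pst σ (stp σ e) = e := by
  by_cases h : Wl σ e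
  · have h2 := wl_stp h
    rcases Bool.eq_false_or_eq_true (σ (fr e)) with h1 | h1
    · rw [stp_of h h1] at h2 ⊢
      rw [pst_of h2 (by rw [bk_turn]; exact h.1), bk_turn]
      simp
    · rw [stp_of' h h1] at h2 ⊢
      rw [pst_of' h2 (by rw [bk_left]; exact h.2)]
      simp
  · rw [stp_not h, pst_not h]

theorem stp_pst (σ : Spin) (e : Edg) : stp σ (pst σ e) = e := by
  by_cases h : Wl σ e
  · have h2 := wl_pst h
    rcases Bool.eq_false_or_eq_true (σ (bk e)) with h1 | h1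
    · rw [pst_of h h1] at h2 ⊢
      rw [stp_of h2 (by rw [fr_turn]; exact h.1), fr_turn]
      simp
    · rw [pst_of' h h1] at h2 ⊢
      rw [stp_of' h2 (by rw [fr_left]; exact h.2)]
      simp
  · rw [pst_not h, stp_not h]

/-- the permutation of the edges -/
def T (σ : Spin) : Equiv.Perm Edg := ⟨stp σ, pst σ, pst_stp σ, stp_pst σ⟩

theorem T_apply (σ : Spin) (e : Edg) : T σ e = stp σ e := rfl

theorem T_symm_apply (σ : Spin) (e : Edg) : (T σ).symm e = pst σ e := rfl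

theorem wl_T_iff {σ : Spin} {e : Edg} : Wl σ (T σ e) ↔ Wl σ e := by
  refine ⟨fun h => ?_, wl_stp⟩
  by_contra h1
  rw [T_apply, stp_not h1] at h
  exact h1 h

theorem wl_pow_iff {σ : Spin} {e : Edg} (m : ℕ) : Wl σ ((T σ ^ m) e) ↔ Wl σ e := by
  induction m with
  | zero => simp
  | succ m ih => rw [pow_succ', Equiv.Perm.mul_apply, wl_T_iff, ih]

theorem wl_zpow_iff {σ : Spin} {e : Edg} (m : ℤ) : Wl σ ((T σ ^ m) e) ↔ Wl σ e := by
  rcases Int.eq_nat_or_neg m with ⟨k, rfl | rfl⟩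
  · rw [zpow_natCast]
    exact wl_pow_iff k
  · have h := wl_pow_iff (σ := σ) (e := (T σ ^ (-(k : ℤ))) e) k
    rw [← h, ← zpow_natCast, ← Equiv.Perm.mul_apply, ← zpow_add]
    simp

theorem wl_same {σ : Spin} {e e' : Edg} (h : (T σ).SameCycle e e') : Wl σ e' ↔ Wl σ e := by
  obtain ⟨m, rfl⟩ := h
  exact wl_zpow_iff m

/-- the hexagons which touch one end of the edge -/
def Nb (e : Edg) (f : ℤ × ℤ) : Prop := f = e.1 ∨ f = rt e ∨ f = fr e

theorem stp_congr {σ σ' : Spin} {e : Edg} (h : ∀ f, Nb e f → σ f = σ' f) : stp σ e = stp σ' e := by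
  have h1 := h _ (Or.inl rfl)
  have h2 := h _ (Or.inr (Or.inl rfl))
  have h3 := h _ (Or.inr (Or.inr rfl))
  have h4 : Wl σ e ↔ Wl σ' e := by
    unfold Wl
    rw [h1, h2]
  unfold stp
  rw [h3]
  by_cases h5 : Wl σ e
  · rw [if_pos h5, if_pos (h4.1 h5)]
  · rw [if_neg h5, if_neg (fun h6 => h5 (h4.2 h6))]

/-- the hexagons of the next edge -/
theorem stp_faces (σ : Spin) (e : Edg) :
    ((stp σ e).1 = e.1 ∨ (stp σ e).1 = fr e) ∧
      (rt (stp σ e) = rt e ∨ rt (stp σ e) = fr e) := by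
  by_cases h : Wl σ e
  · rcases Bool.eq_false_or_eq_true (σ (fr e)) with h1 | h1
    · rw [stp_of h h1]
      exact ⟨Or.inr rfl, Or.inl (rt_turn e)⟩
    · rw [stp_of' h h1]
      exact ⟨Or.inl rfl, Or.inr rfl⟩
  · rw [stp_not h]
    exact ⟨Or.inl rfl, Or.inl rfl⟩

end Pool.Agent.V7H98.ON
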