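import Mathlib
import Pool.Agent.V7H98.ON.Dyn

/-!
# The change of the spin of one hexagon
-/

set_option autoImplicit false

namespace Pool.Agent.V7H98.ON

open Equiv.Perm

/-- two permutations with the same induced map -/
theorem ind {α : Type*} {T₀ T₁ : Equiv.Perm α} {X : Set α} {p q : α} {a b : ℕ}
    (h1 : ∀ s ∈ X, s ≠ p → T₀ s = T₁ s ∧ T₀ s ∈ X)
    (h2 : ∀ m, 0 < m → m < a → (T₀ ^ m) p ∉ X)
    (h3 : (T₀ ^ a) p = q) (hq : q ∈ X) (ha : 0 < a) (h4 : (T₁ ^ b) p = q) :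
    ∀ (m : ℕ) (s s' : α), s ∈ X → s' ∈ X → (T₀ ^ m) s = s' → T₁.SameCycle s s' := by
  intro m
  induction m using Nat.strong_induction_on with
  | _ m ih =>
    intro s s' hs hs' h
    rcases Nat.eq_zero_or_pos m with h0 | h0
    · subst h0
      have : s = s' := by simpa using h
      rw [this]
    · by_cases hp : s = p
      · subst hp
        have hma : a ≤ m := by
          by_contra hlt
          exact h2 m h0 (by omega) (by rw [h]; exact hs')
        obtain ⟨k, rfl⟩ := Nat.exists_eq_add_of_le hma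
        rw [add_comm, pow_add, Equiv.Perm.mul_apply, h3] at h
        have h5 := ih k (by omega) q s' hq hs' h
        have h6 : T₁.SameCycle s q := ⟨b, by rw [zpow_natCast, h4]⟩
        exact h6.trans h5
      · obtain ⟨h5, h6⟩ := h1 s hs hp
        obtain ⟨k, rfl⟩ : ∃ k, m = k + 1 := ⟨m - 1, by omega⟩
        rw [pow_succ, Equiv.Perm.mul_apply] at h
        have h7 := ih k (by omega) (T₀ s) s' h6 hs' h
        have h8 : T₁.SameCycle s (T₀ s) := ⟨1, by rw [zpow_one, h5]⟩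
        exact h8.trans h7

theorem ind_same {α : Type*} {T₀ T₁ : Equiv.Perm α} {X : Set α} {p q : α} {a b : ℕ}
    (h1 : ∀ s ∈ X, s ≠ p → T₀ s = T₁ s ∧ T₀ s ∈ X)
    (h2 : ∀ m, 0 < m → m < a → (T₀ ^ m) p ∉ X)
    (h3 : (T₀ ^ a) p = q) (hq : q ∈ X) (ha : 0 < a) (h4 : (T₁ ^ b) p = q)
    {s s' : α} (hs : s ∈ X) (hs' : s' ∈ X) (h : T₀.SameCycle s s') : T₁.SameCycle s s' := by
  obtain ⟨m, hm⟩ := h
  rcases Int.eq_nat_or_neg m with ⟨k, rfl | rfl⟩
  · rw [zpow_natCast] at hm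
    exact ind h1 h2 h3 hq ha h4 k s s' hs hs' hm
  · have : (T₀ ^ k) s' = s := by
      rw [← hm, ← zpow_natCast, ← Equiv.Perm.mul_apply, ← zpow_add]
      simp
    exact (ind h1 h2 h3 hq ha h4 k s' s hs' hs this).symm

theorem ind_iff {α : Type*} {T₀ T₁ : Equiv.Perm α} {X : Set α} {p q : α} {a b : ℕ}
    (h1 : ∀ s ∈ X, s ≠ p → T₀ s = T₁ s ∧ T₀ s ∈ X)
    (h2 : ∀ m, 0 < m → m < a → (T₀ ^ m) p ∉ X) (h2' : ∀ m, 0 < m → m < b → (T₁ ^ m) p ∉ X)
    (h3 : (T₀ ^ a) p = q) (hq : q ∈ X) (ha : 0 < a) (hb : 0 < b) (h4 : (T₁ ^ b) p = q)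
    {s s' : α} (hs : s ∈ X) (hs' : s' ∈ X) : T₀.SameCycle s s' ↔ T₁.SameCycle s s' :=
  ⟨fun h => ind_same h1 h2 h3 hq ha h4 hs hs' h,
    fun h => ind_same (fun s hs hp => ⟨(h1 s hs hp).1.symm, by
      rw [← (h1 s hs hp).1]; exact (h1 s hs hp).2⟩) h2' h4 hq hb h3 hs hs' h⟩

/-! ### one hexagon -/

/-- the neighbours `c + d (m + 1)`, ..., `c + d (m + r)` are minus, the other ones are plus -/
def Pat (σ : Spin) (c : ℤ × ℤ) (m : ZMod 6) (r : ℕ) : Prop :=
  ∀ j : ℕ, 1 ≤ j → j ≤ 6 → σ (c + d (m + j)) = decide (r < j)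

/-- the wall which enters -/
def sin (c : ℤ × ℤ) (m : ZMod 6) : Edg := (c + d m, m + 2)

/-- the wall which leaves -/
def sout (c : ℤ × ℤ) (m : ZMod 6) (r : ℕ) : Edg := (c + d (m + r + 1), m + r - 1)

theorem rt_sin (c : ℤ × ℤ) (m : ZMod 6) : rt (sin c m) = c + d (m + 1) := by
  show c + d m + d (m + 2) = _
  rw [add_assoc]
  have := d_add (m + 1)
  rw [show m + 1 - 1 = m by ring, show m + 1 + 1 = m + 2 by ring] at this
  rw [this]

theorem fr_sin (c : ℤ × ℤ) (m : ZMod 6) : fr (sin c m) = c := by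
  show c + d m + d (m + 2 + 1) = _
  rw [add_assoc, show m + 2 + 1 = m + 3 by ring, d_opp, add_zero]

section

variable {σ : Spin} {c : ℤ × ℤ} {m : ZMod 6} {r : ℕ}

theorem six_cast : ((6 : ℕ) : ZMod 6) = 0 := by decide

theorem Pat.plus0 (H : Pat σ c m r) (hr : r < 6) : σ (c + d m) = true := by
  have h := H 6 (by norm_num) le_rfl
  rw [six_cast, add_zero] at h
  rw [h]
  simpa using hr

theorem Pat.minus (H : Pat σ c m r) {j : ℕ} (h1 : 1 ≤ j) (h2 : j ≤ r) (hr : r < 6) :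
    σ (c + d (m + j)) = false := by
  rw [H j h1 (by omega)]
  simpa using h2

theorem Pat.plus (H : Pat σ c m r) {j : ℕ} (h1 : r < j) (h2 : j ≤ 6) :
    σ (c + d (m + j)) = true := by
  rw [H j (by omega) h2]
  simpa using h1

theorem Pat.wl_sin (H : Pat σ c m r) (h1 : 1 ≤ r) (hr : r < 6) : Wl σ (sin c m) := by
  refine ⟨H.plus0 hr, ?_⟩
  rw [rt_sin]
  have := H.minus (j := 1) le_rfl h1 hr
  simpa using this

/-- the walls around a plus hexagon -/
theorem Pat.iterP (H : Pat σ c m r) (h1 : 1 ≤ r) (hr : r < 6) (hc : σ c = true) :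
    ∀ j : ℕ, j < r → (T σ ^ (j + 1)) (sin c m) = (c, m + ((j + 1 : ℕ) : ZMod 6)) := by
  intro j
  induction j with
  | zero =>
    intro _
    rw [zero_add, pow_one, T_apply, stp_of (H.wl_sin h1 hr) (by rw [fr_sin]; exact hc), fr_sin]
    show (c, m + 2 - 1) = _
    congr 1
    push_cast
    ring
  | succ j ih =>
    intro hj
    rw [pow_succ', Equiv.Perm.mul_apply, ih (by omega), T_apply]
    have hw : Wl σ (c, m + ((j + 1 : ℕ) : ZMod 6)) :=
      ⟨hc, H.minus (j := j + 1) (by omega) (by omega) hr⟩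
    have hf : fr (c, m + ((j + 1 : ℕ) : ZMod 6)) = c + d (m + ((j + 1 + 1 : ℕ) : ZMod 6)) := by
      show c + d (m + ((j + 1 : ℕ) : ZMod 6) + 1) = _
      congr 2
      push_cast
      ring
    rw [stp_of' hw (by rw [hf]; exact H.minus (by omega) (by omega) hr)]
    congr 1
    push_cast
    ring

theorem Pat.outP (H : Pat σ c m r) (h1 : 1 ≤ r) (hr : r < 6) (hc : σ c = true) :
    (T σ ^ (r + 1)) (sin c m) = sout c m r := by
  obtain ⟨k, rfl⟩ : ∃ k, r = k + 1 := ⟨r - 1, by omega⟩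
  rw [pow_succ', Equiv.Perm.mul_apply, H.iterP h1 hr hc k (by omega), T_apply]
  have hw : Wl σ (c, m + ((k + 1 : ℕ) : ZMod 6)) := ⟨hc, H.minus (by omega) le_rfl hr⟩
  have hf : fr (c, m + ((k + 1 : ℕ) : ZMod 6)) = c + d (m + ((k + 1 + 1 : ℕ) : ZMod 6)) := by
    show c + d (m + ((k + 1 : ℕ) : ZMod 6) + 1) = _
    congr 2
    push_cast
    ring
  rw [stp_of hw (by rw [hf]; exact H.plus (by omega) (by omega)), hf]
  show _ = (c + d (m + ((k + 1 : ℕ) : ZMod 6) + 1), m + ((k + 1 : ℕ) : ZMod 6) - 1)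
  congr 3
  push_cast
  ring

/-- the wall between the plus neighbour `j` and a minus hexagon -/
theorem rt_ngh (c : ℤ × ℤ) (j : ZMod 6) : rt (c + d j, j + 3) = c := by
  show c + d j + d (j + 3) = c
  rw [add_assoc, d_opp, add_zero]

theorem fr_ngh (c : ℤ × ℤ) (j : ZMod 6) : fr (c + d j, j + 3) = c + d (j - 1) := by
  show c + d j + d (j + 3 + 1) = _
  have h := d_add (j - 1)
  rw [show j - 1 - 1 = j + 3 + 1 by
    have : (6 : ZMod 6) = 0 := by decide
    linear_combination (-1 : ZMod 6) * this, show j - 1 + 1 = j by ring] at h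
  rw [← h, add_assoc, add_comm (d j)]

/-- the index `m - j` as `m + (6 - j)` -/
theorem sub_cast (m : ZMod 6) {j : ℕ} (hj : j ≤ 6) :
    m - (j : ZMod 6) = m + ((6 - j : ℕ) : ZMod 6) := by
  rw [Nat.cast_sub hj, six_cast]
  ring

theorem Pat.iterM (H : Pat σ c m r) (h1 : 1 ≤ r) (hr : r < 6) (hc : σ c = false) :
    ∀ j : ℕ, j < 6 - r → (T σ ^ (j + 1)) (sin c m) =
      (c + d (m - (j : ZMod 6)), m - (j : ZMod 6) + 3) := by
  intro j
  induction j with
  | zero =>
    intro _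
    rw [zero_add, pow_one, T_apply, stp_of' (H.wl_sin h1 hr) (by rw [fr_sin]; exact hc)]
    show (c + d m, m + 2 + 1) = _
    rw [Nat.cast_zero, sub_zero]
    congr 1
    ring
  | succ j ih =>
    intro hj
    rw [pow_succ', Equiv.Perm.mul_apply, ih (by omega), T_apply]
    have hw : Wl σ (c + d (m - (j : ZMod 6)), m - (j : ZMod 6) + 3) := by
      refine ⟨?_, ?_⟩
      · show σ (c + d (m - (j : ZMod 6))) = true
        rw [sub_cast m (by omega)]
        exact H.plus (by omega) (by omega)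
      · rw [rt_ngh]
        exact hc
    have e : m - (j : ZMod 6) - 1 = m - ((j + 1 : ℕ) : ZMod 6) := by
      push_cast
      ring
    rw [stp_of hw (by
      rw [fr_ngh, e, sub_cast m (by omega)]
      exact H.plus (by omega) (by omega)), fr_ngh, e]
    congr 1
    push_cast
    ring

theorem Pat.outM (H : Pat σ c m r) (h1 : 1 ≤ r) (hr : r < 6) (hc : σ c = false) :
    (T σ ^ (6 - r + 1)) (sin c m) = sout c m r := by
  obtain ⟨k, hk⟩ : ∃ k, 6 - r = k + 1 := ⟨6 - r - 1, by omega⟩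
  rw [hk, pow_succ', Equiv.Perm.mul_apply, H.iterM h1 hr hc k (by omega), T_apply]
  have hw : Wl σ (c + d (m - (k : ZMod 6)), m - (k : ZMod 6) + 3) := by
    refine ⟨?_, ?_⟩
    · show σ (c + d (m - (k : ZMod 6))) = true
      rw [sub_cast m (by omega)]
      exact H.plus (by omega) (by omega)
    · rw [rt_ngh]
      exact hc
  have e : m - (k : ZMod 6) - 1 = m + (r : ZMod 6) := by
    have h2 : r = 6 - (k + 1) := by omega
    rw [h2, ← sub_cast m (by omega)]
    push_cast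
    ring
  rw [stp_of' hw (by
    rw [fr_ngh, e]
    exact H.minus h1 le_rfl hr)]
  have e2 : m - (k : ZMod 6) = m + r + 1 := by rw [← e]; ring
  have h6 : (6 : ZMod 6) = 0 := by decide
  show (c + d (m - (k : ZMod 6)), m - (k : ZMod 6) + 3 + 1) = (c + d (m + r + 1), m + r - 1)
  rw [e2]
  congr 1
  linear_combination h6

end

end Pool.Agent.V7H98.ON
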