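import Mathlib
import Pool.Agent.V7H98.ON.Flip

/-!
# The change of the spin of one hexagon: walls, strands, loops
-/

set_option autoImplicit false

namespace Pool.Agent.V7H98.ON

open Equiv.Perm Finset
open scoped Classical

/-- the edges of the hexagons in `D` -/
noncomputable def ED (D : Finset (ℤ × ℤ)) : Finset Edg :=
  (D ×ˢ (Finset.univ : Finset (ZMod 6))) ∪
    (D ×ˢ (Finset.univ : Finset (ZMod 6))).image fun x => (x.1 - d x.2, x.2)

theorem mem_ED {D : Finset (ℤ × ℤ)} {e : Edg} : e ∈ ED D ↔ e.1 ∈ D ∨ rt e ∈ D := by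
  unfold ED
  rw [mem_union, mem_product, mem_image]
  constructor
  · rintro (h | ⟨x, hx, rfl⟩)
    · exact Or.inl h.1
    · right
      show x.1 - d x.2 + d x.2 ∈ D
      rw [sub_add_cancel]
      exact (mem_product.1 hx).1
  · rintro (h | h)
    · exact Or.inl ⟨h, mem_univ _⟩
    · right
      refine ⟨(rt e, e.2), mem_product.2 ⟨h, mem_univ _⟩, ?_⟩
      show (e.1 + d e.2 - d e.2, e.2) = e
      rw [add_sub_cancel_right]

/-- the edges which do not touch `c` -/
def X (c : ℤ × ℤ) : Set Edg := {e | e.1 ≠ c ∧ rt e ≠ c}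

theorem mem_X {c : ℤ × ℤ} {e : Edg} : e ∈ X c ↔ e.1 ≠ c ∧ rt e ≠ c := Iff.rfl

theorem notMem_X {c : ℤ × ℤ} {e : Edg} : e ∉ X c ↔ e.1 = c ∨ rt e = c := by
  rw [mem_X, not_and_or, not_not, not_not]

theorem notMem_X_iff {c : ℤ × ℤ} {e : Edg} : e ∉ X c ↔ e ∈ ED {c} := by
  rw [notMem_X, mem_ED, mem_singleton, mem_singleton]

/-- the walls around `c` -/
noncomputable def CW (σ : Spin) (c : ℤ × ℤ) : Finset Edg := (ED {c}).filter (Wl σ)

theorem mem_CW {σ : Spin} {c : ℤ × ℤ} {e : Edg} : e ∈ CW σ c ↔ e ∉ X c ∧ Wl σ e := by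
  rw [CW, mem_filter, notMem_X_iff]

theorem add_d_ne (c : ℤ × ℤ) (k : ZMod 6) : c + d k ≠ c := by
  intro h
  exact d_ne k (by simpa using h)

theorem sin_mem (c : ℤ × ℤ) (m : ZMod 6) : sin c m ∈ X c := by
  refine ⟨add_d_ne c m, ?_⟩
  rw [rt_sin]
  exact add_d_ne c _

theorem sout_mem (c : ℤ × ℤ) (m : ZMod 6) (r : ℕ) : sout c m r ∈ X c := by
  refine ⟨add_d_ne c _, ?_⟩
  show c + d (m + r + 1) + d (m + r - 1) ≠ c
  have h := d_add (m + r : ZMod 6)
  rw [add_assoc, add_comm (d (m + r + 1)), h]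
  exact add_d_ne c _

theorem exists_cast (m k : ZMod 6) : ∃ j : ℕ, 1 ≤ j ∧ j ≤ 6 ∧ k = m + (j : ZMod 6) := by
  have h : ∀ x : ZMod 6, ∃ j ∈ Finset.Icc 1 6, x = ((j : ℕ) : ZMod 6) := by decide
  obtain ⟨j, hj, hx⟩ := h (k - m)
  rw [Finset.mem_Icc] at hj
  exact ⟨j, hj.1, hj.2, by rw [← hx]; ring⟩

theorem cast_inj {a b : ℕ} (ha : a < 6) (hb : b < 6) (h : (a : ZMod 6) = b) : a = b := by
  have := (ZMod.natCast_eq_natCast_iff' a b 6).1 h
  omega

section

variable {σ : Spin} {c : ℤ × ℤ} {m : ZMod 6} {r : ℕ}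

/-- the walls around a plus hexagon -/
theorem Pat.cwP (H : Pat σ c m r) (hr : r < 6) (hc : σ c = true) :
    CW σ c = (range r).image fun j : ℕ => (c, m + ((j + 1 : ℕ) : ZMod 6)) := by
  ext e
  rw [mem_CW, notMem_X, mem_image]
  constructor
  · rintro ⟨h | h, hw⟩
    · obtain ⟨j, h1, h2, h3⟩ := exists_cast m e.2
      have h4 := hw.2
      rw [rt, h, h3, H j h1 h2] at h4
      have h5 : ¬ r < j := by simpa using h4
      refine ⟨j - 1, mem_range.2 (by omega), ?_⟩
      rw [show j - 1 + 1 = j by omega, ← h3, ← h]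
    · rw [← h] at hc
      rw [hw.2] at hc
      exact absurd hc (by simp)
  · rintro ⟨j, hj, rfl⟩
    rw [mem_range] at hj
    exact ⟨Or.inl rfl, hc, H.minus (by omega) (by omega) hr⟩

/-- the walls around a minus hexagon -/
theorem Pat.cwM (H : Pat σ c m r) (hr : r < 6) (hc : σ c = false) :
    CW σ c = (range (6 - r)).image fun j : ℕ => (c + d (m - (j : ZMod 6)), m - (j : ZMod 6) + 3) := by
  have h6 : (6 : ZMod 6) = 0 := by decide
  ext e
  rw [mem_CW, notMem_X, mem_image]
  constructor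
  · rintro ⟨h | h, hw⟩
    · rw [← h, hw.1] at hc
      exact absurd hc (by simp)
    · have h1 : e.1 = c + d (e.2 + 3) := by
        rw [← h, rt, add_assoc, d_opp, add_zero]
      obtain ⟨j, h2, h3, h4⟩ := exists_cast m (e.2 + 3)
      have h5 := hw.1
      rw [h1, h4, H j h2 h3] at h5
      have h7 : r < j := by simpa using h5
      refine ⟨6 - j, mem_range.2 (by omega), ?_⟩
      have h8 : m - ((6 - j : ℕ) : ZMod 6) = e.2 + 3 := by
        rw [h4, sub_cast m (by omega)]
        congr 2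
        omega
      rw [h8, ← h1]
      refine Prod.ext rfl ?_
      show e.2 + 3 + 3 = e.2
      linear_combination h6
  · rintro ⟨j, hj, rfl⟩
    rw [mem_range] at hj
    refine ⟨Or.inr (rt_ngh _ _), ?_, ?_⟩
    · show σ (c + d (m - (j : ZMod 6))) = true
      rw [sub_cast m (by omega)]
      exact H.plus (by omega) (by omega)
    · rw [rt_ngh]
      exact hc

theorem Pat.card_cwP (H : Pat σ c m r) (hr : r < 6) (hc : σ c = true) : (CW σ c).card = r := by
  rw [H.cwP hr hc, card_image_of_injOn, card_range]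
  intro a ha b hb hab
  simp only [coe_range, Set.mem_Iio] at ha hb
  have h1 := congrArg Prod.snd hab
  have h2 := cast_inj (a := a + 1) (b := b + 1) (by omega) (by omega) (add_left_cancel h1)
  omega

theorem Pat.card_cwM (H : Pat σ c m r) (h1 : 1 ≤ r) (hr : r < 6) (hc : σ c = false) :
    (CW σ c).card = 6 - r := by
  rw [H.cwM hr hc, card_image_of_injOn, card_range]
  intro a ha b hb hab
  simp only [coe_range, Set.mem_Iio] at ha hb
  have h1 := congrArg Prod.snd hab
  have h2 : m - (a : ZMod 6) = m - (b : ZMod 6) := add_right_cancel h1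
  exact cast_inj (by omega) (by omega) (sub_right_injective h2)

/-- all the walls around `c` are in one strand -/
theorem Pat.same_sin (H : Pat σ c m r) (h1 : 1 ≤ r) (hr : r < 6) {e : Edg} (he : e ∈ CW σ c) :
    (T σ).SameCycle (sin c m) e := by
  rcases Bool.eq_false_or_eq_true (σ c) with hc | hc
  · rw [H.cwP hr hc, mem_image] at he
    obtain ⟨j, hj, rfl⟩ := he
    exact ⟨((j + 1 : ℕ) : ℤ), by rw [zpow_natCast]; exact H.iterP h1 hr hc j (mem_range.1 hj)⟩
  · rw [H.cwM hr hc, mem_image] at he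
    obtain ⟨j, hj, rfl⟩ := he
    exact ⟨((j + 1 : ℕ) : ℤ), by rw [zpow_natCast]; exact H.iterM h1 hr hc j (mem_range.1 hj)⟩

theorem Pat.congr {σ' : Spin} (H : Pat σ c m r) (h : ∀ f, f ≠ c → σ f = σ' f) : Pat σ' c m r := by
  intro j h1 h2
  rw [← h _ (add_d_ne c _)]
  exact H j h1 h2

theorem wl_congr {σ' : Spin} (h : ∀ f, f ≠ c → σ f = σ' f) {e : Edg} (he : e ∈ X c) :
    Wl σ e ↔ Wl σ' e := by
  unfold Wl
  rw [h _ he.1, h _ he.2]

theorem step_X {σ' : Spin} (H : Pat σ c m r)
    (h : ∀ f, f ≠ c → σ f = σ' f) {s : Edg} (hs : s ∈ X c) (hne : s ≠ sin c m) :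
    T σ s = T σ' s ∧ T σ s ∈ X c := by
  by_cases hw : Wl σ s
  · have hf : fr s ≠ c := by
      intro hf
      apply hne
      have h1 : s.1 = c + d (s.2 + 4) := by
        have h2 := d_opp (s.2 + 1)
        rw [show s.2 + 1 + 3 = s.2 + 4 by ring] at h2
        rw [← hf, fr, add_assoc, h2, add_zero]
      obtain ⟨j, h2, h3, h4⟩ := exists_cast m (s.2 + 4)
      have h5 := hw.1
      rw [h1, h4, H j h2 h3] at h5
      have h6 : r < j := by simpa using h5
      have h7 := hw.2
      have h8 : rt s = c + d (m + ((j + 1 : ℕ) : ZMod 6)) := by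
        have h9 := d_add (s.2 + 5)
        have h10 : (6 : ZMod 6) = 0 := by decide
        rw [show s.2 + 5 - 1 = s.2 + 4 by ring, show s.2 + 5 + 1 = s.2 by
          linear_combination h10] at h9
        rw [rt, h1, add_assoc, h9]
        congr 2
        push_cast
        linear_combination h4
      rw [h8] at h7
      have h11 : j = 6 := by
        by_contra hj
        rw [H (j + 1) (by omega) (by omega)] at h7
        have : ¬ r < j + 1 := by simpa using h7
        omega
      subst h11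
      rw [six_cast, add_zero] at h4
      have h12 : s.2 = m + 2 := by
        have h10 : (6 : ZMod 6) = 0 := by decide
        linear_combination h4 - h10
      refine Prod.ext ?_ ?_
      · rw [h1, h4]
        rfl
      · exact h12
    refine ⟨stp_congr fun f hf' => h f ?_, ?_⟩
    · rcases hf' with rfl | rfl | rfl
      · exact hs.1
      · exact hs.2
      · exact hf
    · obtain ⟨h1, h2⟩ := stp_faces σ s
      refine ⟨?_, ?_⟩
      · rcases h1 with h1 | h1
        · rw [T_apply, h1]; exact hs.1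
        · rw [T_apply, h1]; exact hf
      · rcases h2 with h2 | h2
        · rw [T_apply, h2]; exact hs.2
        · rw [T_apply, h2]; exact hf
  · have hw' : ¬ Wl σ' s := fun h' => hw ((wl_congr h hs).2 h')
    rw [T_apply, T_apply, stp_not hw, stp_not hw']
    exact ⟨rfl, hs⟩

theorem Pat.iter_notMem (H : Pat σ c m r) (h1 : 1 ≤ r) (hr : r < 6) {k : ℕ} (hk : 0 < k)
    (hk' : k < (if σ c = true then r else 6 - r) + 1) : (T σ ^ k) (sin c m) ∉ X c := by
  obtain ⟨j, rfl⟩ : ∃ j, k = j + 1 := ⟨k - 1, by omega⟩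
  rw [notMem_X]
  rcases Bool.eq_false_or_eq_true (σ c) with hc | hc
  · rw [if_pos hc] at hk'
    left
    rw [H.iterP h1 hr hc j (by omega)]
  · rw [if_neg (by simp [hc])] at hk'
    right
    rw [H.iterM h1 hr hc j (by omega)]
    exact rt_ngh _ _

theorem Pat.out (H : Pat σ c m r) (h1 : 1 ≤ r) (hr : r < 6) :
    (T σ ^ ((if σ c = true then r else 6 - r) + 1)) (sin c m) = sout c m r := by
  rcases Bool.eq_false_or_eq_true (σ c) with hc | hc
  · rw [if_pos hc]
    exact H.outP h1 hr hc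
  · rw [if_neg (by simp [hc])]
    exact H.outM h1 hr hc

/-- the strands outside `c` do not change -/
theorem Pat.same_iff {σ' : Spin} (H : Pat σ c m r) (h1 : 1 ≤ r) (hr : r < 6)
    (h : ∀ f, f ≠ c → σ f = σ' f) {s s' : Edg} (hs : s ∈ X c) (hs' : s' ∈ X c) :
    (T σ).SameCycle s s' ↔ (T σ').SameCycle s s' := by
  have H' := H.congr h
  exact ind_iff (X := X c) (p := sin c m) (q := sout c m r)
    (fun s hs hne => step_X H h hs hne)
    (fun k hk hk' => H.iter_notMem h1 hr hk hk')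
    (fun k hk hk' => H'.iter_notMem h1 hr hk hk') (H.out h1 hr) (sout_mem _ _ _)
    (Nat.succ_pos _) (Nat.succ_pos _) (H'.out h1 hr) hs hs'

end

/-- `O` is a strand of walls -/
def IsStr (σ : Spin) (O : Finset Edg) : Prop :=
  ∃ e, Wl σ e ∧ ∀ e', e' ∈ O ↔ (T σ).SameCycle e e'

/-- the number of the closed loops in `D` -/
noncomputable def loops (D : Finset (ℤ × ℤ)) (σ : Spin) : ℕ :=
  ((ED D).powerset.filter (IsStr σ)).card

/-- the number of the walls in `D` -/
noncomputable def walls (D : Finset (ℤ × ℤ)) (σ : Spin) : ℕ := ((ED D).filter (Wl σ)).card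

section

variable {σ σ' : Spin} {c : ℤ × ℤ} {m : ZMod 6} {r : ℕ} {D : Finset (ℤ × ℤ)}

theorem ED_mono {D D' : Finset (ℤ × ℤ)} (h : D ⊆ D') : ED D ⊆ ED D' := by
  intro e he
  rw [mem_ED] at he ⊢
  exact he.imp (fun h' => h h') (fun h' => h h')

theorem CW_subset (hc : c ∈ D) : CW σ c ⊆ ED D :=
  (filter_subset _ _).trans (ED_mono (singleton_subset_iff.2 hc))

/-- if one element of a strand is known, the strand is known -/
theorem IsStr.mem_iff {O : Finset Edg} (hO : IsStr σ O) {e e' : Edg} (he : e ∈ O) :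
    e' ∈ O ↔ (T σ).SameCycle e e' := by
  obtain ⟨e0, _, h0⟩ := hO
  rw [h0]
  rw [h0] at he
  exact ⟨fun h => he.symm.trans h, fun h => he.trans h⟩

theorem IsStr.wl {O : Finset Edg} (hO : IsStr σ O) {e : Edg} (he : e ∈ O) : Wl σ e := by
  obtain ⟨e0, hw, h0⟩ := hO
  exact (wl_same ((h0 e).1 he)).2 hw

/-- a strand contains an element which does not touch `c` -/
theorem IsStr.exists_mem (H : Pat σ c m r) (h1 : 1 ≤ r) (hr : r < 6) {O : Finset Edg}
    (hO : IsStr σ O) : ∃ e ∈ O, e ∈ X c := by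
  obtain ⟨e0, hw, h0⟩ := hO
  have he0 : e0 ∈ O := (h0 e0).2 (SameCycle.refl _ _)
  by_cases h : e0 ∈ X c
  · exact ⟨e0, he0, h⟩
  · have h2 := H.same_sin h1 hr (mem_CW.2 ⟨h, hw⟩)
    exact ⟨sin c m, (h0 _).2 h2.symm, sin_mem c m⟩

theorem loops_le (H : Pat σ c m r) (h1 : 1 ≤ r) (hr : r < 6) (hc : c ∈ D)
    (h : ∀ f, f ≠ c → σ f = σ' f) : loops D σ ≤ loops D σ' := by
  have H' := H.congr h
  refine card_le_card_of_injOn
    (fun O => O.filter (fun e => e ∈ X c) ∪ if sin c m ∈ O then CW σ' c else ∅) ?_ ?_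
  · intro O hO
    rw [mem_coe, mem_filter, mem_powerset] at hO ⊢
    obtain ⟨hO1, hO2⟩ := hO
    refine ⟨union_subset ((filter_subset _ _).trans hO1) ?_, ?_⟩
    · split_ifs
      · exact CW_subset hc
      · exact empty_subset _
    · obtain ⟨e, he, heX⟩ := hO2.exists_mem H h1 hr
      refine ⟨e, (wl_congr h heX).1 (hO2.wl he), fun e' => ?_⟩
      rw [mem_union, mem_filter]
      by_cases he' : e' ∈ X c
      · rw [← H.same_iff h1 hr h heX he', ← hO2.mem_iff he]
        constructor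
        · rintro (h3 | h3)
          · exact h3.1
          · split_ifs at h3
            · exact absurd he' (mem_CW.1 h3).1
            · exact absurd h3 (notMem_empty _)
        · exact fun h3 => Or.inl ⟨h3, he'⟩
      · constructor
        · rintro (h3 | h3)
          · exact absurd h3.2 he'
          · split_ifs at h3 with h4
            · have h5 := (hO2.mem_iff he).1 h4
              have h6 := (H.same_iff h1 hr h heX (sin_mem c m)).1 h5
              exact h6.trans (H'.same_sin h1 hr h3)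
            · exact absurd h3 (notMem_empty _)
        · intro h3
          right
          have hw : Wl σ' e' := (wl_same h3).2 ((wl_congr h heX).1 (hO2.wl he))
          have h4 : e' ∈ CW σ' c := mem_CW.2 ⟨he', hw⟩
          have h5 := H'.same_sin h1 hr h4
          have h6 : (T σ').SameCycle e (sin c m) := h3.trans h5.symm
          have h7 := (H.same_iff h1 hr h heX (sin_mem c m)).2 h6
          rw [if_pos ((hO2.mem_iff he).2 h7)]
          exact h4
  · intro O hO O' hO' heq
    rw [mem_coe, mem_filter] at hO hO'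
    obtain ⟨e, he, heX⟩ := hO.2.exists_mem H h1 hr
    have h3 : e ∈ O' := by
      have h4 : e ∈ O.filter (fun e => e ∈ X c) ∪ if sin c m ∈ O then CW σ' c else ∅ :=
        mem_union_left _ (mem_filter.2 ⟨he, heX⟩)
      simp only at heq
      rw [heq, mem_union, mem_filter] at h4
      rcases h4 with h4 | h4
      · exact h4.1
      · split_ifs at h4
        · exact absurd heX (mem_CW.1 h4).1
        · exact absurd h4 (notMem_empty _)
    ext e'
    rw [hO.2.mem_iff he, hO'.2.mem_iff h3]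

theorem loops_eq (H : Pat σ c m r) (h1 : 1 ≤ r) (hr : r < 6) (hc : c ∈ D)
    (h : ∀ f, f ≠ c → σ f = σ' f) : loops D σ = loops D σ' :=
  le_antisymm (loops_le H h1 hr hc h)
    (loops_le (H.congr h) h1 hr hc fun f hf => (h f hf).symm)

/-- sums over the walls with a property -/
theorem sum_walls {M : Type*} [AddCommMonoid M] (hc : c ∈ D) (φ : Edg → M) (Q : Edg → Prop) :
    ∑ e ∈ (ED D).filter (fun e => Wl σ e ∧ Q e), φ e =
      ∑ e ∈ (ED D).filter (fun e => (Wl σ e ∧ Q e) ∧ e ∈ X c), φ e +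
        ∑ e ∈ (CW σ c).filter Q, φ e := by
  have hd : Disjoint ((ED D).filter (fun e => (Wl σ e ∧ Q e) ∧ e ∈ X c))
      ((CW σ c).filter Q) := by
    rw [disjoint_left]
    intro e h1 h2
    exact (mem_CW.1 (mem_filter.1 h2).1).1 (mem_filter.1 h1).2.2
  rw [← sum_union hd]
  refine sum_congr ?_ fun _ _ => rfl
  ext e
  rw [mem_union, mem_filter, mem_filter, mem_filter, mem_CW]
  constructor
  · rintro ⟨h0, h1, h2⟩
    by_cases h3 : e ∈ X c
    · exact Or.inl ⟨h0, ⟨h1, h2⟩, h3⟩
    · exact Or.inr ⟨⟨h3, h1⟩, h2⟩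
  · rintro (⟨h0, ⟨h1, h2⟩, _⟩ | ⟨⟨h3, h1⟩, h2⟩)
    · exact ⟨h0, h1, h2⟩
    · exact ⟨ED_mono (singleton_subset_iff.2 hc) (notMem_X_iff.1 h3), h1, h2⟩

theorem walls_eq (hc : c ∈ D) : walls D σ =
    ((ED D).filter (fun e => Wl σ e ∧ e ∈ X c)).card + (CW σ c).card := by
  have hd : Disjoint ((ED D).filter (fun e => Wl σ e ∧ e ∈ X c)) (CW σ c) := by
    rw [disjoint_left]
    intro e h1 h2
    exact (mem_CW.1 h2).1 (mem_filter.1 h1).2.2
  rw [← card_union_of_disjoint hd, walls]
  congr 1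
  ext e
  rw [mem_union, mem_filter, mem_filter, mem_CW]
  constructor
  · rintro ⟨h0, h1⟩
    by_cases h3 : e ∈ X c
    · exact Or.inl ⟨h0, h1, h3⟩
    · exact Or.inr ⟨h3, h1⟩
  · rintro (⟨h0, h1, _⟩ | ⟨h3, h1⟩)
    · exact ⟨h0, h1⟩
    · exact ⟨ED_mono (singleton_subset_iff.2 hc) (notMem_X_iff.1 h3), h1⟩

theorem walls_flip (H : Pat σ c m r) (h1 : 1 ≤ r) (hr : r < 6) (hc : c ∈ D)
    (h : ∀ f, f ≠ c → σ f = σ' f) (hs : σ c = true) (hs' : σ' c = false) :
    walls D σ + (6 - r) = walls D σ' + r := by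
  rw [walls_eq (σ := σ) hc, walls_eq (σ := σ') hc, H.card_cwP hr hs,
    (H.congr h).card_cwM h1 hr hs']
  have : (ED D).filter (fun e => Wl σ e ∧ e ∈ X c) =
      (ED D).filter (fun e => Wl σ' e ∧ e ∈ X c) := by
    refine filter_congr fun e _ => ?_
    exact and_congr_left fun h' => wl_congr h h'
  rw [this]
  ring

end

end Pool.Agent.V7H98.ON
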