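import Mathlib
import Pool.Agent.V7H98.ON.Tw

/-!
# The strand through a given wall: length and area
-/

set_option autoImplicit false

namespace Pool.Agent.V7H98.ON

open Equiv.Perm Finset
open scoped Classical

/-- the edges of the strand of `a` in `D` -/
noncomputable def St (D : Finset (ℤ × ℤ)) (σ : Spin) (a : Edg) : Finset Edg :=
  (ED D).filter (fun e => (T σ).SameCycle a e)

/-- the area form: twice the number of the hexagons enclosed -/
def la (e : Edg) : ℤ := if e.2 = 0 then 2 * e.1.1 else if e.2 = 3 then 2 - 2 * e.1.1 else 0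

/-- the number of the edges of the strand in `D` -/
noncomputable def len (D : Finset (ℤ × ℤ)) (σ : Spin) (a : Edg) : ℕ := (St D σ a).card

/-- the area to the left of the strand, up to a constant -/
noncomputable def ar (D : Finset (ℤ × ℤ)) (σ : Spin) (a : Edg) : ℤ := ∑ e ∈ St D σ a, la e

section

variable {σ σ' : Spin} {c : ℤ × ℤ} {m : ZMod 6} {r : ℕ} {D : Finset (ℤ × ℤ)} {a : Edg}

/-- sums over the strand -/
theorem sum_St {M : Type*} [AddCommMonoid M] (H : Pat σ c m r) (h1 : 1 ≤ r) (hr : r < 6)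
    (hc : c ∈ D) (hw : Wl σ a) (hs : (T σ).SameCycle a (sin c m)) (φ : Edg → M) :
    ∑ e ∈ St D σ a, φ e = ∑ e ∈ (ED D).filter (fun e => e ∈ X c ∧ (T σ).SameCycle a e), φ e +
      ∑ e ∈ CW σ c, φ e := by
  have hd : Disjoint ((ED D).filter (fun e => e ∈ X c ∧ (T σ).SameCycle a e)) (CW σ c) := by
    rw [disjoint_left]
    intro e h1 h2
    exact (mem_CW.1 h2).1 (mem_filter.1 h1).2.1
  rw [← sum_union hd]
  refine sum_congr ?_ fun _ _ => rfl
  ext e
  rw [mem_union, St, mem_filter, mem_filter, mem_CW]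
  constructor
  · rintro ⟨h0, h2⟩
    by_cases h3 : e ∈ X c
    · exact Or.inl ⟨h0, h3, h2⟩
    · exact Or.inr ⟨h3, (wl_same h2).2 hw⟩
  · rintro (⟨h0, _, h2⟩ | ⟨h3, h2⟩)
    · exact ⟨h0, h2⟩
    · exact ⟨ED_mono (singleton_subset_iff.2 hc) (notMem_X_iff.1 h3),
        hs.trans (H.same_sin h1 hr (mem_CW.2 ⟨h3, h2⟩))⟩

theorem sum_St_flip {M : Type*} [AddCommMonoid M] (H : Pat σ c m r) (h1 : 1 ≤ r) (hr : r < 6)
    (hc : c ∈ D) (h : ∀ f, f ≠ c → σ f = σ' f) (haX : a ∈ X c) (hw : Wl σ a)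
    (hs : (T σ).SameCycle a (sin c m)) (φ : Edg → M) :
    ∑ e ∈ St D σ' a, φ e + ∑ e ∈ CW σ c, φ e = ∑ e ∈ St D σ a, φ e + ∑ e ∈ CW σ' c, φ e := by
  have hs' := (H.same_iff h1 hr h haX (sin_mem c m)).1 hs
  rw [sum_St H h1 hr hc hw hs, sum_St (H.congr h) h1 hr hc ((wl_congr h haX).1 hw) hs']
  have : (ED D).filter (fun e => e ∈ X c ∧ (T σ').SameCycle a e) =
      (ED D).filter (fun e => e ∈ X c ∧ (T σ).SameCycle a e) := by
    ext e
    rw [mem_filter, mem_filter]
    constructor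
    · rintro ⟨h2, h3, h4⟩
      exact ⟨h2, h3, (H.same_iff h1 hr h haX h3).2 h4⟩
    · rintro ⟨h2, h3, h4⟩
      exact ⟨h2, h3, (H.same_iff h1 hr h haX h3).1 h4⟩
  rw [this]
  abel

theorem len_flip (H : Pat σ c m r) (h1 : 1 ≤ r) (hr : r < 6)
    (hc : c ∈ D) (h : ∀ f, f ≠ c → σ f = σ' f) (haX : a ∈ X c) (hw : Wl σ a)
    (hs : (T σ).SameCycle a (sin c m)) (hσ : σ c = true) (hσ' : σ' c = false) :
    len D σ' a + r = len D σ a + (6 - r) := by
  have := sum_St_flip H h1 hr hc h haX hw hs (fun _ => 1)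
  rw [sum_const, sum_const, sum_const, sum_const, smul_eq_mul, smul_eq_mul, smul_eq_mul,
    smul_eq_mul, mul_one, mul_one, mul_one, mul_one, H.card_cwP hr hσ,
    (H.congr h).card_cwM h1 hr hσ'] at this
  exact this

theorem la_opp (c : ℤ × ℤ) (k : ZMod 6) : la (c + d k, k + 3) = -la (c, k) := by
  have h : ∀ k : ZMod 6, (k + 3 = 0 ↔ k = 3) ∧ (k + 3 = 3 ↔ k = 0) := by decide
  obtain ⟨h1, h2⟩ := h k
  unfold la
  simp only [h1, h2]
  by_cases h3 : k = 3
  · subst h3
    have : d 3 = (-1, 0) := rfl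
    rw [this]
    have h4 : ¬ ((3 : ZMod 6) = 0) := by decide
    simp [h4]
    ring
  · by_cases h4 : k = 0
    · subst h4
      have : d 0 = (1, 0) := rfl
      rw [this]
      have h5 : ¬ ((0 : ZMod 6) = 3) := by decide
      simp [h5]
      ring
    · simp [h3, h4]

theorem sum_all (g : ZMod 6 → ℤ) (m : ZMod 6) :
    g m + g (m + 1) + g (m + 2) + g (m + 3) + g (m + 4) + g (m + 5) = ∑ k, g k := by
  rw [← Equiv.sum_comp (Equiv.addLeft m) g]
  have : ∀ f : ZMod 6 → ℤ, ∑ k, f k = f 0 + f 1 + f 2 + f 3 + f 4 + f 5 := fun f =>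
    Fin.sum_univ_six f
  rw [this]
  simp only [Equiv.coe_addLeft, add_zero]

theorem sum_la (c : ℤ × ℤ) : ∑ k : ZMod 6, la (c, k) = 2 := by
  rw [← sum_all (fun k => la (c, k)) 0]
  simp only [zero_add]
  have h1 : la (c, (0 : ZMod 6)) = 2 * c.1 := by simp [la]
  have h2 : la (c, (1 : ZMod 6)) = 0 := by
    have h5 : ¬ ((1 : ZMod 6) = 0) := by decide
    have h6 : ¬ ((1 : ZMod 6) = 3) := by decide
    simp only [la, h5, h6, if_false]
  have h3 : la (c, (2 : ZMod 6)) = 0 := by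
    have h5 : ¬ ((2 : ZMod 6) = 0) := by decide
    have h6 : ¬ ((2 : ZMod 6) = 3) := by decide
    simp only [la, h5, h6, if_false]
  have h4 : la (c, (3 : ZMod 6)) = 2 - 2 * c.1 := by
    have h5 : ¬ ((3 : ZMod 6) = 0) := by decide
    simp only [la, h5, if_false, if_true]
  have h7 : la (c, (4 : ZMod 6)) = 0 := by
    have h5 : ¬ ((4 : ZMod 6) = 0) := by decide
    have h6 : ¬ ((4 : ZMod 6) = 3) := by decide
    simp only [la, h5, h6, if_false]
  have h8 : la (c, (5 : ZMod 6)) = 0 := by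
    have h5 : ¬ ((5 : ZMod 6) = 0) := by decide
    have h6 : ¬ ((5 : ZMod 6) = 3) := by decide
    simp only [la, h5, h6, if_false]
  rw [h1, h2, h3, h4, h7, h8]
  ring

theorem sum_cwP (H : Pat σ c m r) (hr : r < 6) (hc : σ c = true) :
    ∑ e ∈ CW σ c, la e = ∑ j ∈ range r, la (c, m + ((j + 1 : ℕ) : ZMod 6)) := by
  rw [H.cwP hr hc, sum_image]
  intro a ha b hb hab
  rw [mem_coe, mem_range] at ha hb
  have h1 := congrArg Prod.snd hab
  have h2 := cast_inj (a := a + 1) (b := b + 1) (by omega) (by omega) (add_left_cancel h1)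
  omega

theorem sum_cwM (H : Pat σ c m r) (h1 : 1 ≤ r) (hr : r < 6) (hc : σ c = false) :
    ∑ e ∈ CW σ c, la e = -∑ j ∈ range (6 - r), la (c, m - (j : ZMod 6)) := by
  rw [H.cwM hr hc, sum_image, ← sum_neg_distrib]
  · refine sum_congr rfl fun j _ => ?_
    rw [la_opp]
  intro a ha b hb hab
  rw [mem_coe, mem_range] at ha hb
  have h1 := congrArg Prod.snd hab
  have h2 : m - (a : ZMod 6) = m - (b : ZMod 6) := add_right_cancel h1
  exact cast_inj (by omega) (by omega) (sub_right_injective h2)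

theorem sum_cw (H : Pat σ c m r) (hr : r = 2 ∨ r = 4)
    (h : ∀ f, f ≠ c → σ f = σ' f) (hσ : σ c = true) (hσ' : σ' c = false) :
    ∑ e ∈ CW σ c, la e - ∑ e ∈ CW σ' c, la e = 2 := by
  have h6 : (6 : ZMod 6) = 0 := by decide
  rw [sum_cwP H (by omega) hσ, sum_cwM (H.congr h) (by omega) (by omega) hσ', sub_neg_eq_add,
    ← sum_la c, ← sum_all _ m]
  have e1 : m - 1 = m + 5 := by linear_combination -h6
  have e2 : m - 2 = m + 4 := by linear_combination -h6
  have e3 : m - 3 = m + 3 := by linear_combination -h6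
  rcases hr with rfl | rfl
  · simp only [sum_range_succ, sum_range_zero]
    push_cast
    simp only [zero_add, sub_zero]
    rw [e1, e2, e3]
    ring
  · simp only [sum_range_succ, sum_range_zero]
    push_cast
    simp only [zero_add, sub_zero]
    rw [e1]
    ring

theorem ar_flip (H : Pat σ c m r) (hr : r = 2 ∨ r = 4)
    (hc : c ∈ D) (h : ∀ f, f ≠ c → σ f = σ' f) (haX : a ∈ X c) (hw : Wl σ a)
    (hs : (T σ).SameCycle a (sin c m)) (hσ : σ c = true) (hσ' : σ' c = false) :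
    ar D σ a = ar D σ' a + 2 := by
  have h1 := sum_St_flip H (by omega) (by omega) hc h haX hw hs la
  have h2 := sum_cw H hr h hσ hσ'
  unfold ar
  linarith

end

end Pool.Agent.V7H98.ON
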