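import Mathlib
import Pool.Agent.V7H98.ON.Tw

/-!
# Finite energy
-/

set_option autoImplicit false

namespace Pool.Agent.V7H98.ON

open Equiv.Perm Finset
open scoped Classical

/-- the edges which meet `P` -/
noncomputable def touch (P : Finset (ℤ × ℤ)) : Finset Edg :=
  (P ×ˢ (Finset.univ : Finset (ZMod 6))) ∪
    ((P ×ˢ (Finset.univ : Finset (ZMod 6))).image (fun x => (x.1 - d x.2, x.2)) ∪
      (P ×ˢ (Finset.univ : Finset (ZMod 6))).image (fun x => (x.1 - d (x.2 + 1), x.2)))

theorem mem_touch {P : Finset (ℤ × ℤ)} {e : Edg} :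
    e ∈ touch P ↔ e.1 ∈ P ∨ rt e ∈ P ∨ fr e ∈ P := by
  unfold touch
  rw [mem_union, mem_union, mem_product, mem_image, mem_image]
  refine or_congr ⟨fun h => h.1, fun h => ⟨h, mem_univ _⟩⟩ (or_congr ?_ ?_)
  · constructor
    · rintro ⟨x, hx, rfl⟩
      show x.1 - d x.2 + d x.2 ∈ P
      rw [sub_add_cancel]
      exact (mem_product.1 hx).1
    · intro h
      refine ⟨(rt e, e.2), mem_product.2 ⟨h, mem_univ _⟩, ?_⟩
      show (e.1 + d e.2 - d e.2, e.2) = e
      rw [add_sub_cancel_right]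
  · constructor
    · rintro ⟨x, hx, rfl⟩
      show x.1 - d (x.2 + 1) + d (x.2 + 1) ∈ P
      rw [sub_add_cancel]
      exact (mem_product.1 hx).1
    · intro h
      refine ⟨(fr e, e.2), mem_product.2 ⟨h, mem_univ _⟩, ?_⟩
      show (e.1 + d (e.2 + 1) - d (e.2 + 1), e.2) = e
      rw [add_sub_cancel_right]

theorem card_touch (P : Finset (ℤ × ℤ)) : (touch P).card ≤ 18 * P.card := by
  have h1 : (P ×ˢ (Finset.univ : Finset (ZMod 6))).card = P.card * 6 := by
    rw [card_product]
    rfl
  refine (card_union_le _ _).trans ?_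
  have h2 := card_union_le ((P ×ˢ (Finset.univ : Finset (ZMod 6))).image
    (fun x => (x.1 - d x.2, x.2)))
    ((P ×ˢ (Finset.univ : Finset (ZMod 6))).image (fun x => (x.1 - d (x.2 + 1), x.2)))
  have h3 := card_image_le (s := P ×ˢ (Finset.univ : Finset (ZMod 6)))
    (f := fun x => (x.1 - d x.2, x.2))
  have h4 := card_image_le (s := P ×ˢ (Finset.univ : Finset (ZMod 6)))
    (f := fun x => (x.1 - d (x.2 + 1), x.2))
  omega

section

variable {σ σ' : Spin} {P D : Finset (ℤ × ℤ)}

theorem walls_le (h : ∀ f, f ∉ P → σ f = σ' f) : walls D σ ≤ walls D σ' + 18 * P.card := by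
  have hsub : (ED D).filter (Wl σ) ⊆ (ED D).filter (Wl σ') ∪ touch P := by
    intro e he
    rw [mem_filter] at he
    by_cases ht : e ∈ touch P
    · exact mem_union_right _ ht
    · rw [mem_touch, not_or, not_or] at ht
      refine mem_union_left _ (mem_filter.2 ⟨he.1, ?_⟩)
      unfold Wl
      rw [← h _ ht.1, ← h _ ht.2.1]
      exact he.2
  refine (card_le_card hsub).trans ((card_union_le _ _).trans ?_)
  have := card_touch P
  unfold walls
  omega

theorem zpow_agree {α : Type*} {T T' : Equiv.Perm α} {O : Set α} (h : ∀ e ∈ O, T' e = T e)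
    (h1 : ∀ (k : ℤ), ∀ e ∈ O, (T ^ k) e ∈ O) (k : ℤ) (e : α) (he : e ∈ O) :
    (T' ^ k) e = (T ^ k) e := by
  have hn : ∀ (k : ℕ) (e : α), e ∈ O → (T' ^ k) e = (T ^ k) e := by
    intro k
    induction k with
    | zero => intro e _; rfl
    | succ k ih =>
      intro e he
      rw [pow_succ', Equiv.Perm.mul_apply, ih e he, h _ (by
        have := h1 (k : ℤ) e he
        rwa [zpow_natCast] at this), pow_succ', Equiv.Perm.mul_apply]
  rcases Int.eq_nat_or_neg k with ⟨k, rfl | rfl⟩
  · rw [zpow_natCast, zpow_natCast]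
    exact hn k e he
  · have h2 := h1 (-(k : ℤ)) e he
    have h3 := hn k _ h2
    have h4 : (T ^ k) ((T ^ (-(k : ℤ))) e) = e := by
      rw [← zpow_natCast, ← Equiv.Perm.mul_apply, ← zpow_add]
      simp
    rw [h4] at h3
    rw [zpow_neg, zpow_natCast, Equiv.Perm.inv_eq_iff_eq]
    exact h3.symm

theorem loops_le' (h : ∀ f, f ∉ P → σ f = σ' f) : loops D σ ≤ loops D σ' + 18 * P.card := by
  have hsub : (ED D).powerset.filter (IsStr σ) ⊆ (ED D).powerset.filter (IsStr σ') ∪
      (touch P).image (fun e => (ED D).filter (fun e' => (T σ).SameCycle e e')) := by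
    intro O hO
    rw [mem_filter, mem_powerset] at hO
    by_cases ht : ∃ e ∈ O, e ∈ touch P
    · obtain ⟨e, he, het⟩ := ht
      refine mem_union_right _ (mem_image.2 ⟨e, het, ?_⟩)
      ext e'
      rw [mem_filter, ← hO.2.mem_iff he]
      exact ⟨fun h => h.2, fun h => ⟨hO.1 h, h⟩⟩
    · push Not at ht
      refine mem_union_left _ (mem_filter.2 ⟨mem_powerset.2 hO.1, ?_⟩)
      obtain ⟨e, hw, he⟩ := hO.2
      have heO : e ∈ O := (he e).2 (SameCycle.refl _ _)
      have hag : ∀ e' ∈ (O : Set Edg), T σ' e' = T σ e' := by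
        intro e' he'
        have h3 := ht e' he'
        rw [mem_touch, not_or, not_or] at h3
        refine stp_congr fun f hf => (h f ?_).symm
        rcases hf with rfl | rfl | rfl
        · exact h3.1
        · exact h3.2.1
        · exact h3.2.2
      have hin : ∀ (k : ℤ), ∀ e' ∈ (O : Set Edg), (T σ ^ k) e' ∈ (O : Set Edg) := by
        intro k e' he'
        exact (hO.2.mem_iff he').2 ⟨k, rfl⟩
      refine ⟨e, ?_, fun e' => ?_⟩
      · have h3 := ht e heO
        rw [mem_touch, not_or, not_or] at h3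
        unfold Wl
        rw [← h _ h3.1, ← h _ h3.2.1]
        exact hw
      · rw [he]
        constructor
        · rintro ⟨k, rfl⟩
          exact ⟨k, zpow_agree hag hin k e heO⟩
        · rintro ⟨k, rfl⟩
          exact ⟨k, (zpow_agree hag hin k e heO).symm⟩
  refine (card_le_card hsub).trans ((card_union_le _ _).trans ?_)
  have h1 := card_touch P
  have h2 := card_image_le (s := touch P)
    (f := fun e => (ED D).filter (fun e' => (T σ).SameCycle e e'))
  unfold loops
  omega

end

/-- the weight -/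
noncomputable def wt (x n : ℝ) (D : Finset (ℤ × ℤ)) (σ : Spin) : ℝ :=
  x ^ walls D σ * n ^ loops D σ

theorem wt_pos {x n : ℝ} (hx : 0 < x) (hn : 0 < n) (D : Finset (ℤ × ℤ)) (σ : Spin) :
    0 < wt x n D σ := by
  unfold wt
  positivity

theorem pow_compare {y : ℝ} (hy : 0 < y) {L L' K : ℕ} (h1 : L ≤ L' + K) (h2 : L' ≤ L + K) :
    (min y y⁻¹) ^ K * y ^ L ≤ y ^ L' := by
  have hk0 : 0 < min y y⁻¹ := lt_min hy (inv_pos.2 hy)
  have hk1 : min y y⁻¹ ≤ 1 := by
    rcases le_total y 1 with h | h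
    · exact (min_le_left _ _).trans h
    · exact (min_le_right _ _).trans (inv_le_one_of_one_le₀ h)
  rcases le_total L L' with h | h
  · obtain ⟨j, rfl⟩ := Nat.exists_eq_add_of_le h
    rw [pow_add, mul_comm]
    refine mul_le_mul_of_nonneg_left ?_ (by positivity)
    calc (min y y⁻¹) ^ K ≤ (min y y⁻¹) ^ j := pow_le_pow_of_le_one hk0.le hk1 (by omega)
      _ ≤ y ^ j := pow_le_pow_left₀ hk0.le (min_le_left _ _) j
  · obtain ⟨j, rfl⟩ := Nat.exists_eq_add_of_le h
    rw [pow_add]
    have h3 : (min y y⁻¹) ^ K * y ^ j ≤ 1 := by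
      calc (min y y⁻¹) ^ K * y ^ j ≤ (min y y⁻¹) ^ j * y ^ j := by
            refine mul_le_mul_of_nonneg_right ?_ (by positivity)
            exact pow_le_pow_of_le_one hk0.le hk1 (by omega)
        _ = (min y y⁻¹ * y) ^ j := (mul_pow _ _ _).symm
        _ ≤ 1 := by
            refine pow_le_one₀ (by positivity) ?_
            calc min y y⁻¹ * y ≤ y⁻¹ * y := by
                  gcongr
                  exact min_le_right _ _
              _ = 1 := inv_mul_cancel₀ hy.ne'
    calc (min y y⁻¹) ^ K * (y ^ L' * y ^ j) = y ^ L' * ((min y y⁻¹) ^ K * y ^ j) := by ring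
      _ ≤ y ^ L' * 1 := mul_le_mul_of_nonneg_left h3 (by positivity)
      _ = _ := mul_one _

/-- the constant of finite energy for the change of at most seven hexagons -/
noncomputable def en (x n : ℝ) : ℝ := (min x x⁻¹) ^ 126 * (min n n⁻¹) ^ 126

theorem en_pos {x n : ℝ} (hx : 0 < x) (hn : 0 < n) : 0 < en x n := by
  have h1 : 0 < min x x⁻¹ := lt_min hx (inv_pos.2 hx)
  have h2 : 0 < min n n⁻¹ := lt_min hn (inv_pos.2 hn)
  unfold en
  positivity

/-- finite energy -/
theorem energy {x n : ℝ} (hx : 0 < x) (hn : 0 < n) {σ σ' : Spin} {P D : Finset (ℤ × ℤ)}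
    (hP : P.card ≤ 7) (h : ∀ f, f ∉ P → σ f = σ' f) : en x n * wt x n D σ ≤ wt x n D σ' := by
  have h1 := walls_le (D := D) h
  have h2 := walls_le (D := D) fun f hf => (h f hf).symm
  have h3 := loops_le' (D := D) h
  have h4 := loops_le' (D := D) fun f hf => (h f hf).symm
  have h5 := pow_compare hx (L := walls D σ) (L' := walls D σ') (K := 126) (by omega) (by omega)
  have h6 := pow_compare hn (L := loops D σ) (L' := loops D σ') (K := 126) (by omega) (by omega)
  unfold en wt
  have h7 : 0 < min x x⁻¹ := lt_min hx (inv_pos.2 hx)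
  have h8 : 0 < min n n⁻¹ := lt_min hn (inv_pos.2 hn)
  calc (min x x⁻¹) ^ 126 * (min n n⁻¹) ^ 126 * (x ^ walls D σ * n ^ loops D σ) =
      ((min x x⁻¹) ^ 126 * x ^ walls D σ) * ((min n n⁻¹) ^ 126 * n ^ loops D σ) := by ring
    _ ≤ _ := mul_le_mul h5 h6 (by positivity) (by positivity)

end Pool.Agent.V7H98.ON
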