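import Mathlib
import Pool.Agent.V7H98.ON.Energy

/-!
# The exploration of the strand
-/

set_option autoImplicit false

namespace Pool.Agent.V7H98.ON

open Equiv.Perm Finset
open scoped Classical

/-- the six neighbours of `c` -/
noncomputable def petals (c : ℤ × ℤ) : Finset (ℤ × ℤ) :=
  (Finset.univ : Finset (ZMod 6)).image fun k => c + d k

/-- the flower of `c` -/
noncomputable def fl (c : ℤ × ℤ) : Finset (ℤ × ℤ) := insert c (petals c)

theorem mem_petals {c f : ℤ × ℤ} : f ∈ petals c ↔ ∃ k, f = c + d k := by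
  unfold petals
  rw [mem_image]
  exact ⟨fun ⟨k, _, h⟩ => ⟨k, h.symm⟩, fun ⟨k, h⟩ => ⟨k, mem_univ _, h.symm⟩⟩

theorem mem_fl {c f : ℤ × ℤ} : f ∈ fl c ↔ f = c ∨ ∃ k, f = c + d k := by
  unfold fl
  rw [mem_insert, mem_petals]

theorem petals_subset (c : ℤ × ℤ) : petals c ⊆ fl c := subset_insert _ _

theorem card_petals (c : ℤ × ℤ) : (petals c).card ≤ 6 := by
  refine card_image_le.trans ?_
  rfl

theorem card_fl (c : ℤ × ℤ) : (fl c).card ≤ 7 := by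
  refine (card_insert_le _ _).trans ?_
  have := card_petals c
  omega

/-- the spins with the boundary condition `τ` outside `D` -/
noncomputable def Cf (D : Finset (ℤ × ℤ)) (τ : Spin) : Finset Spin :=
  D.powerset.image fun A f => if f ∈ D then decide (f ∈ A) else τ f

theorem mem_Cf {D : Finset (ℤ × ℤ)} {τ σ : Spin} : σ ∈ Cf D τ ↔ ∀ f, f ∉ D → σ f = τ f := by
  unfold Cf
  rw [mem_image]
  constructor
  · rintro ⟨A, _, rfl⟩ f hf
    simp only [if_neg hf]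
  · intro h
    refine ⟨D.filter (fun f => σ f = true), mem_powerset.2 (filter_subset _ _), ?_⟩
    funext f
    by_cases hf : f ∈ D
    · simp only [mem_filter, hf, true_and]
      cases hs : σ f <;> simp
    · simp only [if_neg hf]
      exact (h f hf).symm

/-- the neighbours of `c` get the pattern `m`, `r` -/
noncomputable def md (σ : Spin) (c : ℤ × ℤ) (m : ZMod 6) (r : ℕ) : Spin := fun f =>
  if f ∈ (range r).image (fun j : ℕ => c + d (m + ((j + 1 : ℕ) : ZMod 6))) then false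
  else if f ∈ petals c then true else σ f

theorem md_off {σ : Spin} {c : ℤ × ℤ} {m : ZMod 6} {r : ℕ} {f : ℤ × ℤ} (hf : f ∉ petals c) :
    md σ c m r f = σ f := by
  unfold md
  rw [if_neg, if_neg hf]
  intro h
  obtain ⟨j, _, rfl⟩ := mem_image.1 h
  exact hf (mem_petals.2 ⟨_, rfl⟩)

theorem pat_md {σ : Spin} {c : ℤ × ℤ} {m : ZMod 6} {r : ℕ} (hr : r < 6) :
    Pat (md σ c m r) c m r := by
  intro j h1 h2
  unfold md
  by_cases hj : j ≤ r
  · rw [if_pos (mem_image.2 ⟨j - 1, mem_range.2 (by omega), by rw [show j - 1 + 1 = j by omega]⟩)]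
    simpa using hj
  · rw [if_neg, if_pos (mem_petals.2 ⟨_, rfl⟩)]
    · simpa using hj
    · intro h
      obtain ⟨l, hl, he⟩ := mem_image.1 h
      rw [mem_range] at hl
      have h3 := add_left_cancel (d_inj (add_left_cancel he))
      have h4 := (ZMod.natCast_eq_natCast_iff' (l + 1) j 6).1 h3
      omega

/-- the positions -/
def ps (σ : Spin) (a : Edg) (i : ℕ) : Edg := (T σ ^ i) a

theorem ps_succ (σ : Spin) (a : Edg) (i : ℕ) : ps σ a (i + 1) = stp σ (ps σ a i) := by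
  unfold ps
  rw [pow_succ', Equiv.Perm.mul_apply, T_apply]

theorem ps_zero (σ : Spin) (a : Edg) : ps σ a 0 = a := rfl

/-- the hexagons of the positions have been seen before -/
theorem ps_faces (σ : Spin) (a : Edg) (i : ℕ) :
    ((ps σ a i).1 = a.1 ∨ (ps σ a i).1 = rt a ∨ ∃ j < i, (ps σ a i).1 = fr (ps σ a j)) ∧
    (rt (ps σ a i) = a.1 ∨ rt (ps σ a i) = rt a ∨ ∃ j < i, rt (ps σ a i) = fr (ps σ a j)) := by
  induction i with
  | zero => exact ⟨Or.inl rfl, Or.inr (Or.inl rfl)⟩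
  | succ i ih =>
    obtain ⟨h1, h2⟩ := stp_faces σ (ps σ a i)
    rw [ps_succ]
    refine ⟨?_, ?_⟩
    · rcases h1 with h1 | h1
      · rw [h1]
        rcases ih.1 with h | h | ⟨j, hj, h⟩
        · exact Or.inl h
        · exact Or.inr (Or.inl h)
        · exact Or.inr (Or.inr ⟨j, by omega, h⟩)
      · exact Or.inr (Or.inr ⟨i, by omega, h1⟩)
    · rcases h2 with h2 | h2
      · rw [h2]
        rcases ih.2 with h | h | ⟨j, hj, h⟩
        · exact Or.inl h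
        · exact Or.inr (Or.inl h)
        · exact Or.inr (Or.inr ⟨j, by omega, h⟩)
      · exact Or.inr (Or.inr ⟨i, by omega, h2⟩)

/-- the flowers seen before the time `i` -/
noncomputable def Hs (Cs : Finset (ℤ × ℤ)) (a : Edg) (σ : Spin) (i : ℕ) : Finset (ℤ × ℤ) :=
  Cs.filter fun c => ∃ j < i, fr (ps σ a j) ∈ fl c

/-- the good flowers seen before the time `i` -/
noncomputable def Gd (Cs : Finset (ℤ × ℤ)) (a : Edg) (r : ℕ) (σ : Spin) (i : ℕ) :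
    Finset (ℤ × ℤ) :=
  Cs.filter fun c => ∃ j < i, fr (ps σ a j) ∈ fl c ∧ c ∉ Hs Cs a σ j ∧
    Pat σ c ((ps σ a j).2 - 2) r

section

variable {Cs D : Finset (ℤ × ℤ)} {a : Edg} {r : ℕ}

theorem mem_Hs {σ : Spin} {i : ℕ} {c : ℤ × ℤ} :
    c ∈ Hs Cs a σ i ↔ c ∈ Cs ∧ ∃ j < i, fr (ps σ a j) ∈ fl c := by
  rw [Hs, mem_filter]

theorem mem_Gd {σ : Spin} {i : ℕ} {c : ℤ × ℤ} :
    c ∈ Gd Cs a r σ i ↔ c ∈ Cs ∧ ∃ j < i, fr (ps σ a j) ∈ fl c ∧ c ∉ Hs Cs a σ j ∧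
      Pat σ c ((ps σ a j).2 - 2) r := by
  rw [Gd, mem_filter]

theorem Gd_subset {σ : Spin} {i : ℕ} : Gd Cs a r σ i ⊆ Hs Cs a σ i := by
  intro c hc
  rw [mem_Gd] at hc
  obtain ⟨h1, j, hj, h2, _⟩ := hc
  exact mem_Hs.2 ⟨h1, j, hj, h2⟩

theorem Hs_mono {σ : Spin} {i j : ℕ} (h : i ≤ j) : Hs Cs a σ i ⊆ Hs Cs a σ j := by
  intro c hc
  rw [mem_Hs] at hc ⊢
  obtain ⟨h1, l, hl, h2⟩ := hc
  exact ⟨h1, l, by omega, h2⟩

theorem notMem_faces {σ : Spin} {i : ℕ} {c : ℤ × ℤ} (hc : c ∈ Cs) (ha : a.1 ∉ fl c)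
    (ha' : rt a ∉ fl c) (h : c ∉ Hs Cs a σ i) :
    (ps σ a i).1 ∉ fl c ∧ rt (ps σ a i) ∉ fl c := by
  have h0 : ∀ j < i, fr (ps σ a j) ∉ fl c := fun j hj hf => h (mem_Hs.2 ⟨hc, j, hj, hf⟩)
  obtain ⟨h1, h2⟩ := ps_faces σ a i
  refine ⟨?_, ?_⟩
  · rcases h1 with h1 | h1 | ⟨j, hj, h1⟩
    · rw [h1]; exact ha
    · rw [h1]; exact ha'
    · rw [h1]; exact h0 j hj
  · rcases h2 with h2 | h2 | ⟨j, hj, h2⟩
    · rw [h2]; exact ha
    · rw [h2]; exact ha'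
    · rw [h2]; exact h0 j hj

/-- the direction of the first contact with a flower -/
theorem contact {c : ℤ × ℤ} {e : Edg} (h1 : e.1 ∉ fl c) (h2 : rt e ∉ fl c) (h3 : fr e ∈ fl c) :
    fr e = c + d (e.2 - 1) ∨ fr e = c + d (e.2 - 2) := by
  have key : ∀ j k : ZMod 6, (∀ l, d j + d (k + 4) ≠ d l) → d j + d (k + 4) ≠ 0 →
      (∀ l, d j + d (k + 5) ≠ d l) → d j + d (k + 5) ≠ 0 → j = k - 1 ∨ j = k - 2 := by
    decide
  have e1 : e.1 = fr e + d (e.2 + 4) := by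
    have h4 := d_opp (e.2 + 1)
    rw [show e.2 + 1 + 3 = e.2 + 4 by ring] at h4
    rw [fr, add_assoc, h4, add_zero]
  have e2 : rt e = fr e + d (e.2 + 5) := by
    have h5 := d_add (e.2 + 5)
    have h10 : (6 : ZMod 6) = 0 := by decide
    rw [show e.2 + 5 - 1 = e.2 + 4 by ring, show e.2 + 5 + 1 = e.2 by
      linear_combination h10] at h5
    rw [← h5, ← add_assoc, ← e1]
    rfl
  rw [mem_fl] at h1 h2 h3
  rw [not_or] at h1 h2
  rcases h3 with h3 | ⟨j, h3⟩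
  · exact absurd ⟨_, by rw [← h3]; exact e1⟩ h1.2
  · rw [h3]
    rw [h3] at e1 e2
    have hk := key j e.2
      (fun l hl => h1.2 ⟨l, by rw [e1, add_assoc, hl]⟩)
      (fun hl => h1.1 (by rw [e1, add_assoc, hl, add_zero]))
      (fun l hl => h2.2 ⟨l, by rw [e2, add_assoc, hl]⟩)
      (fun hl => h2.1 (by rw [e2, add_assoc, hl, add_zero]))
    rcases hk with h | h
    · left
      rw [h]
    · right
      rw [h]

/-- after a contact with a good flower the strand enters -/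
theorem enter {c : ℤ × ℤ} {e : Edg} {σ : Spin} (hw : Wl σ e)
    (h : fr e = c + d (e.2 - 1) ∨ fr e = c + d (e.2 - 2)) (hr1 : 1 ≤ r) (hr : r < 6)
    (H : Pat σ c (e.2 - 2) r) : (T σ ^ 2) e = sin c (e.2 - 2) := by
  have h6 : (6 : ZMod 6) = 0 := by decide
  have hp : σ (c + d (e.2 - 2)) = true := H.plus0 hr
  have hm : σ (c + d (e.2 - 1)) = false := by
    have := H.minus (j := 1) le_rfl hr1 hr
    rw [Nat.cast_one, show e.2 - 2 + 1 = e.2 - 1 by ring] at this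
    exact this
  rw [pow_two, Equiv.Perm.mul_apply, T_apply, T_apply]
  rcases h with h | h
  · have h1 : stp σ e = (e.1, e.2 + 1) := stp_of' hw (by rw [h]; exact hm)
    have hw1 := wl_stp hw
    rw [h1] at hw1 ⊢
    have h2 : fr (e.1, e.2 + 1) = c + d (e.2 - 2) := by
      show e.1 + d (e.2 + 1 + 1) = _
      have e1 : e.1 = fr e + d (e.2 + 4) := by
        have h4 := d_opp (e.2 + 1)
        rw [show e.2 + 1 + 3 = e.2 + 4 by ring] at h4
        rw [fr, add_assoc, h4, add_zero]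
      rw [e1, h]
      have h4 := d_opp (e.2 - 1)
      rw [show e.2 - 1 + 3 = e.2 + 1 + 1 by ring] at h4
      rw [show e.2 - 2 = e.2 + 4 by linear_combination -h6, add_right_comm _ (d (e.2 + 4)),
        add_assoc c, h4, add_zero]
    rw [stp_of hw1 (by rw [h2]; exact hp), h2]
    show (c + d (e.2 - 2), e.2 + 1 - 1) = (c + d (e.2 - 2), e.2 - 2 + 2)
    congr 1
    ring
  · have h1 : stp σ e = (fr e, e.2 - 1) := stp_of hw (by rw [h]; exact hp)
    have hw1 := wl_stp hw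
    rw [h1] at hw1 ⊢
    have h2 : fr (fr e, e.2 - 1) = c + d (e.2 - 1) := by
      show fr e + d (e.2 - 1 + 1) = _
      rw [h]
      have h4 := d_add (e.2 - 1)
      rw [show e.2 - 1 - 1 = e.2 - 2 by ring] at h4
      rw [add_assoc, h4]
    rw [stp_of' hw1 (by rw [h2]; exact hm), h]
    show (c + d (e.2 - 2), e.2 - 1 + 1) = (c + d (e.2 - 2), e.2 - 2 + 2)
    congr 1
    ring

/-- changes in a flower which has not been seen -/
theorem ps_congr {σ σ' : Spin} {i : ℕ} {c : ℤ × ℤ} (hc : c ∈ Cs) (ha : a.1 ∉ fl c)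
    (ha' : rt a ∉ fl c) (h : c ∉ Hs Cs a σ i) (hσ : ∀ f, f ∉ fl c → σ f = σ' f) :
    ∀ j ≤ i, ps σ' a j = ps σ a j := by
  intro j
  induction j with
  | zero => intro _; rfl
  | succ j ih =>
    intro hj
    have h1 : c ∉ Hs Cs a σ j := fun h2 => h (Hs_mono (by omega) h2)
    obtain ⟨h2, h3⟩ := notMem_faces hc ha ha' h1
    have h4 : fr (ps σ a j) ∉ fl c := fun hf => h (mem_Hs.2 ⟨hc, j, by omega, hf⟩)
    rw [ps_succ, ps_succ, ih (by omega)]
    refine stp_congr fun f hf => (hσ f ?_).symm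
    rcases hf with rfl | rfl | rfl
    · exact h2
    · exact h3
    · exact h4

theorem Hs_congr {σ σ' : Spin} {i : ℕ} {c : ℤ × ℤ} (hc : c ∈ Cs) (ha : a.1 ∉ fl c)
    (ha' : rt a ∉ fl c) (h : c ∉ Hs Cs a σ i) (hσ : ∀ f, f ∉ fl c → σ f = σ' f) :
    ∀ j ≤ i, Hs Cs a σ' j = Hs Cs a σ j := by
  intro j hj
  ext c'
  rw [mem_Hs, mem_Hs]
  have hp := ps_congr hc ha ha' h hσ
  constructor
  · rintro ⟨h1, l, hl, h2⟩
    rw [hp l (by omega)] at h2
    exact ⟨h1, l, hl, h2⟩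
  · rintro ⟨h1, l, hl, h2⟩
    rw [← hp l (by omega)] at h2
    exact ⟨h1, l, hl, h2⟩

theorem Gd_congr (hdis : ∀ c ∈ Cs, ∀ c' ∈ Cs, c ≠ c' → Disjoint (fl c) (fl c')) {σ σ' : Spin}
    {i : ℕ} {c : ℤ × ℤ} (hc : c ∈ Cs) (ha : a.1 ∉ fl c)
    (ha' : rt a ∉ fl c) (h : c ∉ Hs Cs a σ i) (hσ : ∀ f, f ∉ fl c → σ f = σ' f) :
    Gd Cs a r σ' i = Gd Cs a r σ i := by
  have hp := ps_congr hc ha ha' h hσ
  have hH := Hs_congr hc ha ha' h hσ
  have hpat : ∀ c' ∈ Cs, c' ≠ c → ∀ m, Pat σ' c' m r ↔ Pat σ c' m r := by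
    intro c' hc' hne m
    have h1 : ∀ k, σ (c' + d k) = σ' (c' + d k) := fun k => hσ _ fun h2 =>
      (disjoint_left.1 (hdis c' hc' c hc hne)) (mem_fl.2 (Or.inr ⟨k, rfl⟩)) h2
    constructor
    · intro h2 j h3 h4
      rw [h1]
      exact h2 j h3 h4
    · intro h2 j h3 h4
      rw [← h1]
      exact h2 j h3 h4
  ext c'
  rw [mem_Gd, mem_Gd]
  constructor
  · rintro ⟨h1, l, hl, h2, h3, h4⟩
    rw [hp l (by omega)] at h2 h4
    rw [hH l (by omega)] at h3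
    have hne : c' ≠ c := by
      rintro rfl
      exact h (mem_Hs.2 ⟨h1, l, hl, h2⟩)
    exact ⟨h1, l, hl, h2, h3, (hpat c' h1 hne _).1 h4⟩
  · rintro ⟨h1, l, hl, h2, h3, h4⟩
    have hne : c' ≠ c := by
      rintro rfl
      exact h (mem_Hs.2 ⟨h1, l, hl, h2⟩)
    rw [← hp l (by omega)] at h2 h4
    rw [← hH l (by omega)] at h3
    exact ⟨h1, l, hl, h2, h3, (hpat c' h1 hne _).2 h4⟩

/-- the flower `c` is seen for the first time at the time `i` -/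
def Nw (Cs : Finset (ℤ × ℤ)) (a : Edg) (σ : Spin) (i : ℕ) (c : ℤ × ℤ) : Prop :=
  c ∈ Cs ∧ c ∉ Hs Cs a σ i ∧ fr (ps σ a i) ∈ fl c

theorem Nw.unique (hdis : ∀ c ∈ Cs, ∀ c' ∈ Cs, c ≠ c' → Disjoint (fl c) (fl c')) {σ : Spin}
    {i : ℕ} {c c' : ℤ × ℤ} (h : Nw Cs a σ i c) (h' : Nw Cs a σ i c') : c = c' := by
  by_contra hne
  exact (disjoint_left.1 (hdis c h.1 c' h'.1 hne)) h.2.2 h'.2.2

theorem Hs_succ_of (hdis : ∀ c ∈ Cs, ∀ c' ∈ Cs, c ≠ c' → Disjoint (fl c) (fl c')) {σ : Spin}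
    {i : ℕ} {c : ℤ × ℤ} (h : Nw Cs a σ i c) : Hs Cs a σ (i + 1) = insert c (Hs Cs a σ i) := by
  ext c'
  rw [mem_insert, mem_Hs, mem_Hs]
  constructor
  · rintro ⟨h1, l, hl, h2⟩
    rcases Nat.lt_or_ge l i with h3 | h3
    · exact Or.inr ⟨h1, l, h3, h2⟩
    · have : l = i := by omega
      subst this
      by_cases h4 : c' ∈ Hs Cs a σ l
      · exact Or.inr (mem_Hs.1 h4)
      · exact Or.inl (Nw.unique hdis ⟨h1, h4, h2⟩ h)
  · rintro (rfl | ⟨h1, l, hl, h2⟩)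
    · exact ⟨h.1, i, by omega, h.2.2⟩
    · exact ⟨h1, l, by omega, h2⟩

theorem Hs_succ_not {σ : Spin} {i : ℕ} (h : ¬ ∃ c, Nw Cs a σ i c) :
    Hs Cs a σ (i + 1) = Hs Cs a σ i := by
  ext c'
  rw [mem_Hs, mem_Hs]
  constructor
  · rintro ⟨h1, l, hl, h2⟩
    rcases Nat.lt_or_ge l i with h3 | h3
    · exact ⟨h1, l, h3, h2⟩
    · have : l = i := by omega
      subst this
      by_contra h4
      exact h ⟨c', h1, fun h5 => h4 (mem_Hs.1 h5), h2⟩
  · rintro ⟨h1, l, hl, h2⟩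
    exact ⟨h1, l, by omega, h2⟩

theorem Gd_succ_good {σ : Spin} {i : ℕ} {c : ℤ × ℤ}
    (hdis : ∀ c ∈ Cs, ∀ c' ∈ Cs, c ≠ c' → Disjoint (fl c) (fl c')) (h : Nw Cs a σ i c)
    (hP : Pat σ c ((ps σ a i).2 - 2) r) :
    Gd Cs a r σ (i + 1) = insert c (Gd Cs a r σ i) := by
  ext c'
  rw [mem_insert, mem_Gd, mem_Gd]
  constructor
  · rintro ⟨h1, l, hl, h2, h3, h4⟩
    rcases Nat.lt_or_ge l i with h5 | h5
    · exact Or.inr ⟨h1, l, h5, h2, h3, h4⟩
    · have : l = i := by omega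
      subst this
      exact Or.inl (Nw.unique hdis ⟨h1, h3, h2⟩ h)
  · rintro (rfl | ⟨h1, l, hl, h2⟩)
    · exact ⟨h.1, i, by omega, h.2.2, h.2.1, hP⟩
    · exact ⟨h1, l, by omega, h2⟩

theorem Gd_succ_bad {σ : Spin} {i : ℕ}
    (h : ∀ c, Nw Cs a σ i c → ¬ Pat σ c ((ps σ a i).2 - 2) r) :
    Gd Cs a r σ (i + 1) = Gd Cs a r σ i := by
  ext c'
  rw [mem_Gd, mem_Gd]
  constructor
  · rintro ⟨h1, l, hl, h2, h3, h4⟩
    rcases Nat.lt_or_ge l i with h5 | h5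
    · exact ⟨h1, l, h5, h2, h3, h4⟩
    · have : l = i := by omega
      subst this
      exact absurd h4 (h c' ⟨h1, h3, h2⟩)
  · rintro ⟨h1, l, hl, h2⟩
    exact ⟨h1, l, by omega, h2⟩

end

end Pool.Agent.V7H98.ON
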