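import Mathlib
import Pool.Agent.V7H98.ON.Expl

/-!
# The supermartingale of the exploration
-/

set_option autoImplicit false

namespace Pool.Agent.V7H98.ON

open Equiv.Perm Finset
open scoped Classical

section

variable {Cs D : Finset (ℤ × ℤ)} {a : Edg} {r : ℕ} {τ : Spin}

/-- the standing assumptions -/
structure Setup (Cs D : Finset (ℤ × ℤ)) (τ : Spin) (a : Edg) : Prop where
  dis : ∀ c ∈ Cs, ∀ c' ∈ Cs, c ≠ c' → Disjoint (fl c) (fl c')
  sub : ∀ c ∈ Cs, fl c ⊆ D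
  wl : Wl τ a
  left : a.1 ∉ D
  right : rt a ∉ D

theorem Setup.wlσ (h : Setup Cs D τ a) {σ : Spin} (hσ : σ ∈ Cf D τ) : Wl σ a := by
  rw [mem_Cf] at hσ
  unfold Wl
  rw [hσ _ h.left, hσ _ h.right]
  exact h.wl

/-- the modified spins -/
noncomputable def mf (Cs : Finset (ℤ × ℤ)) (a : Edg) (r i : ℕ) (σ : Spin) : Spin :=
  if h : ∃ c, Nw Cs a σ i c then md σ h.choose ((ps σ a i).2 - 2) r else σ

theorem mf_eq (h : Setup Cs D τ a) {σ : Spin} {i : ℕ} {c : ℤ × ℤ} (hc : Nw Cs a σ i c) :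
    mf Cs a r i σ = md σ c ((ps σ a i).2 - 2) r := by
  have hex : ∃ c, Nw Cs a σ i c := ⟨c, hc⟩
  rw [mf, dif_pos hex, Nw.unique h.dis hex.choose_spec hc]

theorem md_off_fl {σ : Spin} {c : ℤ × ℤ} {m : ZMod 6} {f : ℤ × ℤ} (hf : f ∉ fl c) :
    md σ c m r f = σ f := md_off fun h => hf (petals_subset c h)

theorem md_mem (h : Setup Cs D τ a) {σ : Spin} {c : ℤ × ℤ} {m : ZMod 6} (hσ : σ ∈ Cf D τ)
    (hc : c ∈ Cs) : md σ c m r ∈ Cf D τ := by
  rw [mem_Cf] at hσ ⊢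
  intro f hf
  rw [md_off_fl fun h' => hf (h.sub c hc h')]
  exact hσ f hf

theorem nw_md (h : Setup Cs D τ a) {σ : Spin} {i : ℕ} {c : ℤ × ℤ} {m : ZMod 6}
    (hc : Nw Cs a σ i c) : Nw Cs a (md σ c m r) i c ∧ ps (md σ c m r) a i = ps σ a i ∧
      Hs Cs a (md σ c m r) i = Hs Cs a σ i ∧ Gd Cs a r (md σ c m r) i = Gd Cs a r σ i := by
  have ha : a.1 ∉ fl c := fun h' => h.left (h.sub c hc.1 h')
  have ha' : rt a ∉ fl c := fun h' => h.right (h.sub c hc.1 h')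
  have hσ : ∀ f, f ∉ fl c → σ f = md σ c m r f := fun f hf => (md_off_fl hf).symm
  have h1 := ps_congr hc.1 ha ha' hc.2.1 hσ i le_rfl
  have h2 := Hs_congr hc.1 ha ha' hc.2.1 hσ i le_rfl
  have h3 := Gd_congr (r := r) h.dis hc.1 ha ha' hc.2.1 hσ
  refine ⟨⟨hc.1, ?_, ?_⟩, h1, h2, h3⟩
  · rw [h2]; exact hc.2.1
  · rw [h1]; exact hc.2.2

/-- the spins which see a new flower at the time `i` -/
noncomputable def NW (Cs D : Finset (ℤ × ℤ)) (τ : Spin) (a : Edg) (i : ℕ) : Finset Spin :=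
  (Cf D τ).filter fun σ => ∃ c, Nw Cs a σ i c

/-- the new flower is good -/
noncomputable def NG (Cs D : Finset (ℤ × ℤ)) (τ : Spin) (a : Edg) (r i : ℕ) : Finset Spin :=
  (Cf D τ).filter fun σ => ∃ c, Nw Cs a σ i c ∧ Pat σ c ((ps σ a i).2 - 2) r

theorem mf_mem (h : Setup Cs D τ a) (hr : r < 6) {σ : Spin} {i : ℕ} (hσ : σ ∈ NW Cs D τ a i) :
    mf Cs a r i σ ∈ NG Cs D τ a r i := by
  rw [NW, mem_filter] at hσ
  obtain ⟨h1, c, hc⟩ := hσ
  rw [mf_eq h hc, NG, mem_filter]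
  obtain ⟨h2, h3, _⟩ := nw_md (r := r) (m := (ps σ a i).2 - 2) h hc
  refine ⟨md_mem h h1 hc.1, c, h2, ?_⟩
  rw [h3]
  exact pat_md hr

theorem fiber_card (h : Setup Cs D τ a) {i : ℕ} (σ' : Spin) :
    ((NW Cs D τ a i).filter fun σ => mf Cs a r i σ = σ').card ≤ 64 := by
  by_cases hne : ((NW Cs D τ a i).filter fun σ => mf Cs a r i σ = σ').Nonempty
  · obtain ⟨σ0, hσ0⟩ := hne
    rw [mem_filter, NW, mem_filter] at hσ0
    obtain ⟨⟨_, c, hc⟩, h0⟩ := hσ0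
    rw [mf_eq h hc] at h0
    have hc' : Nw Cs a σ' i c := by
      rw [← h0]
      exact (nw_md h hc).1
    have hall : ∀ σ ∈ (NW Cs D τ a i).filter (fun σ => mf Cs a r i σ = σ'),
        ∀ f, f ∉ petals c → σ f = σ' f := by
      intro σ hσ f hf
      rw [mem_filter, NW, mem_filter] at hσ
      obtain ⟨⟨_, c1, hc1⟩, h1⟩ := hσ
      rw [mf_eq h hc1] at h1
      have hc2 : Nw Cs a σ' i c1 := by
        rw [← h1]
        exact (nw_md h hc1).1
      have e := Nw.unique h.dis hc2 hc'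
      subst e
      rw [← h1, md_off hf]
    have h2 : ((NW Cs D τ a i).filter fun σ => mf Cs a r i σ = σ').card ≤
        (petals c).powerset.card := by
      refine card_le_card_of_injOn (fun σ => (petals c).filter fun f => σ f = true) ?_ ?_
      · intro σ _
        rw [mem_coe, mem_powerset]
        exact filter_subset _ _
      · intro σ hσ ρ hρ heq
        rw [mem_coe] at hσ hρ
        funext f
        by_cases hf : f ∈ petals c
        · have h3 : f ∈ (petals c).filter (fun f => σ f = true) ↔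
              f ∈ (petals c).filter (fun f => ρ f = true) := by
            simp only at heq
            rw [heq]
          rw [mem_filter, mem_filter] at h3
          simp only [hf, true_and] at h3
          cases h4 : σ f <;> cases h5 : ρ f <;> simp_all
        · rw [hall σ hσ f hf, hall ρ hρ f hf]
    refine h2.trans ?_
    rw [card_powerset]
    calc 2 ^ (petals c).card ≤ 2 ^ 6 := Nat.pow_le_pow_right (by norm_num) (card_petals c)
      _ = 64 := by norm_num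
  · rw [not_nonempty_iff_eq_empty] at hne
    rw [hne]
    simp

/-- the functional -/
noncomputable def Zf (Cs : Finset (ℤ × ℤ)) (a : Edg) (r : ℕ) (θ ρ : ℝ) (σ : Spin) (i : ℕ) : ℝ :=
  θ ^ (Gd Cs a r σ i).card * ρ ^ (Hs Cs a σ i).card

theorem good_mass (h : Setup Cs D τ a) (hr : r < 6) {x n θ ρ : ℝ} (hx : 0 < x) (hn : 0 < n)
    (hθ : 0 < θ) (hρ : 0 < ρ) (i : ℕ) :
    en x n / 64 * ∑ σ ∈ NW Cs D τ a i, wt x n D σ * Zf Cs a r θ ρ σ i ≤
      ∑ σ ∈ NG Cs D τ a r i, wt x n D σ * Zf Cs a r θ ρ σ i := by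
  have hpos : ∀ σ, 0 ≤ wt x n D σ * Zf Cs a r θ ρ σ i := fun σ => by
    have := wt_pos hx hn D σ
    unfold Zf
    positivity
  have h1 : en x n * ∑ σ ∈ NW Cs D τ a i, wt x n D σ * Zf Cs a r θ ρ σ i ≤
      ∑ σ ∈ NW Cs D τ a i, wt x n D (mf Cs a r i σ) * Zf Cs a r θ ρ (mf Cs a r i σ) i := by
    rw [mul_sum]
    refine sum_le_sum fun σ hσ => ?_
    rw [NW, mem_filter] at hσ
    obtain ⟨_, c, hc⟩ := hσ
    rw [mf_eq h hc]
    obtain ⟨_, _, h3, h4⟩ := nw_md (r := r) (m := (ps σ a i).2 - 2) h hc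
    have hZ : Zf Cs a r θ ρ (md σ c ((ps σ a i).2 - 2) r) i = Zf Cs a r θ ρ σ i := by
      unfold Zf
      rw [h3, h4]
    rw [hZ, ← mul_assoc]
    refine mul_le_mul_of_nonneg_right ?_ (by unfold Zf; positivity)
    exact energy hx hn (card_fl c) fun f hf => (md_off_fl hf).symm
  have h2 : ∑ σ ∈ NW Cs D τ a i, wt x n D (mf Cs a r i σ) * Zf Cs a r θ ρ (mf Cs a r i σ) i ≤
      64 * ∑ σ ∈ NG Cs D τ a r i, wt x n D σ * Zf Cs a r θ ρ σ i := by
    rw [← sum_fiberwise_of_maps_to (fun σ hσ => mf_mem h hr hσ), mul_sum]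
    refine sum_le_sum fun σ' _ => ?_
    rw [sum_congr rfl (g := fun _ => wt x n D σ' * Zf Cs a r θ ρ σ' i) (fun σ hσ => by
      rw [(mem_filter.1 hσ).2]), sum_const, nsmul_eq_mul]
    refine mul_le_mul_of_nonneg_right ?_ (hpos σ')
    exact_mod_cast fiber_card h σ'
  have h3 := h1.trans h2
  rw [div_mul_eq_mul_div, div_le_iff₀ (by norm_num)]
  linarith

/-- the supermartingale property -/
theorem super (h : Setup Cs D τ a) (hr : r < 6) {x n θ ρ : ℝ} (hx : 0 < x) (hn : 0 < n)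
    (hθ : 0 < θ) (hθ1 : θ ≤ 1) (hρ : 0 < ρ) (hρ1 : ρ * (1 - (1 - θ) * (en x n / 64)) ≤ 1) (i : ℕ) :
    ∑ σ ∈ Cf D τ, wt x n D σ * Zf Cs a r θ ρ σ (i + 1) ≤
      ∑ σ ∈ Cf D τ, wt x n D σ * Zf Cs a r θ ρ σ i := by
  have hsplit : ∀ g : Spin → ℝ, ∑ σ ∈ Cf D τ, g σ = ∑ σ ∈ NW Cs D τ a i, g σ +
      ∑ σ ∈ (Cf D τ).filter (fun σ => ¬ ∃ c, Nw Cs a σ i c), g σ := fun g =>
    (sum_filter_add_sum_filter_not _ _ _).symm
  have hsub : NG Cs D τ a r i ⊆ NW Cs D τ a i := by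
    intro σ hσ
    rw [NG, mem_filter] at hσ
    rw [NW, mem_filter]
    exact ⟨hσ.1, hσ.2.imp fun c hc => hc.1⟩
  rw [hsplit, hsplit (fun σ => wt x n D σ * Zf Cs a r θ ρ σ i)]
  have e1 : ∑ σ ∈ (Cf D τ).filter (fun σ => ¬ ∃ c, Nw Cs a σ i c),
      wt x n D σ * Zf Cs a r θ ρ σ (i + 1) =
      ∑ σ ∈ (Cf D τ).filter (fun σ => ¬ ∃ c, Nw Cs a σ i c),
        wt x n D σ * Zf Cs a r θ ρ σ i := by
    refine sum_congr rfl fun σ hσ => ?_
    rw [mem_filter] at hσ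
    unfold Zf
    rw [Hs_succ_not hσ.2, Gd_succ_bad fun c hc => absurd ⟨c, hc⟩ hσ.2]
  rw [e1]
  refine add_le_add ?_ le_rfl
  have e2 : ∀ σ ∈ NW Cs D τ a i, wt x n D σ * Zf Cs a r θ ρ σ (i + 1) =
      ρ * (wt x n D σ * Zf Cs a r θ ρ σ i) - ρ * (1 - θ) *
        (if σ ∈ NG Cs D τ a r i then wt x n D σ * Zf Cs a r θ ρ σ i else 0) := by
    intro σ hσ
    have hσ' := hσ
    rw [NW, mem_filter] at hσ
    obtain ⟨h1, c, hc⟩ := hσ
    have hH : (Hs Cs a σ (i + 1)).card = (Hs Cs a σ i).card + 1 := by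
      rw [Hs_succ_of h.dis hc, card_insert_of_notMem hc.2.1]
    by_cases hg : σ ∈ NG Cs D τ a r i
    · rw [if_pos hg]
      rw [NG, mem_filter] at hg
      obtain ⟨_, c', hc', hP⟩ := hg
      have hG : (Gd Cs a r σ (i + 1)).card = (Gd Cs a r σ i).card + 1 := by
        rw [Gd_succ_good h.dis hc' hP, card_insert_of_notMem fun h2 => hc'.2.1 (Gd_subset h2)]
      unfold Zf
      rw [hH, hG]
      ring
    · rw [if_neg hg]
      have hG : Gd Cs a r σ (i + 1) = Gd Cs a r σ i := Gd_succ_bad fun c' hc' hP =>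
        hg (by
          rw [NG, mem_filter]
          exact ⟨h1, c', hc', hP⟩)
      unfold Zf
      rw [hH, hG]
      ring
  rw [sum_congr rfl e2, sum_sub_distrib, ← mul_sum, ← mul_sum, sum_ite_mem,
    inter_eq_right.2 hsub]
  have h3 := good_mass (τ := τ) h hr hx hn hθ hρ i
  set S := ∑ σ ∈ NW Cs D τ a i, wt x n D σ * Zf Cs a r θ ρ σ i
  set G := ∑ σ ∈ NG Cs D τ a r i, wt x n D σ * Zf Cs a r θ ρ σ i
  have hS : 0 ≤ S := sum_nonneg fun σ _ => by
    have := wt_pos hx hn D σ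
    unfold Zf
    positivity
  have h4 : ρ * (1 - θ) * (en x n / 64 * S) ≤ ρ * (1 - θ) * G :=
    mul_le_mul_of_nonneg_left h3 (mul_nonneg hρ.le (by linarith))
  have h5 : ρ * (1 - (1 - θ) * (en x n / 64)) * S ≤ 1 * S := mul_le_mul_of_nonneg_right hρ1 hS
  nlinarith

theorem Zf_zero (θ ρ : ℝ) (σ : Spin) : Zf Cs a r θ ρ σ 0 = 1 := by
  have h1 : Hs Cs a σ 0 = ∅ := by
    ext c
    rw [mem_Hs]
    simp
  have h2 : Gd Cs a r σ 0 = ∅ := by
    rw [← subset_empty, ← h1]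
    exact Gd_subset
  unfold Zf
  rw [h1, h2]
  simp

/-- the mean of the functional is at most `1` -/
theorem mean_Zf (h : Setup Cs D τ a) (hr : r < 6) {x n θ ρ : ℝ} (hx : 0 < x) (hn : 0 < n)
    (hθ : 0 < θ) (hθ1 : θ ≤ 1) (hρ : 0 < ρ) (hρ1 : ρ * (1 - (1 - θ) * (en x n / 64)) ≤ 1) (i : ℕ) :
    ∑ σ ∈ Cf D τ, wt x n D σ * Zf Cs a r θ ρ σ i ≤ ∑ σ ∈ Cf D τ, wt x n D σ := by
  induction i with
  | zero => simp [Zf_zero]
  | succ i ih => exact (super h hr hx hn hθ hθ1 hρ hρ1 i).trans ih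

/-- few good flowers are exponentially unlikely; `lam ^ K ≥ 2` -/
theorem few_good (h : Setup Cs D τ a) (hr : r < 6) {x n lam : ℝ} (hx : 0 < x) (hn : 0 < n)
    (hl : 1 ≤ lam) (hl2 : lam ^ 2 * (1 - 1 / 2 * (en x n / 64)) ≤ 1) (K : ℕ) (hK : 2 ≤ lam ^ K)
    (i N : ℕ) :
    ∑ σ ∈ (Cf D τ).filter (fun σ => K * (Gd Cs a r σ i).card ≤ (Hs Cs a σ i).card ∧
      N ≤ (Hs Cs a σ i).card), wt x n D σ ≤ (lam⁻¹) ^ N * ∑ σ ∈ Cf D τ, wt x n D σ := by
  have hl0 : 0 < lam := by linarith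
  have h1 := mean_Zf (r := r) (θ := 1 / 2) (ρ := lam ^ 2) h hr hx hn (by norm_num) (by norm_num)
    (by positivity) (by
      have : (1 : ℝ) - 1 / 2 = 1 / 2 := by norm_num
      rw [this]
      exact hl2) i
  have h2 : lam ^ N * ∑ σ ∈ (Cf D τ).filter (fun σ => K * (Gd Cs a r σ i).card ≤
      (Hs Cs a σ i).card ∧ N ≤ (Hs Cs a σ i).card), wt x n D σ ≤
      ∑ σ ∈ Cf D τ, wt x n D σ * Zf Cs a r (1 / 2) (lam ^ 2) σ i := by
    rw [mul_sum]
    refine (sum_le_sum (g := fun σ => wt x n D σ * Zf Cs a r (1 / 2) (lam ^ 2) σ i)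
      fun σ hσ => ?_).trans (sum_le_sum_of_subset_of_nonneg (filter_subset _ _)
        fun σ _ _ => ?_)
    · rw [mem_filter] at hσ
      obtain ⟨_, h3, h4⟩ := hσ
      rw [mul_comm]
      refine mul_le_mul_of_nonneg_left ?_ (wt_pos hx hn D σ).le
      unfold Zf
      set g := (Gd Cs a r σ i).card
      set H := (Hs Cs a σ i).card
      have h5 : (2 : ℝ) ^ g ≤ lam ^ H := by
        calc (2 : ℝ) ^ g ≤ (lam ^ K) ^ g := pow_le_pow_left₀ (by norm_num) hK g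
          _ = lam ^ (K * g) := (pow_mul _ _ _).symm
          _ ≤ lam ^ H := pow_le_pow_right₀ hl h3
      have h6 : lam ^ N ≤ lam ^ H := pow_le_pow_right₀ hl h4
      have h7 : (lam ^ 2) ^ H = lam ^ H * lam ^ H := by
        rw [← pow_mul, ← pow_add]
        congr 1
        ring
      rw [h7, one_div, inv_pow]
      have h8 : (0 : ℝ) < 2 ^ g := by positivity
      rw [← mul_assoc]
      have h9 : 1 ≤ ((2 : ℝ) ^ g)⁻¹ * lam ^ H := by
        rw [inv_mul_eq_div, one_le_div h8]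
        exact h5
      calc lam ^ N ≤ lam ^ H := h6
        _ = 1 * lam ^ H := (one_mul _).symm
        _ ≤ _ := mul_le_mul_of_nonneg_right h9 (by positivity)
    · have := wt_pos hx hn D σ
      unfold Zf
      positivity
  have h3 := h2.trans h1
  rw [inv_pow, inv_mul_eq_div, le_div_iff₀ (by positivity), mul_comm]
  exact h3

/-- the exponential moment on the event of few good flowers -/
theorem few_good' (h : Setup Cs D τ a) (hr : r < 6) {x n lam : ℝ} (hx : 0 < x) (hn : 0 < n)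
    (hl : 1 ≤ lam) (hl2 : lam ^ 2 * (1 - 1 / 2 * (en x n / 64)) ≤ 1) (K : ℕ) (hK : 2 ≤ lam ^ K)
    (i : ℕ) :
    ∑ σ ∈ (Cf D τ).filter (fun σ => K * (Gd Cs a r σ i).card ≤ (Hs Cs a σ i).card),
      wt x n D σ * lam ^ (Hs Cs a σ i).card ≤ ∑ σ ∈ Cf D τ, wt x n D σ := by
  have hl0 : 0 < lam := by linarith
  have h1 := mean_Zf (r := r) (θ := 1 / 2) (ρ := lam ^ 2) h hr hx hn (by norm_num) (by norm_num)
    (by positivity) (by
      have : (1 : ℝ) - 1 / 2 = 1 / 2 := by norm_num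
      rw [this]
      exact hl2) i
  refine le_trans ?_ h1
  refine (sum_le_sum (g := fun σ => wt x n D σ * Zf Cs a r (1 / 2) (lam ^ 2) σ i)
      fun σ hσ => ?_).trans (sum_le_sum_of_subset_of_nonneg (filter_subset _ _)
        fun σ _ _ => ?_)
  · rw [mem_filter] at hσ
    obtain ⟨_, h3⟩ := hσ
    refine mul_le_mul_of_nonneg_left ?_ (wt_pos hx hn D σ).le
    unfold Zf
    set g := (Gd Cs a r σ i).card
    set H := (Hs Cs a σ i).card
    have h5 : (2 : ℝ) ^ g ≤ lam ^ H := by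
      calc (2 : ℝ) ^ g ≤ (lam ^ K) ^ g := pow_le_pow_left₀ (by norm_num) hK g
        _ = lam ^ (K * g) := (pow_mul _ _ _).symm
        _ ≤ lam ^ H := pow_le_pow_right₀ hl h3
    have h7 : (lam ^ 2) ^ H = lam ^ H * lam ^ H := by
      rw [← pow_mul, ← pow_add]
      congr 1
      ring
    rw [h7, one_div, inv_pow]
    have h8 : (0 : ℝ) < 2 ^ g := by positivity
    rw [← mul_assoc]
    have h9 : 1 ≤ ((2 : ℝ) ^ g)⁻¹ * lam ^ H := by
      rw [inv_mul_eq_div, one_le_div h8]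
      exact h5
    calc lam ^ H = 1 * lam ^ H := (one_mul _).symm
      _ ≤ _ := mul_le_mul_of_nonneg_right h9 (by positivity)
  · have := wt_pos hx hn D σ
    unfold Zf
    positivity

end

end Pool.Agent.V7H98.ON
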