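import Mathlib
import Pool.Agent.V7H98.ON.Str
import Pool.Agent.V7H98.ON.Super

/-!
# The path between the two boundary walls
-/

set_option autoImplicit false

namespace Pool.Agent.V7H98.ON

open Equiv.Perm Finset
open scoped Classical

/-- `a` is the only wall that enters `D` and `b` is the only wall that leaves `D` -/
structure Dob (D : Finset (ℤ × ℤ)) (τ : Spin) (a b : Edg) : Prop where
  wa : Wl τ a
  la : a.1 ∉ D
  ra : rt a ∉ D
  fa : fr a ∈ D
  wb : Wl τ b
  lb : b.1 ∉ D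
  rb : rt b ∉ D
  bb : bk b ∈ D
  ent : ∀ e, Wl τ e → e.1 ∉ D → rt e ∉ D → fr e ∈ D → e = a
  ext : ∀ e, Wl τ e → e.1 ∉ D → rt e ∉ D → bk e ∈ D → e = b

section

variable {D : Finset (ℤ × ℤ)} {τ σ : Spin} {a b : Edg}

theorem wl_out (hσ : σ ∈ Cf D τ) {e : Edg} (he : e ∉ ED D) : Wl σ e ↔ Wl τ e := by
  rw [mem_ED, not_or] at he
  rw [mem_Cf] at hσ
  unfold Wl
  rw [hσ _ he.1, hσ _ he.2]

theorem Dob.a_out (h : Dob D τ a b) : a ∉ ED D := by
  rw [mem_ED, not_or]
  exact ⟨h.la, h.ra⟩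

theorem Dob.b_out (h : Dob D τ a b) : b ∉ ED D := by
  rw [mem_ED, not_or]
  exact ⟨h.lb, h.rb⟩

theorem Dob.wlσ (h : Dob D τ a b) (hσ : σ ∈ Cf D τ) : Wl σ a := (wl_out hσ h.a_out).2 h.wa

/-- leaving `D` -/
theorem Dob.exit (h : Dob D τ a b) (hσ : σ ∈ Cf D τ) {e : Edg} (hw : Wl σ e) (he : e ∈ ED D)
    (he' : stp σ e ∉ ED D) : stp σ e = b := by
  have hw' := (wl_out hσ he').1 (wl_stp hw)
  have h1 := he'
  rw [mem_ED, not_or] at h1
  refine h.ext _ hw' h1.1 h1.2 ?_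
  rw [mem_ED] at he
  rcases Bool.eq_false_or_eq_true (σ (fr e)) with hf | hf
  · rw [stp_of hw hf] at h1 ⊢
    rw [bk_turn]
    rw [rt_turn] at h1
    exact he.resolve_right h1.2
  · rw [stp_of' hw hf] at h1 ⊢
    rw [bk_left]
    exact he.resolve_left h1.1

/-- entering `D` -/
theorem Dob.enter (h : Dob D τ a b) (hσ : σ ∈ Cf D τ) {e : Edg} (hw : Wl σ e) (he : e ∉ ED D)
    (he' : stp σ e ∈ ED D) : e = a := by
  have hw' := (wl_out hσ he).1 hw
  have h1 := he
  rw [mem_ED, not_or] at h1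
  refine h.ent _ hw' h1.1 h1.2 ?_
  rw [mem_ED] at he'
  obtain ⟨h2, h3⟩ := stp_faces σ e
  rcases he' with h4 | h4
  · rcases h2 with h2 | h2
    · rw [h2] at h4; exact absurd h4 h1.1
    · rw [h2] at h4; exact h4
  · rcases h3 with h3 | h3
    · rw [h3] at h4; exact absurd h4 h1.2
    · rw [h3] at h4; exact h4

theorem Dob.first (h : Dob D τ a b) (hσ : σ ∈ Cf D τ) : stp σ a ∈ ED D := by
  have hw := h.wlσ hσ
  rw [mem_ED]
  rcases Bool.eq_false_or_eq_true (σ (fr a)) with hf | hf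
  · rw [stp_of hw hf]
    exact Or.inl h.fa
  · rw [stp_of' hw hf]
    exact Or.inr h.fa

theorem wl_ps (hw : Wl σ a) (i : ℕ) : Wl σ (ps σ a i) := (wl_pow_iff i).2 hw

theorem ps_sub {i j : ℕ} (hij : i ≤ j) (h : ps σ a i = ps σ a j) : ps σ a (j - i) = a := by
  obtain ⟨k, rfl⟩ := Nat.exists_eq_add_of_le hij
  rw [Nat.add_sub_cancel_left]
  unfold ps at h ⊢
  rw [pow_add, Equiv.Perm.mul_apply] at h
  exact ((T σ ^ i).injective h).symm

/-- the path from `a` to `b` -/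
theorem Dob.path (h : Dob D τ a b) (hσ : σ ∈ Cf D τ) :
    ∃ i0 : ℕ, 1 ≤ i0 ∧ ps σ a i0 = b ∧ ∀ l, 1 ≤ l → l < i0 → ps σ a l ∈ ED D := by
  have hw := h.wlσ hσ
  have hex : ∃ i, 1 ≤ i ∧ ps σ a i ∉ ED D := by
    by_contra hcon
    push Not at hcon
    obtain ⟨i, hi, j, hj, hne, hij⟩ := (Set.Ici_infinite 1).exists_ne_map_eq_of_mapsTo
      (f := fun i => ps σ a i) (t := (ED D : Set Edg)) (fun i hi => hcon i hi)
      (ED D).finite_toSet
    rw [Set.mem_Ici] at hi hj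
    rcases Nat.lt_or_gt_of_ne hne with hlt | hlt
    · have h1 := ps_sub hlt.le hij
      have h2 := hcon (j - i) (by omega)
      rw [h1] at h2
      exact h.a_out h2
    · have h1 := ps_sub hlt.le hij.symm
      have h2 := hcon (i - j) (by omega)
      rw [h1] at h2
      exact h.a_out h2
  obtain ⟨h1, h2⟩ := Nat.find_spec hex
  have hmin : ∀ l, 1 ≤ l → l < Nat.find hex → ps σ a l ∈ ED D := by
    intro l hl1 hl2
    have := Nat.find_min hex hl2
    by_contra hcon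
    exact this ⟨hl1, hcon⟩
  refine ⟨Nat.find hex, h1, ?_, hmin⟩
  generalize Nat.find hex = i0 at h1 h2 hmin
  obtain ⟨k, rfl⟩ : ∃ k, i0 = k + 1 := ⟨i0 - 1, by omega⟩
  have hk : 1 ≤ k := by
    by_contra hk
    have : k = 0 := by omega
    subst this
    apply h2
    rw [ps_succ, ps_zero]
    exact h.first hσ
  rw [ps_succ] at h2 ⊢
  exact h.exit hσ (wl_ps hw k) (hmin k hk (by omega)) h2

/-- the strand in `D` is the path from `a` to `b` -/
theorem Dob.strand (h : Dob D τ a b) (hσ : σ ∈ Cf D τ) {e : Edg} (he : e ∈ St D σ a) :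
    ∃ j : ℕ, ps σ a j = e := by
  have hw := h.wlσ hσ
  rw [St, mem_filter] at he
  obtain ⟨heD, k, hk⟩ := he
  rcases Int.eq_nat_or_neg k with ⟨j, rfl | rfl⟩
  · exact ⟨j, by rw [zpow_natCast] at hk; exact hk⟩
  · have hj : ps σ e j = a := by
      unfold ps
      rw [← hk, ← zpow_natCast, ← Equiv.Perm.mul_apply, ← zpow_add]
      simp
    have hwe : Wl σ e := by
      rw [← hk]
      exact (wl_zpow_iff _).2 hw
    have hex : ∃ l, ps σ e l ∉ ED D := ⟨j, by rw [hj]; exact h.a_out⟩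
    have h2 := Nat.find_spec hex
    have hmin : ∀ l, l < Nat.find hex → ps σ e l ∈ ED D := fun l hl => by
      by_contra hcon
      exact Nat.find_min hex hl hcon
    have hle : Nat.find hex ≤ j := Nat.find_min' hex (by rw [hj]; exact h.a_out)
    generalize Nat.find hex = l at h2 hmin hle
    obtain ⟨m, rfl⟩ : ∃ m, l = m + 1 := by
      rcases l with _ | m
      · exact absurd heD h2
      · exact ⟨m, rfl⟩
    rw [ps_succ] at h2
    have h3 := h.exit hσ (wl_ps hwe m) (hmin m (by omega)) h2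
    obtain ⟨i0, h4, h5, h6⟩ := h.path hσ
    have h7 : (T σ ^ (m + 1)) e = (T σ ^ i0) a := by
      have : ps σ e (m + 1) = ps σ a i0 := by rw [ps_succ, h3, h5]
      exact this
    rcases Nat.le_total (m + 1) i0 with h8 | h8
    · refine ⟨i0 - (m + 1), ?_⟩
      obtain ⟨r, rfl⟩ := Nat.exists_eq_add_of_le h8
      rw [Nat.add_sub_cancel_left]
      have h11 : (T σ ^ (m + 1)) e = (T σ ^ (m + 1)) ((T σ ^ r) a) := by
        rw [h7, pow_add (T σ) (m + 1) r, Equiv.Perm.mul_apply]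
      exact ((T σ ^ (m + 1)).injective h11).symm
    · obtain ⟨r, hr⟩ := Nat.exists_eq_add_of_le h8
      rw [hr, pow_add, Equiv.Perm.mul_apply] at h7
      have h9 : (T σ ^ r) e = a := (T σ ^ i0).injective h7
      have h10 := hmin r (by omega)
      exact absurd (show a ∈ ED D by rw [← h9]; exact h10) h.a_out

/-- one step moves at most by one -/
theorem step_dist (σ : Spin) (e : Edg) : |(stp σ e).1.1 - e.1.1| ≤ 1 ∧
    |(stp σ e).1.2 - e.1.2| ≤ 1 := by
  have hd : ∀ k : ZMod 6, |(d k).1| ≤ 1 ∧ |(d k).2| ≤ 1 := by decide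
  rcases (stp_faces σ e).1 with h | h
  · rw [h]
    simp
  · rw [h, fr]
    simpa using hd (e.2 + 1)

theorem ps_dist (σ : Spin) (a : Edg) (i : ℕ) : |(ps σ a i).1.1 - a.1.1| ≤ i ∧
    |(ps σ a i).1.2 - a.1.2| ≤ i := by
  induction i with
  | zero => simp [ps_zero]
  | succ i ih =>
    obtain ⟨h1, h2⟩ := step_dist σ (ps σ a i)
    rw [ps_succ]
    push_cast
    refine ⟨?_, ?_⟩
    · calc |(stp σ (ps σ a i)).1.1 - a.1.1| ≤ |(stp σ (ps σ a i)).1.1 - (ps σ a i).1.1| +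
          |(ps σ a i).1.1 - a.1.1| := abs_sub_le _ _ _
        _ ≤ _ := by linarith [ih.1]
    · calc |(stp σ (ps σ a i)).1.2 - a.1.2| ≤ |(stp σ (ps σ a i)).1.2 - (ps σ a i).1.2| +
          |(ps σ a i).1.2 - a.1.2| := abs_sub_le _ _ _
        _ ≤ _ := by linarith [ih.2]

/-- the distance of the hexagons of `a` and `b` -/
def dst (a b : Edg) : ℤ := max |b.1.1 - a.1.1| |b.1.2 - a.1.2|

theorem Dob.len_ge (h : Dob D τ a b) (hσ : σ ∈ Cf D τ) : dst a b ≤ len D σ a + 1 := by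
  obtain ⟨i0, h1, h2, h3⟩ := h.path hσ
  have h4 := ps_dist σ a i0
  rw [h2] at h4
  have h5 : dst a b ≤ i0 := max_le h4.1 h4.2
  have h6 : i0 - 1 ≤ len D σ a := by
    have h7 : (Finset.Ico 1 i0).card ≤ (St D σ a).card := by
      refine card_le_card_of_injOn (fun i => ps σ a i) ?_ ?_
      · intro i hi
        rw [mem_coe, mem_Ico] at hi
        rw [mem_coe, St, mem_filter]
        exact ⟨h3 i hi.1 hi.2, ⟨i, by rw [zpow_natCast]; rfl⟩⟩
      · intro i hi j hj hij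
        rw [mem_coe, mem_Ico] at hi hj
        simp only at hij
        by_contra hne
        rcases Nat.lt_or_gt_of_ne hne with hlt | hlt
        · have h8 := ps_sub hlt.le hij
          have h9 := h3 (j - i) (by omega) (by omega)
          rw [h8] at h9
          exact h.a_out h9
        · have h8 := ps_sub hlt.le hij.symm
          have h9 := h3 (i - j) (by omega) (by omega)
          rw [h8] at h9
          exact h.a_out h9
    rw [Nat.card_Ico] at h7
    exact h7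
  omega

theorem card_ED (P : Finset (ℤ × ℤ)) : (ED P).card ≤ 12 * P.card := by
  have h1 : (P ×ˢ (Finset.univ : Finset (ZMod 6))).card = P.card * 6 := by
    rw [card_product]
    rfl
  refine (card_union_le _ _).trans ?_
  have h3 := card_image_le (s := P ×ˢ (Finset.univ : Finset (ZMod 6)))
    (f := fun x => (x.1 - d x.2, x.2))
  omega

/-- the flowers which are seen cover the path -/
theorem Dob.len_le (h : Dob D τ a b) {Cs : Finset (ℤ × ℤ)} (hcov : ∀ f ∈ D, ∃ c ∈ Cs, f ∈ fl c) :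
    ∃ i : ℕ, ∀ σ ∈ Cf D τ, len D σ a ≤ 84 * (Hs Cs a σ i).card := by
  have hex : ∀ x : Spin × Edg, ∃ j : ℕ, x.1 ∈ Cf D τ → x.2 ∈ St D x.1 a → ps x.1 a j = x.2 := by
    intro x
    by_cases h1 : x.1 ∈ Cf D τ ∧ x.2 ∈ St D x.1 a
    · obtain ⟨j, hj⟩ := h.strand h1.1 h1.2
      exact ⟨j, fun _ _ => hj⟩
    · exact ⟨0, fun h2 h3 => absurd ⟨h2, h3⟩ h1⟩
  choose J hJ using hex
  refine ⟨(Cf D τ ×ˢ ED D).sup J, fun σ hσ => ?_⟩
  set i := (Cf D τ ×ˢ ED D).sup J with hi
  have hss : St D σ a ⊆ (Hs Cs a σ i).biUnion fun c => ED (fl c) := by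
    intro e he
    have heD : e ∈ ED D := (mem_filter.1 he).1
    have h1 := hJ (σ, e) hσ he
    have h2 : J (σ, e) ≤ i := Finset.le_sup (f := J) (mem_product.2 ⟨hσ, heD⟩)
    simp only at h1
    obtain ⟨h3, h4⟩ := ps_faces σ a (J (σ, e))
    rw [h1] at h3 h4
    rw [mem_biUnion]
    rcases mem_ED.1 heD with h5 | h5
    · obtain ⟨c, hc, hf⟩ := hcov _ h5
      refine ⟨c, ?_, mem_ED.2 (Or.inl hf)⟩
      rcases h3 with h3 | h3 | ⟨j, hj, h3⟩
      · rw [h3] at h5; exact absurd h5 h.la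
      · rw [h3] at h5; exact absurd h5 h.ra
      · rw [h3] at hf
        exact mem_Hs.2 ⟨hc, j, by omega, hf⟩
    · obtain ⟨c, hc, hf⟩ := hcov _ h5
      refine ⟨c, ?_, mem_ED.2 (Or.inr hf)⟩
      rcases h4 with h4 | h4 | ⟨j, hj, h4⟩
      · rw [h4] at h5; exact absurd h5 h.la
      · rw [h4] at h5; exact absurd h5 h.ra
      · rw [h4] at hf
        exact mem_Hs.2 ⟨hc, j, by omega, hf⟩
  refine (card_le_card hss).trans (card_biUnion_le.trans ?_)
  calc ∑ c ∈ Hs Cs a σ i, (ED (fl c)).card ≤ ∑ _c ∈ Hs Cs a σ i, 84 := by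
        refine sum_le_sum fun c _ => ?_
        have h1 := card_ED (fl c)
        have h2 := card_fl c
        omega
    _ = _ := by
        rw [sum_const, smul_eq_mul, mul_comm]

end

end Pool.Agent.V7H98.ON
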