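import Mathlib
import Pool.Agent.V7H98.ON.Bin
import Pool.Agent.V7H98.ON.Geo

/-!
# The system of switches
-/

set_option autoImplicit false

namespace Pool.Agent.V7H98.ON

open Equiv.Perm Finset
open scoped Classical

/-- the strand of `a` passes `c` with the pattern `r` -/
def SwP (σ : Spin) (a : Edg) (c : ℤ × ℤ) (r : ℕ) : Prop :=
  ∃ m, Pat σ c m r ∧ (T σ).SameCycle a (sin c m)

/-- the change of the spin of `q` -/
def fp (σ : Spin) (q : ℤ × ℤ) : Spin := Function.update σ q (!σ q)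

theorem fp_ne {σ : Spin} {q f : ℤ × ℤ} (h : f ≠ q) : fp σ q f = σ f := Function.update_of_ne h _ _

theorem fp_self (σ : Spin) (q : ℤ × ℤ) : fp σ q q = !σ q := Function.update_self _ _ _

theorem fp_fp (σ : Spin) (q : ℤ × ℤ) : fp (fp σ q) q = σ := by
  funext f
  by_cases h : f = q
  · subst h
    rw [fp_self, fp_self, Bool.not_not]
  · rw [fp_ne h, fp_ne h]

theorem pat_count {σ : Spin} {c : ℤ × ℤ} {m : ZMod 6} {r : ℕ} (H : Pat σ c m r) (hr : r < 6) :
    ((Finset.univ : Finset (ZMod 6)).filter fun k => σ (c + d k) = false).card = r := by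
  have h1 : (Finset.univ : Finset (ZMod 6)).filter (fun k => σ (c + d k) = false) =
      (range r).image fun j : ℕ => m + ((j + 1 : ℕ) : ZMod 6) := by
    ext k
    rw [mem_filter, mem_image]
    constructor
    · rintro ⟨_, hk⟩
      obtain ⟨j, h1, h2, h3⟩ := exists_cast m k
      rw [h3, H j h1 h2] at hk
      have h5 : ¬ r < j := by simpa using hk
      refine ⟨j - 1, mem_range.2 (by omega), ?_⟩
      rw [show j - 1 + 1 = j by omega, h3]
    · rintro ⟨j, hj, rfl⟩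
      rw [mem_range] at hj
      exact ⟨mem_univ _, H.minus (by omega) (by omega) hr⟩
  rw [h1, card_image_of_injOn, card_range]
  intro a ha b hb hab
  simp only [coe_range, Set.mem_Iio] at ha hb
  have h2 := cast_inj (a := a + 1) (b := b + 1) (by omega) (by omega) (add_left_cancel hab)
  omega

section

variable {Cs D V : Finset (ℤ × ℤ)} {τ : Spin} {a : Edg}

/-- the switches -/
noncomputable def Sl (Cs V : Finset (ℤ × ℤ)) (a : Edg) (σ : Spin) : Finset (ℤ × ℤ) :=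
  Cs.filter fun c => c ∉ V ∧ (SwP σ a c 2 ∨ SwP σ a c 4)

/-- the type of a switch -/
noncomputable def ty (Cs : Finset (ℤ × ℤ)) (σ : Spin) (c : ℤ × ℤ) : Fin 2 :=
  if c ∈ Cs ∧ ∃ m, Pat σ c m 4 then 0 else 1

/-- the switches which are on -/
noncomputable def On (Cs V : Finset (ℤ × ℤ)) (a : Edg) (σ : Spin) : Finset (ℤ × ℤ) :=
  (Sl Cs V a σ).filter fun c => (ty Cs σ c = 0 ∧ σ c = true) ∨ (ty Cs σ c = 1 ∧ σ c = false)

/-- the length and the area -/
noncomputable def LA (D : Finset (ℤ × ℤ)) (a : Edg) (σ : Spin) : ℤ × ℤ :=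
  ((len D σ a : ℤ), ar D σ a)

theorem ty_zero {σ : Spin} {c : ℤ × ℤ} (hc : c ∈ Cs) {m : ZMod 6} (H : Pat σ c m 4) :
    ty Cs σ c = 0 := if_pos ⟨hc, m, H⟩

theorem ty_one {σ : Spin} {c : ℤ × ℤ} {m : ZMod 6} (H : Pat σ c m 2) : ty Cs σ c = 1 := by
  refine if_neg ?_
  rintro ⟨_, m', H'⟩
  have h1 := pat_count H (by norm_num)
  have h2 := pat_count H' (by norm_num)
  omega

theorem petal_ne (h : Setup Cs D τ a) {c q : ℤ × ℤ} (hc : c ∈ Cs) (hq : q ∈ Cs) (k : ZMod 6) :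
    c + d k ≠ q := by
  by_cases hcq : c = q
  · subst hcq
    exact add_d_ne c k
  · intro he
    have h1 : c + d k ∈ fl c := mem_fl.2 (Or.inr ⟨k, rfl⟩)
    have h2 : c + d k ∈ fl q := mem_fl.2 (Or.inl he)
    exact disjoint_left.1 (h.dis c hc q hq hcq) h1 h2

theorem pat_fp (h : Setup Cs D τ a) {σ : Spin} {c q : ℤ × ℤ} (hc : c ∈ Cs) (hq : q ∈ Cs)
    (m : ZMod 6) (r : ℕ) : Pat (fp σ q) c m r ↔ Pat σ c m r := by
  unfold Pat
  refine forall_congr' fun j => ?_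
  rw [fp_ne (petal_ne h hc hq _)]

theorem sin_X (h : Setup Cs D τ a) {c q : ℤ × ℤ} (hc : c ∈ Cs) (hq : q ∈ Cs) (m : ZMod 6) :
    sin c m ∈ X q := by
  refine ⟨petal_ne h hc hq _, ?_⟩
  rw [rt_sin]
  exact petal_ne h hc hq _

theorem a_X (h : Setup Cs D τ a) {q : ℤ × ℤ} (hq : q ∈ Cs) : a ∈ X q := by
  have h1 : q ∈ D := h.sub q hq (mem_fl.2 (Or.inl rfl))
  refine ⟨?_, ?_⟩
  · rintro rfl
    exact h.left h1
  · rintro rfl
    exact h.right h1

theorem swp_fp (h : Setup Cs D τ a) {σ : Spin} {c q : ℤ × ℤ} (hc : c ∈ Cs) (hq : q ∈ Cs)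
    {m' : ZMod 6} {r' : ℕ} (H : Pat σ q m' r') (h1 : 1 ≤ r') (hr : r' < 6) (r : ℕ) :
    SwP (fp σ q) a c r ↔ SwP σ a c r := by
  unfold SwP
  refine exists_congr fun m => ?_
  rw [pat_fp h hc hq, ← H.same_iff h1 hr (fun f hf => (fp_ne hf).symm) (a_X h hq) (sin_X h hc hq m)]

theorem Sl_pat {σ : Spin} {q : ℤ × ℤ} (hq : q ∈ Sl Cs V a σ) :
    q ∈ Cs ∧ q ∉ V ∧ ∃ m r, (r = 2 ∨ r = 4) ∧ Pat σ q m r ∧ (T σ).SameCycle a (sin q m) := by
  rw [Sl, mem_filter] at hq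
  obtain ⟨h1, h2, h3 | h3⟩ := hq
  · obtain ⟨m, h4, h5⟩ := h3
    exact ⟨h1, h2, m, 2, Or.inl rfl, h4, h5⟩
  · obtain ⟨m, h4, h5⟩ := h3
    exact ⟨h1, h2, m, 4, Or.inr rfl, h4, h5⟩

theorem Sl_fp (h : Setup Cs D τ a) {σ : Spin} {q : ℤ × ℤ} (hq : q ∈ Sl Cs V a σ) :
    Sl Cs V a (fp σ q) = Sl Cs V a σ := by
  obtain ⟨h1, _, m, r, h3, h4, _⟩ := Sl_pat hq
  unfold Sl
  refine filter_congr fun c hc => ?_
  rw [swp_fp h hc h1 h4 (by omega) (by omega), swp_fp h hc h1 h4 (by omega) (by omega)]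

theorem ty_fp (h : Setup Cs D τ a) {σ : Spin} {q : ℤ × ℤ} (hq : q ∈ Cs) :
    ty Cs (fp σ q) = ty Cs σ := by
  funext c
  unfold ty
  by_cases hc : c ∈ Cs
  · have : (∃ m, Pat (fp σ q) c m 4) ↔ ∃ m, Pat σ c m 4 :=
      exists_congr fun m => pat_fp h hc hq m 4
    simp only [hc, true_and, this]
  · simp only [hc, false_and]

theorem mem_On {σ : Spin} {c : ℤ × ℤ} : c ∈ On Cs V a σ ↔ c ∈ Sl Cs V a σ ∧
    ((ty Cs σ c = 0 ∧ σ c = true) ∨ (ty Cs σ c = 1 ∧ σ c = false)) := by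
  rw [On, mem_filter]

theorem fin2 (t : Fin 2) : t = 0 ∨ t = 1 := by
  fin_cases t
  · exact Or.inl rfl
  · exact Or.inr rfl

theorem On_self (h : Setup Cs D τ a) {σ : Spin} {q : ℤ × ℤ} (hq : q ∈ Sl Cs V a σ) :
    q ∈ On Cs V a (fp σ q) ↔ q ∉ On Cs V a σ := by
  have h1 := (Sl_pat hq).1
  rw [mem_On, mem_On, Sl_fp h hq, ty_fp h h1, fp_self]
  have h01 : ¬ ((0 : Fin 2) = 1) := by decide
  have h10 : ¬ ((1 : Fin 2) = 0) := by decide
  rcases fin2 (ty Cs σ q) with h2 | h2 <;> cases h3 : σ q <;> simp [hq, h2]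

theorem On_ne (h : Setup Cs D τ a) {σ : Spin} {q c : ℤ × ℤ} (hq : q ∈ Sl Cs V a σ)
    (hc : c ≠ q) : c ∈ On Cs V a (fp σ q) ↔ c ∈ On Cs V a σ := by
  have h1 := (Sl_pat hq).1
  rw [mem_On, mem_On, Sl_fp h hq, ty_fp h h1, fp_ne hc]

theorem On_erase (h : Setup Cs D τ a) {σ : Spin} {q : ℤ × ℤ} (hq : q ∈ Sl Cs V a σ)
    (hon : q ∈ On Cs V a σ) : On Cs V a (fp σ q) = (On Cs V a σ).erase q := by
  ext c
  rw [mem_erase]
  by_cases hc : c = q
  · subst hc
    rw [On_self h hq]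
    simp [hon]
  · rw [On_ne h hq hc]
    simp [hc]

theorem On_insert (h : Setup Cs D τ a) {σ : Spin} {q : ℤ × ℤ} (hq : q ∈ Sl Cs V a σ)
    (hon : q ∉ On Cs V a σ) : On Cs V a (fp σ q) = insert q (On Cs V a σ) := by
  ext c
  rw [mem_insert]
  by_cases hc : c = q
  · subst hc
    rw [On_self h hq]
    simp [hon]
  · rw [On_ne h hq hc]
    simp [hc]

theorem fp_mem (h : Setup Cs D τ a) {σ : Spin} (hσ : σ ∈ Cf D τ) {q : ℤ × ℤ} (hq : q ∈ Cs) :
    fp σ q ∈ Cf D τ := by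
  rw [mem_Cf] at hσ ⊢
  intro f hf
  have h1 : q ∈ D := h.sub q hq (mem_fl.2 (Or.inl rfl))
  rw [fp_ne (by rintro rfl; exact hf h1)]
  exact hσ f hf

/-- the effect of switching on -/
theorem switch_on (h : Setup Cs D τ a) {σ : Spin} (hσ : σ ∈ Cf D τ) {q : ℤ × ℤ}
    (hq : q ∈ Sl Cs V a σ) (hoff : q ∉ On Cs V a σ) (x n : ℝ) :
    wt x n D (fp σ q) = wt x n D σ * x ^ 2 ∧ LA D a (fp σ q) = LA D a σ + v2 (ty Cs σ q) := by
  obtain ⟨h1, _, m, r, hr, H, hs⟩ := Sl_pat hq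
  have hqD : q ∈ D := h.sub q h1 (mem_fl.2 (Or.inl rfl))
  have hag : ∀ f, f ≠ q → σ f = fp σ q f := fun f hf => (fp_ne hf).symm
  have hw := h.wlσ hσ
  have haX := a_X h h1
  have hl := loops_eq (D := D) H (by omega) (by omega) hqD hag
  rcases hr with rfl | rfl
  · have ht := ty_one (Cs := Cs) H
    have hσq : σ q = true := by
      by_contra hc
      apply hoff
      rw [mem_On]
      exact ⟨hq, Or.inr ⟨ht, by simpa using hc⟩⟩
    have hσq' : fp σ q q = false := by rw [fp_self, hσq]; rfl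
    have h2 := walls_flip (D := D) H (by omega) (by omega) hqD hag hσq hσq'
    have h3 := len_flip (D := D) H (by omega) (by omega) hqD hag haX hw hs hσq hσq'
    have h4 := ar_flip (D := D) H (Or.inl rfl) hqD hag haX hw hs hσq hσq'
    refine ⟨?_, ?_⟩
    · unfold wt
      rw [← hl, show walls D (fp σ q) = walls D σ + 2 by omega, pow_add]
      ring
    · rw [ht]
      refine Prod.ext ?_ ?_
      · show (len D (fp σ q) a : ℤ) = (len D σ a : ℤ) + 2
        omega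
      · show ar D (fp σ q) a = ar D σ a + -2
        omega
  · have ht := ty_zero h1 H
    have hσq : σ q = false := by
      by_contra hc
      apply hoff
      rw [mem_On]
      exact ⟨hq, Or.inl ⟨ht, by simpa using hc⟩⟩
    have hσq' : fp σ q q = true := by rw [fp_self, hσq]; rfl
    have H' := H.congr hag
    have hag' : ∀ f, f ≠ q → fp σ q f = σ f := fun f hf => fp_ne hf
    have hw' : Wl (fp σ q) a := (wl_congr hag haX).1 hw
    have hs' := (H.same_iff (by omega) (by omega) hag haX (sin_mem q m)).1 hs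
    have h2 := walls_flip (D := D) H' (by omega) (by omega) hqD hag' hσq' hσq
    have h3 := len_flip (D := D) H' (by omega) (by omega) hqD hag' haX hw' hs' hσq' hσq
    have h4 := ar_flip (D := D) H' (Or.inr rfl) hqD hag' haX hw' hs' hσq' hσq
    refine ⟨?_, ?_⟩
    · unfold wt
      rw [← hl, show walls D (fp σ q) = walls D σ + 2 by omega, pow_add]
      ring
    · rw [ht]
      refine Prod.ext ?_ ?_
      · show (len D (fp σ q) a : ℤ) = (len D σ a : ℤ) + 2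
        omega
      · show ar D (fp σ q) a = ar D σ a + 2
        omega

/-- length and area with the switches off -/
noncomputable def uu (Cs D V : Finset (ℤ × ℤ)) (a : Edg) (σ : Spin) : ℤ × ℤ :=
  LA D a σ - ∑ q ∈ On Cs V a σ, v2 (ty Cs σ q)

/-- the weight with the switches off -/
noncomputable def gg (x n : ℝ) (Cs D V : Finset (ℤ × ℤ)) (a : Edg) (σ : Spin) : ℝ :=
  wt x n D σ / (x ^ 2) ^ (On Cs V a σ).card

theorem inv_off (h : Setup Cs D τ a) {σ : Spin} (hσ : σ ∈ Cf D τ) {q : ℤ × ℤ}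
    (hq : q ∈ Sl Cs V a σ) (hoff : q ∉ On Cs V a σ) {x : ℝ} (hx : 0 < x) (n : ℝ) :
    gg x n Cs D V a (fp σ q) = gg x n Cs D V a σ ∧
      uu Cs D V a (fp σ q) = uu Cs D V a σ := by
  obtain ⟨h2, h3⟩ := switch_on h hσ hq hoff x n
  have h1 := (Sl_pat hq).1
  unfold gg uu
  rw [On_insert h hq hoff, card_insert_of_notMem hoff, sum_insert hoff, ty_fp h h1, h2, h3]
  refine ⟨?_, by abel⟩
  rw [pow_succ]
  have : (x ^ 2) ≠ 0 := by positivity
  field_simp
  ring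

theorem inv_all (h : Setup Cs D τ a) {σ : Spin} (hσ : σ ∈ Cf D τ) {q : ℤ × ℤ}
    (hq : q ∈ Sl Cs V a σ) {x : ℝ} (hx : 0 < x) (n : ℝ) :
    gg x n Cs D V a (fp σ q) = gg x n Cs D V a σ ∧
      uu Cs D V a (fp σ q) = uu Cs D V a σ := by
  by_cases hon : q ∈ On Cs V a σ
  · have h1 := (Sl_pat hq).1
    have h2 := fp_mem h hσ h1
    have h3 : q ∈ Sl Cs V a (fp σ q) := by rw [Sl_fp h hq]; exact hq
    have h4 : q ∉ On Cs V a (fp σ q) := by
      rw [On_self h hq, not_not]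
      exact hon
    obtain ⟨h5, h6⟩ := inv_off h h2 h3 h4 hx n
    rw [fp_fp] at h5 h6
    exact ⟨h5.symm, h6.symm⟩
  · exact inv_off h hσ hq hon hx n

/-- the numbers of the switches of the two types -/
noncomputable def NN (Cs V : Finset (ℤ × ℤ)) (a : Edg) (σ : Spin) : ℕ × ℕ :=
  (((Sl Cs V a σ).filter fun q => ty Cs σ q = 0).card,
    ((Sl Cs V a σ).filter fun q => ty Cs σ q = 1).card)

theorem NN_add (σ : Spin) : (NN Cs V a σ).1 + (NN Cs V a σ).2 = (Sl Cs V a σ).card := by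
  unfold NN
  have hd : Disjoint ((Sl Cs V a σ).filter fun q => ty Cs σ q = 0)
      ((Sl Cs V a σ).filter fun q => ty Cs σ q = 1) := by
    rw [disjoint_left]
    intro q h1 h2
    rw [mem_filter] at h1 h2
    rw [h1.2] at h2
    exact absurd h2.2 (by decide)
  rw [← card_union_of_disjoint hd]
  congr 1
  ext q
  rw [mem_union, mem_filter, mem_filter]
  constructor
  · rintro (h | h)
    · exact h.1
    · exact h.1
  · intro h
    rcases fin2 (ty Cs σ q) with h2 | h2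
    · exact Or.inl ⟨h, h2⟩
    · exact Or.inr ⟨h, h2⟩

/-- the mixture formula -/
theorem mixture (h : Setup Cs D τ a) {x : ℝ} (hx : 0 < x) (n : ℝ) (F : Spin → ℝ)
    (hF : ∀ σ ∈ Cf D τ, ∀ q ∈ Sl Cs V a σ, F (fp σ q) = F σ)
    (g : ℤ × ℤ → ℕ × ℕ → ℤ × ℤ → ℝ) :
    ∑ σ ∈ Cf D τ, wt x n D σ * (F σ * g (uu Cs D V a σ) (NN Cs V a σ) (LA D a σ)) =
      ∑ σ ∈ Cf D τ, wt x n D σ * (F σ * (bb (x ^ 2) (NN Cs V a σ).1 (NN Cs V a σ).2
        (fun z => g (uu Cs D V a σ) (NN Cs V a σ) (uu Cs D V a σ + z)) /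
          (1 + x ^ 2) ^ ((NN Cs V a σ).1 + (NN Cs V a σ).2))) := by
  have hx2 : 0 < x ^ 2 := by positivity
  obtain ⟨K, hK⟩ : ∃ K : Spin → ℝ × ℝ × (ℤ × ℤ) × (ℤ × ℤ → Fin 2) × Finset (ℤ × ℤ),
    K = fun σ => (gg x n Cs D V a σ, F σ, uu Cs D V a σ, ty Cs σ, Sl Cs V a σ) := ⟨_, rfl⟩
  have hm := Pool.Agent.N949.AD.mixw (Cf D τ) (fun σ => Sl Cs V a σ) (fun σ => On Cs V a σ) fp
    (fun σ _ => filter_subset _ _)
    (fun σ hσ q hq => ⟨fp_mem h hσ (Sl_pat hq).1, Sl_fp h hq, fp_fp σ q,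
      fun hon => by
        refine (On_erase h hq hon).trans ?_
        ext c
        simp only [mem_erase],
      fun hoff => by
        refine (On_insert h hq hoff).trans ?_
        ext c
        simp only [mem_insert]⟩)
    K (fun σ hσ q hq => by
      rw [hK]
      simp only
      rw [(inv_all h hσ hq hx n).1, (inv_all h hσ hq hx n).2, hF σ hσ q hq,
        ty_fp h (Sl_pat hq).1, Sl_fp h hq])
    hx2 (fun k => k.1) (fun k T => k.2.1 * g k.2.2.1
      ((k.2.2.2.2.filter fun q => k.2.2.2.1 q = 0).card,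
        (k.2.2.2.2.filter fun q => k.2.2.2.1 q = 1).card) (k.2.2.1 + ∑ q ∈ T, v2 (k.2.2.2.1 q)))
  have hw : ∀ σ, (K σ).1 * (x ^ 2) ^ (On Cs V a σ).card = wt x n D σ := by
    intro σ
    rw [hK]
    show wt x n D σ / (x ^ 2) ^ (On Cs V a σ).card * _ = _
    exact div_mul_cancel₀ _ (by positivity)
  simp only [hw] at hm
  refine Eq.trans ?_ (hm.trans ?_)
  · refine sum_congr rfl fun σ _ => ?_
    rw [hK]
    simp only
    congr 3
    unfold uu
    abel
  · refine sum_congr rfl fun σ _ => ?_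
    congr 1
    rw [← NN_add σ, hK]
    simp only
    have h2 := two_types (Sl Cs V a σ) (ty Cs σ) (x ^ 2) (uu Cs D V a σ)
      (fun z => g (uu Cs D V a σ) (NN Cs V a σ) z)
    have h3 : ∑ T ∈ (Sl Cs V a σ).powerset, (x ^ 2) ^ T.card * (F σ * g (uu Cs D V a σ)
        ((((Sl Cs V a σ).filter fun q => ty Cs σ q = 0).card,
        ((Sl Cs V a σ).filter fun q => ty Cs σ q = 1).card)) (uu Cs D V a σ +
          ∑ q ∈ T, v2 (ty Cs σ q))) = F σ * ∑ T ∈ (Sl Cs V a σ).powerset, (x ^ 2) ^ T.card *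
          g (uu Cs D V a σ) (NN Cs V a σ) (uu Cs D V a σ + ∑ q ∈ T, v2 (ty Cs σ q)) := by
      rw [mul_sum]
      refine sum_congr rfl fun T _ => ?_
      unfold NN
      ring
    rw [h3, h2, mul_div_assoc]
    rfl

end

end Pool.Agent.V7H98.ON
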