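import Mathlib
import Pool.Agent.V7H98.ON.Mix

/-!
# The length and the area of the path
-/

set_option autoImplicit false

namespace Pool.Agent.V7H98.ON

open Equiv.Perm Finset
open scoped Classical

section

variable {Cs D V : Finset (ℤ × ℤ)} {τ : Spin} {a b : Edg}

/-- good flowers give switches -/
theorem good_swp (h : Setup Cs D τ a) {σ : Spin} (hσ : σ ∈ Cf D τ) {r i : ℕ} (hr1 : 1 ≤ r)
    (hr : r < 6) {c : ℤ × ℤ} (hc : c ∈ Gd Cs a r σ i) : c ∈ Cs ∧ SwP σ a c r := by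
  rw [mem_Gd] at hc
  obtain ⟨h1, j, _, h2, h3, h4⟩ := hc
  have ha : a.1 ∉ fl c := fun h' => h.left (h.sub c h1 h')
  have ha' : rt a ∉ fl c := fun h' => h.right (h.sub c h1 h')
  obtain ⟨h5, h6⟩ := notMem_faces h1 ha ha' h3
  have h7 := contact h5 h6 h2
  have h8 := enter (wl_ps (h.wlσ hσ) j) h7 hr1 hr h4
  refine ⟨h1, (ps σ a j).2 - 2, h4, ⟨((2 + j : ℕ) : ℤ), ?_⟩⟩
  rw [zpow_natCast, pow_add, Equiv.Perm.mul_apply]
  exact h8

theorem NN_two (h : Setup Cs D τ a) {σ : Spin} (hσ : σ ∈ Cf D τ) (i : ℕ) :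
    (Gd Cs a 2 σ i).card ≤ (NN Cs V a σ).2 + V.card := by
  have hsub : Gd Cs a 2 σ i ⊆ ((Sl Cs V a σ).filter fun q => ty Cs σ q = 1) ∪ V := by
    intro c hc
    obtain ⟨h1, m, h2, h3⟩ := good_swp h hσ (by norm_num) (by norm_num) hc
    by_cases hV : c ∈ V
    · exact mem_union_right _ hV
    · refine mem_union_left _ (mem_filter.2 ⟨?_, ty_one h2⟩)
      rw [Sl, mem_filter]
      exact ⟨h1, hV, Or.inl ⟨m, h2, h3⟩⟩
  exact (card_le_card hsub).trans (card_union_le _ _)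

theorem NN_four (h : Setup Cs D τ a) {σ : Spin} (hσ : σ ∈ Cf D τ) (i : ℕ) :
    (Gd Cs a 4 σ i).card ≤ (NN Cs V a σ).1 + V.card := by
  have hsub : Gd Cs a 4 σ i ⊆ ((Sl Cs V a σ).filter fun q => ty Cs σ q = 0) ∪ V := by
    intro c hc
    obtain ⟨h1, m, h2, h3⟩ := good_swp h hσ (by norm_num) (by norm_num) hc
    by_cases hV : c ∈ V
    · exact mem_union_right _ hV
    · refine mem_union_left _ (mem_filter.2 ⟨?_, ty_zero h1 h2⟩)
      rw [Sl, mem_filter]
      exact ⟨h1, hV, Or.inr ⟨m, h2, h3⟩⟩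
  exact (card_le_card hsub).trans (card_union_le _ _)

/-- the setup from a covering by flowers -/
theorem setup_of (hdis : ∀ c ∈ Cs, ∀ c' ∈ Cs, c ≠ c' → Disjoint (fl c) (fl c'))
    (h : Dob (Cs.biUnion fl) τ a b) : Setup Cs (Cs.biUnion fl) τ a :=
  ⟨hdis, fun _ hc => subset_biUnion_of_mem fl hc, h.wa, h.la, h.ra⟩

/-- the mean value -/
noncomputable def mn (x n : ℝ) (D : Finset (ℤ × ℤ)) (τ : Spin) (f : Spin → ℝ) : ℝ :=
  (∑ σ ∈ Cf D τ, wt x n D σ * f σ) / ∑ σ ∈ Cf D τ, wt x n D σ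

theorem Cf_nonempty (D : Finset (ℤ × ℤ)) (τ : Spin) : (Cf D τ).Nonempty :=
  ⟨τ, mem_Cf.2 fun _ _ => rfl⟩

theorem Z_pos {x n : ℝ} (hx : 0 < x) (hn : 0 < n) (D : Finset (ℤ × ℤ)) (τ : Spin) :
    0 < ∑ σ ∈ Cf D τ, wt x n D σ :=
  sum_pos (fun σ _ => wt_pos hx hn D σ) (Cf_nonempty D τ)

theorem mn_mono {x n : ℝ} (hx : 0 < x) (hn : 0 < n) {f g : Spin → ℝ}
    (h : ∀ σ ∈ Cf D τ, f σ ≤ g σ) : mn x n D τ f ≤ mn x n D τ g := by
  unfold mn
  refine div_le_div_of_nonneg_right ?_ (Z_pos hx hn D τ).le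
  exact sum_le_sum fun σ hσ => mul_le_mul_of_nonneg_left (h σ hσ) (wt_pos hx hn D σ).le

theorem mn_congr {x n : ℝ} {f g : Spin → ℝ}
    (h : ∀ σ ∈ Cf D τ, f σ = g σ) : mn x n D τ f = mn x n D τ g := by
  unfold mn
  congr 1
  exact sum_congr rfl fun σ hσ => by rw [h σ hσ]

theorem mn_add {x n : ℝ} (f g : Spin → ℝ) :
    mn x n D τ (fun σ => f σ + g σ) = mn x n D τ f + mn x n D τ g := by
  unfold mn
  rw [← add_div, ← sum_add_distrib]
  congr 1
  exact sum_congr rfl fun σ _ => by ring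

theorem mn_const_mul {x n : ℝ} (B : ℝ) (f : Spin → ℝ) :
    mn x n D τ (fun σ => B * f σ) = B * mn x n D τ f := by
  unfold mn
  rw [← mul_div_assoc, mul_sum]
  congr 1
  exact sum_congr rfl fun σ _ => by ring

theorem mn_abs {x n : ℝ} (hx : 0 < x) (hn : 0 < n) (f : Spin → ℝ) :
    |mn x n D τ f| ≤ mn x n D τ (fun σ => |f σ|) := by
  unfold mn
  rw [abs_div, abs_of_pos (Z_pos hx hn D τ)]
  refine div_le_div_of_nonneg_right ?_ (Z_pos hx hn D τ).le
  refine (abs_sum_le_sum_abs _ _).trans (sum_le_sum fun σ _ => ?_)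
  rw [abs_mul, abs_of_pos (wt_pos hx hn D σ)]

theorem mn_one {x n : ℝ} (hx : 0 < x) (hn : 0 < n) : mn x n D τ (fun _ => 1) = 1 := by
  unfold mn
  simp only [mul_one]
  exact div_self (Z_pos hx hn D τ).ne'

/-- the numbers of the switches are large, except with an exponentially small probability -/
theorem rare {x n : ℝ} (hx : 0 < x) (hn : 0 < n) : ∃ K : ℕ, 1 ≤ K ∧ ∃ lam : ℝ, 1 < lam ∧
    ∀ (Cs : Finset (ℤ × ℤ)) (τ : Spin) (a b : Edg),
      (∀ c ∈ Cs, ∀ c' ∈ Cs, c ≠ c' → Disjoint (fl c) (fl c')) → Dob (Cs.biUnion fl) τ a b →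
      ∀ V : Finset (ℤ × ℤ), 336 * (K : ℝ) * V.card ≤ dst a b →
      mn x n (Cs.biUnion fl) τ (fun σ => if 336 * (K : ℝ) *
        (min (NN Cs V a σ).1 (NN Cs V a σ).2 : ℕ) < len (Cs.biUnion fl) σ a then
          Real.exp (Real.log lam / 84 * len (Cs.biUnion fl) σ a) else 0) ≤ 2 := by
  have hen := en_pos hx hn
  obtain ⟨lam, hlam⟩ : ∃ lam : ℝ, lam = 1 + en x n / 64 / 8 := ⟨_, rfl⟩
  have hl1 : 1 < lam := by rw [hlam]; linarith
  have hl0 : 0 < lam := by linarith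
  have hl2 : lam ^ 2 * (1 - 1 / 2 * (en x n / 64)) ≤ 1 := by
    rw [hlam]
    have h1 : 0 < en x n / 64 := by positivity
    set κ := en x n / 64
    have h2 : (1 + κ / 8) ^ 2 * (1 - 1 / 2 * κ) = 1 - κ / 4 - 7 * κ ^ 2 / 64 - κ ^ 3 / 128 := by
      ring
    rw [h2]
    have : 0 < κ ^ 2 := by positivity
    have : 0 < κ ^ 3 := by positivity
    linarith
  obtain ⟨K, hK⟩ := pow_unbounded_of_one_lt 2 hl1
  have hK1 : 1 ≤ K := by
    by_contra hcon
    have : K = 0 := by omega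
    subst this
    norm_num at hK
  refine ⟨K, hK1, lam, hl1, ?_⟩
  intro Cs τ a b hdis hD V hV
  set D := Cs.biUnion fl with hDdef
  have hS : Setup Cs D τ a := setup_of hdis hD
  obtain ⟨i, hi⟩ := hD.len_le (Cs := Cs) (fun f hf => mem_biUnion.1 hf)
  have hKr : (1 : ℝ) ≤ K := by exact_mod_cast hK1
  have h2 := few_good' (r := 2) hS (by norm_num) hx hn hl1.le hl2 K hK.le i
  have h4 := few_good' (r := 4) hS (by norm_num) hx hn hl1.le hl2 K hK.le i
  have hZ := Z_pos hx hn D τ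
  have hlog : 0 < Real.log lam := Real.log_pos hl1
  have hexp : ∀ σ ∈ Cf D τ, Real.exp (Real.log lam / 84 * len D σ a) ≤
      lam ^ (Hs Cs a σ i).card := by
    intro σ hσ
    have h1 : ((len D σ a : ℕ) : ℝ) ≤ ((84 * (Hs Cs a σ i).card : ℕ) : ℝ) := by
      exact_mod_cast hi σ hσ
    push_cast at h1
    have h3 : lam ^ (Hs Cs a σ i).card = Real.exp (Real.log lam * (Hs Cs a σ i).card) := by
      rw [Real.exp_mul, Real.exp_log hl0, Real.rpow_natCast]
    rw [h3]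
    apply Real.exp_le_exp.2
    calc Real.log lam / 84 * len D σ a ≤ Real.log lam / 84 * (84 * (Hs Cs a σ i).card) :=
          mul_le_mul_of_nonneg_left h1 (by positivity)
      _ = _ := by ring
  have hsub : ∑ σ ∈ Cf D τ, wt x n D σ * (if 336 * (K : ℝ) *
      (min (NN Cs V a σ).1 (NN Cs V a σ).2 : ℕ) < len D σ a then
        Real.exp (Real.log lam / 84 * len D σ a) else 0) ≤
      ∑ σ ∈ (Cf D τ).filter (fun σ => K * (Gd Cs a 2 σ i).card ≤ (Hs Cs a σ i).card),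
        wt x n D σ * lam ^ (Hs Cs a σ i).card +
      ∑ σ ∈ (Cf D τ).filter (fun σ => K * (Gd Cs a 4 σ i).card ≤ (Hs Cs a σ i).card),
        wt x n D σ * lam ^ (Hs Cs a σ i).card := by
    rw [sum_filter, sum_filter, ← sum_add_distrib]
    refine sum_le_sum fun σ hσ => ?_
    have hw := (wt_pos hx hn D σ).le
    have hw2 := mul_le_mul_of_nonneg_left (hexp σ hσ) hw
    have hw3 : 0 ≤ wt x n D σ * lam ^ (Hs Cs a σ i).card := by positivity
    split_ifs with g1 g2 g3 g3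
    · linarith
    · linarith
    · linarith
    · exfalso
      rw [not_le] at g2 g3
      have k2 := NN_two (V := V) hS hσ i
      have k4 := NN_four (V := V) hS hσ i
      have k5 := hi σ hσ
      have k6 := hD.len_ge hσ
      have k7 : 1 ≤ len D σ a := by
        refine card_pos.2 ⟨stp σ a, ?_⟩
        rw [St, mem_filter]
        exact ⟨hD.first hσ, ⟨1, by rw [zpow_one]; rfl⟩⟩
      obtain ⟨M, hM⟩ : ∃ M : ℕ, M = min (NN Cs V a σ).1 (NN Cs V a σ).2 := ⟨_, rfl⟩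
      rw [← hM] at g1
      have k8 : (len D σ a : ℝ) ≤ 84 * (K : ℝ) * (M + V.card) := by
        have k9 : len D σ a ≤ 84 * (K * (M + V.card)) := by
          rcases le_total (NN Cs V a σ).1 (NN Cs V a σ).2 with hle | hle
          · have e : M = (NN Cs V a σ).1 := by rw [hM, min_eq_left hle]
            have k10 : K * (Gd Cs a 4 σ i).card ≤ K * (M + V.card) :=
              Nat.mul_le_mul_left _ (by omega)
            omega
          · have e : M = (NN Cs V a σ).2 := by rw [hM, min_eq_right hle]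
            have k10 : K * (Gd Cs a 2 σ i).card ≤ K * (M + V.card) :=
              Nat.mul_le_mul_left _ (by omega)
            omega
        have : ((len D σ a : ℕ) : ℝ) ≤ ((84 * (K * (M + V.card)) : ℕ) : ℝ) := by
          exact_mod_cast k9
        push_cast at this
        linarith
      have k11 : (dst a b : ℝ) ≤ len D σ a + 1 := by exact_mod_cast k6
      have k12 : (1 : ℝ) ≤ len D σ a := by exact_mod_cast k7
      nlinarith
    all_goals
      rw [mul_zero]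
      positivity
  unfold mn
  rw [div_le_iff₀ hZ]
  linarith

/-- comparison of mean values -/
theorem mn_split {x n : ℝ} (hx : 0 < x) (hn : 0 < n) {f g : Spin → ℝ} {P : Spin → Prop} {B : ℝ}
    (h1 : ∀ σ ∈ Cf D τ, ¬ P σ → f σ ≤ g σ) (h2 : ∀ σ ∈ Cf D τ, P σ → f σ ≤ g σ + B) :
    mn x n D τ f ≤ mn x n D τ g + B * mn x n D τ (fun σ => if P σ then 1 else 0) := by
  rw [← mn_const_mul, ← mn_add]
  refine mn_mono hx hn fun σ hσ => ?_
  by_cases hP : P σ
  · rw [if_pos hP, mul_one]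
    exact h2 σ hσ hP
  · rw [if_neg hP, mul_zero, add_zero]
    exact h1 σ hσ hP

end

end Pool.Agent.V7H98.ON
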