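import Mathlib
import Pool.Agent.V7H98.ON.Final

/-!
# The main theorem
-/

set_option autoImplicit false

namespace Pool.Agent.V7H98.ON

open Equiv.Perm Finset
open scoped Classical

section

variable {x n : ℝ}

/-- the constants -/
structure Cst (x n : ℝ) where
  K : ℕ
  lam : ℝ
  hK : 1 ≤ K
  hl : 1 < lam
  h : ∀ (Cs : Finset (ℤ × ℤ)) (τ : Spin) (a b : Edg),
      (∀ c ∈ Cs, ∀ c' ∈ Cs, c ≠ c' → Disjoint (fl c) (fl c')) → Dob (Cs.biUnion fl) τ a b →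
      ∀ V : Finset (ℤ × ℤ), 336 * (K : ℝ) * V.card ≤ dst a b →
      mn x n (Cs.biUnion fl) τ (fun σ => if 336 * (K : ℝ) *
        (min (NN Cs V a σ).1 (NN Cs V a σ).2 : ℕ) < len (Cs.biUnion fl) σ a then
          Real.exp (Real.log lam / 84 * len (Cs.biUnion fl) σ a) else 0) ≤ 2

theorem exists_cst (hx : 0 < x) (hn : 0 < n) : Nonempty (Cst x n) := by
  obtain ⟨K, hK, lam, hl, h⟩ := rare hx hn
  exact ⟨⟨K, lam, hK, hl, h⟩⟩

/-- the main constant -/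
noncomputable def Cst.C (Q : Cst x n) : ℝ :=
  1 + 336 * Q.K + 84 / Real.log Q.lam + 2 * Q.lam ^ 2 + 336 * Q.K / cy (x ^ 2)

/-- the constants for the differences -/
noncomputable def Cst.A (Q : Cst x n) (k : ℕ) : ℝ :=
  Ky (x ^ 2) k * (Real.sqrt (336 * Q.K) ^ k + Q.C)

variable (Q : Cst x n)

theorem Cst.Kr : (1 : ℝ) ≤ Q.K := by exact_mod_cast Q.hK

theorem Cst.log_pos : 0 < Real.log Q.lam := Real.log_pos Q.hl

theorem Cst.bounds (hx : 0 < x) : 1 ≤ Q.C ∧ 336 * (Q.K : ℝ) ≤ Q.C ∧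
    84 / Real.log Q.lam ≤ Q.C ∧ 2 * Q.lam ^ 2 ≤ Q.C ∧ 336 * Q.K / cy (x ^ 2) ≤ Q.C := by
  have h1 := Q.Kr
  have h2 : 0 < 84 / Real.log Q.lam := div_pos (by norm_num) Q.log_pos
  have h3 : 0 < 2 * Q.lam ^ 2 := by
    have := Q.hl
    positivity
  have h4 : 0 < 336 * Q.K / cy (x ^ 2) := div_pos (by linarith) (cy_pos (by positivity))
  unfold Cst.C
  refine ⟨?_, ?_, ?_, ?_, ?_⟩ <;> linarith

theorem Cst.A_pos (hx : 0 < x) (k : ℕ) : 0 < Q.A k := by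
  have h1 := (Q.bounds hx).1
  have h2 := Ky_pos (y := x ^ 2) (by positivity) k
  unfold Cst.A
  have h3 : 0 ≤ Real.sqrt (336 * Q.K) ^ k := by positivity
  exact mul_pos h2 (by linarith)

theorem Cst.exp_le (hx : 0 < x) {R : ℝ} (hR : 0 ≤ R) :
    2 * Q.lam ^ 2 * Real.exp (-(Real.log Q.lam / 84 * R)) ≤ Q.C * Real.exp (-(R / Q.C)) := by
  obtain ⟨h1, _, h3, h4, _⟩ := Q.bounds hx
  refine mul_le_mul h4 (Real.exp_le_exp.2 ?_) (Real.exp_pos _).le (by linarith)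
  have h5 : 1 / Q.C ≤ Real.log Q.lam / 84 := by
    rw [div_le_iff₀ (by linarith)]
    have h6 := Q.log_pos
    rw [div_le_iff₀ h6] at h3
    rw [div_mul_eq_mul_div, le_div_iff₀ (by norm_num)]
    linarith
  have h6 : R / Q.C = 1 / Q.C * R := by ring
  rw [h6]
  have := mul_le_mul_of_nonneg_right h5 hR
  linarith

variable {Q} {Cs V : Finset (ℤ × ℤ)} {τ : Spin} {a b : Edg}

theorem dst_nonneg (a b : Edg) : (0 : ℝ) ≤ dst a b := by
  have : 0 ≤ dst a b := le_max_of_le_left (abs_nonneg _)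
  exact_mod_cast this

/-- the event that there are few switches -/
def Few (Q : Cst x n) (Cs V : Finset (ℤ × ℤ)) (a : Edg) (σ : Spin) : Prop :=
  336 * (Q.K : ℝ) * (min (NN Cs V a σ).1 (NN Cs V a σ).2 : ℕ) < len (Cs.biUnion fl) σ a

theorem few_le (hx : 0 < x) (hn : 0 < n)
    (hdis : ∀ c ∈ Cs, ∀ c' ∈ Cs, c ≠ c' → Disjoint (fl c) (fl c'))
    (hD : Dob (Cs.biUnion fl) τ a b) (hV : Q.C * V.card ≤ dst a b) :
    mn x n (Cs.biUnion fl) τ (fun σ => if Few Q Cs V a σ then 1 else 0) ≤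
      Q.C * Real.exp (-(dst a b / Q.C)) := by
  have h1 : 336 * (Q.K : ℝ) * V.card ≤ dst a b :=
    (mul_le_mul_of_nonneg_right (Q.bounds hx).2.1 (Nat.cast_nonneg _)).trans hV
  have h2 := Q.h Cs τ a b hdis hD V h1
  have hl := Q.hl
  have h3 : mn x n (Cs.biUnion fl) τ (fun σ => if Few Q Cs V a σ then 1 else 0) ≤
      mn x n (Cs.biUnion fl) τ (fun σ => Q.lam ^ 2 * Real.exp (-(Real.log Q.lam / 84 * dst a b)) *
        (if 336 * (Q.K : ℝ) * (min (NN Cs V a σ).1 (NN Cs V a σ).2 : ℕ) <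
          len (Cs.biUnion fl) σ a then
          Real.exp (Real.log Q.lam / 84 * len (Cs.biUnion fl) σ a) else 0)) := by
    refine mn_mono hx hn fun σ hσ => ?_
    unfold Few
    split_ifs with h4
    · have h5 := hD.len_ge hσ
      have h6 : (dst a b : ℝ) ≤ len (Cs.biUnion fl) σ a + 1 := by exact_mod_cast h5
      have h7 := Q.log_pos
      have e2 : Q.lam ^ 2 = Real.exp (2 * Real.log Q.lam) := by
        rw [mul_comm, Real.exp_mul, Real.exp_log (by linarith)]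
        norm_cast
      rw [e2, ← Real.exp_add, ← Real.exp_add]
      apply Real.one_le_exp
      nlinarith
    · rw [mul_zero]
  rw [mn_const_mul] at h3
  refine h3.trans ((mul_le_mul_of_nonneg_left h2 (by positivity)).trans ?_)
  have h4 := Q.exp_le hx (dst_nonneg a b)
  linarith

/-- the exponential moment of the length on the event of few switches -/
theorem few_exp (hx : 0 < x) (hn : 0 < n)
    (hdis : ∀ c ∈ Cs, ∀ c' ∈ Cs, c ≠ c' → Disjoint (fl c) (fl c'))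
    (hD : Dob (Cs.biUnion fl) τ a b) (hV : Q.C * V.card ≤ dst a b) :
    mn x n (Cs.biUnion fl) τ (fun σ => if Q.C *
      (min (NN Cs V a σ).1 (NN Cs V a σ).2 : ℕ) < len (Cs.biUnion fl) σ a then
        Real.exp (len (Cs.biUnion fl) σ a / Q.C) else 0) ≤ 2 := by
  obtain ⟨g1, g2, g3, _, _⟩ := Q.bounds hx
  have h1 : 336 * (Q.K : ℝ) * V.card ≤ dst a b :=
    (mul_le_mul_of_nonneg_right g2 (Nat.cast_nonneg _)).trans hV
  refine (mn_mono hx hn fun σ _ => ?_).trans (Q.h Cs τ a b hdis hD V h1)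
  by_cases h2 : Q.C * (min (NN Cs V a σ).1 (NN Cs V a σ).2 : ℕ) < len (Cs.biUnion fl) σ a
  · have h3 : 336 * (Q.K : ℝ) * (min (NN Cs V a σ).1 (NN Cs V a σ).2 : ℕ) <
        len (Cs.biUnion fl) σ a := lt_of_le_of_lt
      (mul_le_mul_of_nonneg_right g2 (Nat.cast_nonneg _)) h2
    rw [if_pos h2, if_pos h3]
    apply Real.exp_le_exp.2
    have h5 : 1 / Q.C ≤ Real.log Q.lam / 84 := by
      rw [div_le_iff₀ (by linarith)]
      have h6 := Q.log_pos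
      rw [div_le_iff₀ h6] at g3
      rw [div_mul_eq_mul_div, le_div_iff₀ (by norm_num)]
      linarith
    calc (len (Cs.biUnion fl) σ a : ℝ) / Q.C = 1 / Q.C * len (Cs.biUnion fl) σ a := by ring
      _ ≤ _ := mul_le_mul_of_nonneg_right h5 (Nat.cast_nonneg _)
  · rw [if_neg h2]
    split_ifs
    · exact (Real.exp_pos _).le
    · exact le_rfl

theorem few_le' (hx : 0 < x) (hn : 0 < n)
    (hdis : ∀ c ∈ Cs, ∀ c' ∈ Cs, c ≠ c' → Disjoint (fl c) (fl c'))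
    (hD : Dob (Cs.biUnion fl) τ a b) (hV : Q.C * V.card ≤ dst a b) :
    mn x n (Cs.biUnion fl) τ (fun σ => if Q.C *
      (min (NN Cs V a σ).1 (NN Cs V a σ).2 : ℕ) < len (Cs.biUnion fl) σ a then 1 else 0) ≤
      Q.C * Real.exp (-(dst a b / Q.C)) := by
  refine (mn_mono hx hn fun σ _ => ?_).trans (few_le (Q := Q) hx hn hdis hD hV)
  by_cases h1 : Q.C * (min (NN Cs V a σ).1 (NN Cs V a σ).2 : ℕ) < len (Cs.biUnion fl) σ a
  · have h2 : Few Q Cs V a σ := lt_of_le_of_lt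
      (mul_le_mul_of_nonneg_right (Q.bounds hx).2.1 (Nat.cast_nonneg _)) h1
    rw [if_pos h1, if_pos h2]
  · rw [if_neg h1]
    split_ifs <;> norm_num

theorem not_few {σ : Spin} (h : ¬ Few Q Cs V a σ) : (len (Cs.biUnion fl) σ a : ℝ) ≤
    336 * Q.K * ((NN Cs V a σ).1 + (NN Cs V a σ).2 : ℕ) := by
  unfold Few at h
  rw [not_lt] at h
  refine h.trans (mul_le_mul_of_nonneg_left ?_ (by positivity))
  have : min (NN Cs V a σ).1 (NN Cs V a σ).2 ≤ (NN Cs V a σ).1 + (NN Cs V a σ).2 :=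
    (min_le_left _ _).trans (Nat.le_add_right _ _)
  exact_mod_cast this

/-- estimates from the mixture formula -/
theorem est (hx : 0 < x) (hn : 0 < n)
    (hdis : ∀ c ∈ Cs, ∀ c' ∈ Cs, c ≠ c' → Disjoint (fl c) (fl c'))
    (hD : Dob (Cs.biUnion fl) τ a b) (hV : Q.C * V.card ≤ dst a b) (F : Spin → ℝ)
    (hF : ∀ σ ∈ Cf (Cs.biUnion fl) τ, ∀ q ∈ Sl Cs V a σ, F (fp σ q) = F σ)
    (hF1 : ∀ σ ∈ Cf (Cs.biUnion fl) τ, |F σ| ≤ 1)
    (G : ℤ × ℤ → ℝ) (ψ : ℕ → ℝ) (η : ℕ → ℝ) (B : ℝ) (hB : ∀ N, ψ N ≤ B) (hB0 : 0 ≤ B)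
    (hη : ∀ L, 0 ≤ η L)
    (hψ : ∀ (N L : ℕ), (L : ℝ) ≤ 336 * Q.K * N → ψ N ≤ η L)
    (hG : ∀ (u : ℤ × ℤ) (N M : ℕ), |bb (x ^ 2) N M (fun z => G (u + z))| ≤
      ψ (N + M) * (1 + x ^ 2) ^ (N + M)) :
    |mn x n (Cs.biUnion fl) τ (fun σ => F σ * G (LA (Cs.biUnion fl) a σ))| ≤
      mn x n (Cs.biUnion fl) τ (fun σ => |F σ| * η (len (Cs.biUnion fl) σ a)) +
        B * (Q.C * Real.exp (-(dst a b / Q.C))) := by
  have hS := setup_of hdis hD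
  have hm := mixture (V := V) hS hx n F hF (fun _ _ z => G z)
  have e : mn x n (Cs.biUnion fl) τ (fun σ => F σ * G (LA (Cs.biUnion fl) a σ)) =
      mn x n (Cs.biUnion fl) τ (fun σ => F σ * (bb (x ^ 2) (NN Cs V a σ).1 (NN Cs V a σ).2
        (fun z => G (uu Cs (Cs.biUnion fl) V a σ + z)) /
          (1 + x ^ 2) ^ ((NN Cs V a σ).1 + (NN Cs V a σ).2))) := by
    unfold mn
    rw [hm]
  rw [e]
  refine (mn_abs hx hn _).trans ((mn_split (P := Few Q Cs V a) (B := B) hx hn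
    (g := fun σ => |F σ| * η (len (Cs.biUnion fl) σ a)) ?_ ?_).trans
    (add_le_add le_rfl (mul_le_mul_of_nonneg_left (few_le hx hn hdis hD hV) hB0)))
  all_goals
    intro σ hσ hP
    have hpos : (0 : ℝ) < (1 + x ^ 2) ^ ((NN Cs V a σ).1 + (NN Cs V a σ).2) := by positivity
    have h1 : |bb (x ^ 2) (NN Cs V a σ).1 (NN Cs V a σ).2
        (fun z => G (uu Cs (Cs.biUnion fl) V a σ + z)) /
          (1 + x ^ 2) ^ ((NN Cs V a σ).1 + (NN Cs V a σ).2)| ≤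
        ψ ((NN Cs V a σ).1 + (NN Cs V a σ).2) := by
      rw [abs_div, abs_of_pos hpos, div_le_iff₀ hpos]
      exact hG _ _ _
    rw [abs_mul]
  · refine mul_le_mul_of_nonneg_left (h1.trans (hψ _ _ ?_)) (abs_nonneg _)
    exact not_few hP
  · have h2 := hF1 σ hσ
    have h3 := mul_le_mul h2 (h1.trans (hB _)) (abs_nonneg _) zero_le_one
    have h4 : 0 ≤ |F σ| * η (len (Cs.biUnion fl) σ a) := mul_nonneg (abs_nonneg _) (hη _)
    linarith

/-- the characteristic function of length and area -/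
theorem main_chr (hx : 0 < x) (hn : 0 < n)
    (hdis : ∀ c ∈ Cs, ∀ c' ∈ Cs, c ≠ c' → Disjoint (fl c) (fl c'))
    (hD : Dob (Cs.biUnion fl) τ a b) (hV : Q.C * V.card ≤ dst a b) (F : Spin → ℝ)
    (hF : ∀ σ ∈ Cf (Cs.biUnion fl) τ, ∀ q ∈ Sl Cs V a σ, F (fp σ q) = F σ)
    (hF1 : ∀ σ ∈ Cf (Cs.biUnion fl) τ, |F σ| ≤ 1) (α β φ m : ℝ) (hm : 0 ≤ m)
    (hm1 : m ≤ Real.sin (α + β) ^ 2) (hm2 : m ≤ Real.sin (α - β) ^ 2) :
    |mn x n (Cs.biUnion fl) τ (fun σ => F σ * Real.cos (α * (len (Cs.biUnion fl) σ a : ℝ) +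
      β * (ar (Cs.biUnion fl) σ a : ℝ) + φ))| ≤
      mn x n (Cs.biUnion fl) τ
        (fun σ => |F σ| * Real.exp (-(m * (len (Cs.biUnion fl) σ a : ℝ) / Q.C))) +
        Q.C * Real.exp (-(dst a b / Q.C)) := by
  have hy : 0 < x ^ 2 := by positivity
  have hc := cy_pos hy
  obtain ⟨g1, g2, _, _, g5⟩ := Q.bounds hx
  have h := est (Q := Q) hx hn hdis hD hV F hF hF1
    (fun z => Real.cos (α * z.1 + β * z.2 + φ))
    (fun N => Real.exp (-(cy (x ^ 2) * m * N))) (fun L => Real.exp (-(m * (L : ℝ) / Q.C))) 1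
    (fun N => by
      rw [Real.exp_le_one_iff]
      have : 0 ≤ cy (x ^ 2) * m * N := by positivity
      linarith) zero_le_one (fun L => (Real.exp_pos _).le) (fun N L hNL => by
      rw [Real.exp_le_exp, neg_le_neg_iff]
      have h1 : (L : ℝ) / Q.C ≤ cy (x ^ 2) * N := by
        rw [div_le_iff₀ (by linarith)]
        rw [div_le_iff₀ hc] at g5
        calc (L : ℝ) ≤ 336 * Q.K * N := hNL
          _ ≤ (Q.C * cy (x ^ 2)) * N := mul_le_mul_of_nonneg_right g5 (Nat.cast_nonneg _)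
          _ = _ := by ring
      have h2 := mul_le_mul_of_nonneg_left h1 hm
      calc m * (L : ℝ) / Q.C = m * ((L : ℝ) / Q.C) := by ring
        _ ≤ m * (cy (x ^ 2) * N) := h2
        _ = _ := by ring) (fun u N M => by
      have h1 := chr hy α β (φ + α * u.1 + β * u.2) m N M hm1 hm2
      have h2 : (fun z : ℤ × ℤ => Real.cos (α * z.1 + β * z.2 + (φ + α * u.1 + β * u.2))) =
          fun z : ℤ × ℤ => Real.cos (α * ((u + z).1 : ℤ) + β * ((u + z).2 : ℤ) + φ) := by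
        funext z
        congr 1
        rw [Prod.fst_add, Prod.snd_add]
        push_cast
        ring
      rw [h2] at h1
      exact h1)
  rw [one_mul] at h
  refine le_trans (le_of_eq ?_) h
  rfl

theorem sqrt_fac (k : ℕ) {B : ℝ} (hB : 1 ≤ B) {N L : ℕ} (h : (L : ℝ) ≤ B * N) :
    1 / Real.sqrt ((N : ℝ) + 1) ^ k ≤ Real.sqrt B ^ k / Real.sqrt ((L : ℝ) + 1) ^ k := by
  have h1 : (0 : ℝ) < (N : ℝ) + 1 := by positivity
  have h2 : (0 : ℝ) < (L : ℝ) + 1 := by positivity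
  rw [div_le_div_iff₀ (pow_pos (Real.sqrt_pos.2 h1) k) (pow_pos (Real.sqrt_pos.2 h2) k),
    one_mul, ← mul_pow]
  refine pow_le_pow_left₀ (Real.sqrt_nonneg _) ?_ k
  rw [← Real.sqrt_mul (by linarith)]
  refine Real.sqrt_le_sqrt ?_
  nlinarith

theorem est_dif (hx : 0 < x) (hn : 0 < n)
    (hdis : ∀ c ∈ Cs, ∀ c' ∈ Cs, c ≠ c' → Disjoint (fl c) (fl c'))
    (hD : Dob (Cs.biUnion fl) τ a b) (hV : Q.C * V.card ≤ dst a b) (F : Spin → ℝ)
    (hF : ∀ σ ∈ Cf (Cs.biUnion fl) τ, ∀ q ∈ Sl Cs V a σ, F (fp σ q) = F σ)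
    (hF1 : ∀ σ ∈ Cf (Cs.biUnion fl) τ, |F σ| ≤ 1) (k : ℕ) (G : ℤ × ℤ → ℝ)
    (hG : ∀ (u : ℤ × ℤ) (N M : ℕ), |bb (x ^ 2) N M (fun z => G (u + z))| ≤
      Ky (x ^ 2) k / Real.sqrt (((N + M : ℕ) : ℝ) + 1) ^ k * (1 + x ^ 2) ^ (N + M)) :
    |mn x n (Cs.biUnion fl) τ (fun σ => F σ * G (LA (Cs.biUnion fl) a σ))| ≤
      Q.A k * (mn x n (Cs.biUnion fl) τ
        (fun σ => |F σ| / Real.sqrt ((len (Cs.biUnion fl) σ a : ℝ) + 1) ^ k) +
        Real.exp (-(dst a b / Q.C))) := by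
  have hy : 0 < x ^ 2 := by positivity
  have hK := Ky_pos hy k
  have hKr := Q.Kr
  obtain ⟨g1, g2, _, _, g5⟩ := Q.bounds hx
  have h := est (Q := Q) hx hn hdis hD hV F hF hF1 G
    (fun N => Ky (x ^ 2) k / Real.sqrt ((N : ℝ) + 1) ^ k)
    (fun L => Ky (x ^ 2) k * Real.sqrt (336 * Q.K) ^ k / Real.sqrt ((L : ℝ) + 1) ^ k)
    (Ky (x ^ 2) k)
    (fun N => by
      refine div_le_self hK.le ?_
      refine one_le_pow₀ ?_
      rw [Real.one_le_sqrt]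
      have : (0 : ℝ) ≤ N := Nat.cast_nonneg _
      linarith) hK.le (fun L => by positivity) (fun N L hNL => by
      have h1 := sqrt_fac k (B := 336 * Q.K) (by linarith) hNL
      have h2 := mul_le_mul_of_nonneg_left h1 hK.le
      calc Ky (x ^ 2) k / Real.sqrt ((N : ℝ) + 1) ^ k =
          Ky (x ^ 2) k * (1 / Real.sqrt ((N : ℝ) + 1) ^ k) := by ring
        _ ≤ _ := h2
        _ = _ := by ring) hG
  refine h.trans ?_
  have e : mn x n (Cs.biUnion fl) τ (fun σ => |F σ| * (Ky (x ^ 2) k *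
      Real.sqrt (336 * Q.K) ^ k / Real.sqrt ((len (Cs.biUnion fl) σ a : ℝ) + 1) ^ k)) =
      Ky (x ^ 2) k * Real.sqrt (336 * Q.K) ^ k * mn x n (Cs.biUnion fl) τ
        (fun σ => |F σ| / Real.sqrt ((len (Cs.biUnion fl) σ a : ℝ) + 1) ^ k) := by
    rw [← mn_const_mul]
    exact mn_congr fun σ _ => by ring
  rw [e]
  have h0 : 0 ≤ mn x n (Cs.biUnion fl) τ
      (fun σ => |F σ| / Real.sqrt ((len (Cs.biUnion fl) σ a : ℝ) + 1) ^ k) := by
    have := mn_mono (D := Cs.biUnion fl) (τ := τ) hx hn (f := fun _ => (0 : ℝ))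
      (g := fun σ => |F σ| / Real.sqrt ((len (Cs.biUnion fl) σ a : ℝ) + 1) ^ k)
      (fun σ _ => by positivity)
    refine le_trans (le_of_eq ?_) this
    unfold mn
    simp
  have h1 : 0 < Real.exp (-(dst a b / Q.C)) := Real.exp_pos _
  have h2 : 0 ≤ Real.sqrt (336 * Q.K) ^ k := by positivity
  unfold Cst.A
  set E1 := mn x n (Cs.biUnion fl) τ
      (fun σ => |F σ| / Real.sqrt ((len (Cs.biUnion fl) σ a : ℝ) + 1) ^ k)
  set E2 := Real.exp (-(dst a b / Q.C))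
  have h3 : 0 ≤ Ky (x ^ 2) k * (Q.C * E1) := by positivity
  have h4 : 0 ≤ Ky (x ^ 2) k * (Real.sqrt (336 * Q.K) ^ k * E2) := by positivity
  nlinarith

/-- iterated differences: length -/
theorem main_len (hx : 0 < x) (hn : 0 < n)
    (hdis : ∀ c ∈ Cs, ∀ c' ∈ Cs, c ≠ c' → Disjoint (fl c) (fl c'))
    (hD : Dob (Cs.biUnion fl) τ a b) (hV : Q.C * V.card ≤ dst a b) (F : Spin → ℝ)
    (hF : ∀ σ ∈ Cf (Cs.biUnion fl) τ, ∀ q ∈ Sl Cs V a σ, F (fp σ q) = F σ)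
    (hF1 : ∀ σ ∈ Cf (Cs.biUnion fl) τ, |F σ| ≤ 1) (k : ℕ) (g : ℤ → ℝ) (hg : ∀ z, |g z| ≤ 1) :
    |mn x n (Cs.biUnion fl) τ (fun σ => F σ * ∑ i ∈ range (k + 1), (-1 : ℝ) ^ i *
      (k.choose i : ℝ) * g ((len (Cs.biUnion fl) σ a : ℤ) + 2 * i))| ≤
      Q.A k * (mn x n (Cs.biUnion fl) τ
        (fun σ => |F σ| / Real.sqrt ((len (Cs.biUnion fl) σ a : ℝ) + 1) ^ k) +
        Real.exp (-(dst a b / Q.C))) := by
  have h := est_dif (Q := Q) hx hn hdis hD hV F hF hF1 k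
    (fun z => ∑ i ∈ range (k + 1), (-1 : ℝ) ^ i * (k.choose i : ℝ) * g (z.1 + 2 * i))
    (fun u N M => dif1 k (by positivity) N M u.1 g hg)
  exact h

/-- iterated differences: area -/
theorem main_ar (hx : 0 < x) (hn : 0 < n)
    (hdis : ∀ c ∈ Cs, ∀ c' ∈ Cs, c ≠ c' → Disjoint (fl c) (fl c'))
    (hD : Dob (Cs.biUnion fl) τ a b) (hV : Q.C * V.card ≤ dst a b) (F : Spin → ℝ)
    (hF : ∀ σ ∈ Cf (Cs.biUnion fl) τ, ∀ q ∈ Sl Cs V a σ, F (fp σ q) = F σ)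
    (hF1 : ∀ σ ∈ Cf (Cs.biUnion fl) τ, |F σ| ≤ 1) (k : ℕ) (g : ℤ → ℝ) (hg : ∀ z, |g z| ≤ 1) :
    |mn x n (Cs.biUnion fl) τ (fun σ => F σ * ∑ i ∈ range (k + 1), (-1 : ℝ) ^ i *
      (k.choose i : ℝ) * g (ar (Cs.biUnion fl) σ a + 2 * i))| ≤
      Q.A k * (mn x n (Cs.biUnion fl) τ
        (fun σ => |F σ| / Real.sqrt ((len (Cs.biUnion fl) σ a : ℝ) + 1) ^ k) +
        Real.exp (-(dst a b / Q.C))) := by
  have h := est_dif (Q := Q) hx hn hdis hD hV F hF hF1 k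
    (fun z => ∑ i ∈ range (k + 1), (-1 : ℝ) ^ i * (k.choose i : ℝ) * g (z.2 + 2 * i))
    (fun u N M => dif2 k (by positivity) N M u.2 g hg)
  exact h

/-- point masses of the length -/
theorem main_pt (hx : 0 < x) (hn : 0 < n)
    (hdis : ∀ c ∈ Cs, ∀ c' ∈ Cs, c ≠ c' → Disjoint (fl c) (fl c'))
    (hD : Dob (Cs.biUnion fl) τ a b) (hV : Q.C * V.card ≤ dst a b) (F : Spin → ℝ)
    (hF : ∀ σ ∈ Cf (Cs.biUnion fl) τ, ∀ q ∈ Sl Cs V a σ, F (fp σ q) = F σ)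
    (hF1 : ∀ σ ∈ Cf (Cs.biUnion fl) τ, |F σ| ≤ 1) (k : ℕ) (l : ℤ) :
    |mn x n (Cs.biUnion fl) τ (fun σ => F σ * ∑ i ∈ range (k + 1), (-1 : ℝ) ^ i *
      (k.choose i : ℝ) * (if (len (Cs.biUnion fl) σ a : ℤ) + 2 * i = l then 1 else 0))| ≤
      Q.A (k + 1) * (mn x n (Cs.biUnion fl) τ
        (fun σ => |F σ| / Real.sqrt ((len (Cs.biUnion fl) σ a : ℝ) + 1) ^ (k + 1)) +
        Real.exp (-(dst a b / Q.C))) := by
  have h := main_len (Q := Q) hx hn hdis hD hV F hF hF1 (k + 1)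
    (fun z => if z ≤ l ∧ z % 2 = l % 2 then 1 else 0) (fun z => by
      split_ifs <;> norm_num)
  refine le_trans (le_of_eq ?_) h
  congr 1
  refine mn_congr fun σ _ => ?_
  congr 1
  exact (dif_ind k l (len (Cs.biUnion fl) σ a : ℤ)).symm

end

end Pool.Agent.V7H98.ON
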