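import Mathlib
import Pool.Agent.V7H98.ON.Main

/-!
# Atoms and variance of the length
-/

set_option autoImplicit false

namespace Pool.Agent.V7H98.ON

open Equiv.Perm Finset
open scoped Classical

section

variable {x n : ℝ} {Q : Cst x n} {Cs : Finset (ℤ × ℤ)} {τ : Spin} {a b : Edg}

theorem exp_sqrt {t C : ℝ} (ht : 0 ≤ t) (hC : 1 ≤ C) :
    Real.exp (-(t / C)) ≤ Real.sqrt C / Real.sqrt (t + 1) := by
  have h0 : 0 < t + 1 := by linarith
  rw [le_div_iff₀ (Real.sqrt_pos.2 h0)]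
  have h1 : Real.exp (-(t / C)) = Real.sqrt (Real.exp (-(2 * t / C))) := by
    rw [show -(2 * t / C) = -(t / C) + -(t / C) by ring, Real.exp_add,
      Real.sqrt_mul_self (Real.exp_pos _).le]
  rw [h1, ← Real.sqrt_mul (Real.exp_pos _).le]
  refine Real.sqrt_le_sqrt ?_
  rw [Real.exp_neg, inv_mul_le_iff₀ (Real.exp_pos _)]
  have h2 := Real.add_one_le_exp (2 * t / C)
  have h3 : t + 1 ≤ (2 * t / C + 1) * C := by
    have : (2 * t / C + 1) * C = 2 * t + C := by field_simp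
    rw [this]
    linarith
  exact h3.trans (mul_le_mul_of_nonneg_right h2 (by linarith))

/-- the constant for the atoms -/
noncomputable def Cst.B (Q : Cst x n) : ℝ := Q.A 1 * (Real.sqrt 2 + Real.sqrt Q.C) + 1

theorem Cst.B_ge (Q : Cst x n) (hx : 0 < x) : 1 ≤ Q.B := by
  have := Q.A_pos hx 1
  unfold Cst.B
  have h2 : 0 ≤ Q.A 1 * (Real.sqrt 2 + Real.sqrt Q.C) := by positivity
  linarith

/-- atoms -/
theorem atom (hx : 0 < x) (hn : 0 < n)
    (hdis : ∀ c ∈ Cs, ∀ c' ∈ Cs, c ≠ c' → Disjoint (fl c) (fl c'))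
    (hD : Dob (Cs.biUnion fl) τ a b) (l : ℤ) :
    mn x n (Cs.biUnion fl) τ (fun σ => if (len (Cs.biUnion fl) σ a : ℤ) = l then 1 else 0) ≤
      Q.B / Real.sqrt ((dst a b : ℝ) + 1) := by
  have hd := dst_nonneg a b
  have hA := Q.A_pos hx 1
  have hC := (Q.bounds hx).1
  have h := main_pt (Q := Q) (V := ∅) hx hn hdis hD (by simpa using hd) (fun _ => 1)
    (fun _ _ _ _ => rfl) (fun _ _ => by simp) 0 l
  have e : (fun σ => (fun _ : Spin => (1 : ℝ)) σ * ∑ i ∈ range (0 + 1), (-1 : ℝ) ^ i *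
      ((0 : ℕ).choose i : ℝ) * (if (len (Cs.biUnion fl) σ a : ℤ) + 2 * i = l then 1 else 0)) =
      fun σ => if (len (Cs.biUnion fl) σ a : ℤ) = l then (1 : ℝ) else 0 := by
    funext σ
    simp
  rw [e] at h
  refine (le_abs_self _).trans (h.trans ?_)
  have h0 : (0 : ℝ) < (dst a b : ℝ) + 1 := by linarith
  have h1 : mn x n (Cs.biUnion fl) τ (fun σ => |(1 : ℝ)| /
      Real.sqrt ((len (Cs.biUnion fl) σ a : ℝ) + 1) ^ (0 + 1)) ≤
      Real.sqrt 2 / Real.sqrt ((dst a b : ℝ) + 1) := by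
    refine (mn_mono hx hn (g := fun _ => Real.sqrt 2 / Real.sqrt ((dst a b : ℝ) + 1) * 1)
      fun σ hσ => ?_).trans (by rw [mn_const_mul, mn_one hx hn, mul_one])
    have h2 := hD.len_ge hσ
    have h3 : (dst a b : ℝ) ≤ len (Cs.biUnion fl) σ a + 1 := by exact_mod_cast h2
    have h4 : (0 : ℝ) ≤ len (Cs.biUnion fl) σ a := Nat.cast_nonneg _
    rw [abs_one, zero_add, pow_one, mul_one, div_le_div_iff₀ (Real.sqrt_pos.2 (by linarith))
      (Real.sqrt_pos.2 h0), one_mul, ← Real.sqrt_mul (by norm_num)]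
    exact Real.sqrt_le_sqrt (by linarith)
  have h2 := exp_sqrt hd hC
  calc Q.A (0 + 1) * (mn x n (Cs.biUnion fl) τ (fun σ => |(1 : ℝ)| /
      Real.sqrt ((len (Cs.biUnion fl) σ a : ℝ) + 1) ^ (0 + 1)) + Real.exp (-(dst a b / Q.C))) ≤
      Q.A 1 * (Real.sqrt 2 / Real.sqrt ((dst a b : ℝ) + 1) +
        Real.sqrt Q.C / Real.sqrt ((dst a b : ℝ) + 1)) :=
        mul_le_mul_of_nonneg_left (add_le_add h1 h2) hA.le
    _ = Q.A 1 * (Real.sqrt 2 + Real.sqrt Q.C) / Real.sqrt ((dst a b : ℝ) + 1) := by ring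
    _ ≤ _ := by
        refine div_le_div_of_nonneg_right ?_ (Real.sqrt_nonneg _)
        unfold Cst.B
        linarith

theorem mn_sum {D : Finset (ℤ × ℤ)} {ι : Type*} (S : Finset ι) (f : ι → Spin → ℝ) :
    mn x n D τ (fun σ => ∑ i ∈ S, f i σ) = ∑ i ∈ S, mn x n D τ (f i) := by
  unfold mn
  rw [← sum_div, sum_comm]
  congr 1
  exact sum_congr rfl fun σ _ => mul_sum _ _ _

/-- variance -/
theorem variance (hx : 0 < x) (hn : 0 < n)
    (hdis : ∀ c ∈ Cs, ∀ c' ∈ Cs, c ≠ c' → Disjoint (fl c) (fl c'))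
    (hD : Dob (Cs.biUnion fl) τ a b) (hR : 128 * Q.B ^ 2 ≤ dst a b) (t : ℝ) :
    (dst a b : ℝ) / (128 * Q.B ^ 2) ≤
      mn x n (Cs.biUnion fl) τ (fun σ => ((len (Cs.biUnion fl) σ a : ℝ) - t) ^ 2) := by
  have hB := Q.B_ge hx
  have hd := dst_nonneg a b
  obtain ⟨R, hRdef⟩ : ∃ R : ℝ, R = Real.sqrt ((dst a b : ℝ) + 1) := ⟨_, rfl⟩
  have hR2 : R ^ 2 = (dst a b : ℝ) + 1 := by rw [hRdef, Real.sq_sqrt (by linarith)]
  have hR0 : 0 < R := by rw [hRdef]; exact Real.sqrt_pos.2 (by linarith)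
  have hRB : 4 * Q.B ≤ R := by
    refine abs_le_of_sq_le_sq' ?_ hR0.le |>.2
    rw [hR2]
    nlinarith
  obtain ⟨s, hs⟩ : ∃ s : ℝ, s = R / (8 * Q.B) := ⟨_, rfl⟩
  have hs0 : 0 < s := by rw [hs]; positivity
  have h1 : mn x n (Cs.biUnion fl) τ
      (fun σ => if |(len (Cs.biUnion fl) σ a : ℝ) - t| < s then (1 : ℝ) else 0) ≤ 1 / 2 := by
    have h2 : mn x n (Cs.biUnion fl) τ
        (fun σ => if |(len (Cs.biUnion fl) σ a : ℝ) - t| < s then (1 : ℝ) else 0) ≤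
        mn x n (Cs.biUnion fl) τ (fun σ => ∑ l ∈ Finset.Icc ⌈t - s⌉ ⌊t + s⌋,
          if (len (Cs.biUnion fl) σ a : ℤ) = l then (1 : ℝ) else 0) := by
      refine mn_mono hx hn fun σ _ => ?_
      rw [sum_ite_eq]
      split_ifs with h3 h4 h4
      · exact le_rfl
      · exfalso
        apply h4
        rw [abs_lt] at h3
        rw [Finset.mem_Icc, Int.ceil_le, Int.le_floor]
        push_cast
        constructor <;> linarith
      · exact zero_le_one
      · exact le_rfl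
    refine h2.trans ?_
    rw [mn_sum]
    refine (sum_le_sum fun l _ => atom (Q := Q) hx hn hdis hD l).trans ?_
    rw [sum_const, nsmul_eq_mul, ← hRdef, Int.card_Icc]
    have h5 : (((⌊t + s⌋ + 1 - ⌈t - s⌉).toNat : ℕ) : ℝ) ≤ 2 * s + 1 := by
      have h6 := Int.floor_le (t + s)
      have h7 := Int.le_ceil (t - s)
      rcases le_total 0 (⌊t + s⌋ + 1 - ⌈t - s⌉) with h8 | h8
      · have h9 : (((⌊t + s⌋ + 1 - ⌈t - s⌉).toNat : ℕ) : ℝ) =
            ((⌊t + s⌋ + 1 - ⌈t - s⌉ : ℤ) : ℝ) := by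
          have := Int.toNat_of_nonneg h8
          exact_mod_cast this
        rw [h9]
        push_cast
        linarith
      · rw [Int.toNat_of_nonpos h8, Nat.cast_zero]
        linarith
    calc (((⌊t + s⌋ + 1 - ⌈t - s⌉).toNat : ℕ) : ℝ) * (Q.B / R) ≤ (2 * s + 1) * (Q.B / R) :=
          mul_le_mul_of_nonneg_right h5 (by positivity)
      _ = 1 / 4 + Q.B / R := by
          rw [hs]
          field_simp
          ring
      _ ≤ 1 / 4 + 1 / 4 := by
          refine add_le_add le_rfl ?_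
          rw [div_le_div_iff₀ hR0 (by norm_num)]
          linarith
      _ = 1 / 2 := by norm_num
  have h2 : mn x n (Cs.biUnion fl) τ (fun _ => s ^ 2 * 1) ≤
      mn x n (Cs.biUnion fl) τ (fun σ => ((len (Cs.biUnion fl) σ a : ℝ) - t) ^ 2 +
        s ^ 2 * (if |(len (Cs.biUnion fl) σ a : ℝ) - t| < s then (1 : ℝ) else 0)) := by
    refine mn_mono hx hn fun σ _ => ?_
    split_ifs with h3
    · have := sq_nonneg ((len (Cs.biUnion fl) σ a : ℝ) - t)
      linarith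
    · rw [not_lt] at h3
      have h4 : s ^ 2 ≤ |(len (Cs.biUnion fl) σ a : ℝ) - t| ^ 2 := pow_le_pow_left₀ hs0.le h3 2
      rw [sq_abs] at h4
      linarith
  rw [mn_const_mul, mn_one hx hn, mn_add, mn_const_mul] at h2
  have h3 : s ^ 2 * mn x n (Cs.biUnion fl) τ
      (fun σ => if |(len (Cs.biUnion fl) σ a : ℝ) - t| < s then (1 : ℝ) else 0) ≤
      s ^ 2 * (1 / 2) := mul_le_mul_of_nonneg_left h1 (by positivity)
  have h4 : (dst a b : ℝ) / (128 * Q.B ^ 2) ≤ s ^ 2 * (1 / 2) := by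
    rw [hs, div_pow, hR2, mul_pow]
    rw [div_mul_eq_mul_div, div_le_div_iff₀ (by positivity) (by positivity)]
    nlinarith [sq_nonneg Q.B]
  linarith

end

end Pool.Agent.V7H98.ON
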