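import Mathlib
import Pool.Agent.V7H98.ON.Cor

/-!
# The second moments, and the path step by step
-/

set_option autoImplicit false

namespace Pool.Agent.V7H98.ON

open Equiv.Perm Finset
open scoped Classical

section

variable {D : Finset (ℤ × ℤ)} {τ σ : Spin} {a b : Edg}

/-- every edge of the strand in `D` is met by the path before `b` -/
theorem Dob.strand' (h : Dob D τ a b) (hσ : σ ∈ Cf D τ) {i0 : ℕ}
    (hi1 : 1 ≤ i0) (hi2 : ps σ a i0 = b) {e : Edg}
    (he : e ∈ St D σ a) : ∃ j : ℕ, 1 ≤ j ∧ j < i0 ∧ ps σ a j = e := by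
  have hw := h.wlσ hσ
  have heD : e ∈ ED D := (mem_filter.1 he).1
  have hex : ∃ j, ps σ a j = e := h.strand hσ he
  have h2 := Nat.find_spec hex
  have hmin : ∀ l, l < Nat.find hex → ps σ a l ≠ e := fun l hl => Nat.find_min hex hl
  generalize Nat.find hex = j at h2 hmin
  have hj1 : 1 ≤ j := by
    by_contra hcon
    have : j = 0 := by omega
    subst this
    rw [ps_zero] at h2
    exact h.a_out (by rw [h2]; exact heD)
  refine ⟨j, hj1, ?_, h2⟩
  by_contra hcon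
  rw [not_lt] at hcon
  -- the last exit before `j`
  obtain ⟨r, hr⟩ := Nat.exists_eq_add_of_le hcon
  have hex2 : ∃ m, m ≤ r ∧ ps σ a (i0 + (r - m)) ∉ ED D :=
    ⟨r, le_rfl, by rw [Nat.sub_self, add_zero, hi2]; exact h.b_out⟩
  obtain ⟨h3, h4⟩ := Nat.find_spec hex2
  have hmin2 : ∀ l, l < Nat.find hex2 → ¬ (l ≤ r ∧ ps σ a (i0 + (r - l)) ∉ ED D) :=
    fun l hl => Nat.find_min hex2 hl
  generalize Nat.find hex2 = m at h3 h4 hmin2
  have hm1 : 1 ≤ m := by
    by_contra hcon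
    have : m = 0 := by omega
    subst this
    rw [Nat.sub_zero, ← hr, h2] at h4
    exact h4 heD
  have h5 : ps σ a (i0 + (r - (m - 1))) ∈ ED D := by
    have := hmin2 (m - 1) (by omega)
    by_contra hc
    exact this ⟨by omega, hc⟩
  have h6 : i0 + (r - (m - 1)) = (i0 + (r - m)) + 1 := by omega
  rw [h6, ps_succ] at h5
  have h7 := h.enter hσ (wl_ps hw _) h4 h5
  have h8 : ps σ a 0 = ps σ a (i0 + (r - m)) := by rw [ps_zero, h7]
  have h9 : ps σ a (j - (i0 + (r - m))) = ps σ a j := by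
    have e1 : j = (i0 + (r - m)) + (j - (i0 + (r - m))) := by omega
    conv_rhs => rw [e1]
    unfold ps at h8 ⊢
    rw [add_comm (i0 + (r - m)), pow_add, Equiv.Perm.mul_apply, ← h8]
    rfl
  exact hmin (j - (i0 + (r - m))) (by omega) (by rw [h9, h2])

/-- the path step by step -/
theorem Dob.steps (h : Dob D τ a b) (hσ : σ ∈ Cf D τ) :
    ps σ a (len D σ a + 1) = b ∧ St D σ a = (Finset.Icc 1 (len D σ a)).image (ps σ a) := by
  obtain ⟨i0, h1, h2, h3⟩ := h.path hσ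
  have e1 : St D σ a = (Finset.Ico 1 i0).image (ps σ a) := by
    ext e
    rw [mem_image]
    constructor
    · intro he
      obtain ⟨j, hj1, hj2, hj3⟩ := h.strand' hσ h1 h2 he
      exact ⟨j, mem_Ico.2 ⟨hj1, hj2⟩, hj3⟩
    · rintro ⟨j, hj, rfl⟩
      rw [mem_Ico] at hj
      rw [St, mem_filter]
      exact ⟨h3 j hj.1 hj.2, ⟨j, by rw [zpow_natCast]; rfl⟩⟩
  have e2 : len D σ a = i0 - 1 := by
    rw [len, e1, card_image_of_injOn, Nat.card_Ico]
    intro i hi j hj hij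
    rw [mem_coe, mem_Ico] at hi hj
    by_contra hne
    rcases Nat.lt_or_gt_of_ne hne with hlt | hlt
    · have h8 := ps_sub hlt.le hij
      have h9 := h3 (j - i) (by omega) (by omega)
      rw [h8] at h9
      exact h.a_out h9
    · have h8 := ps_sub hlt.le hij.symm
      have h9 := h3 (i - j) (by omega) (by omega)
      rw [h8] at h9
      exact h.a_out h9
  refine ⟨by rw [e2, Nat.sub_add_cancel h1, h2], ?_⟩
  rw [e2, e1]
  congr 1

end

/-! ### second moments of binomial variables -/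

theorem pas (y : ℝ) (N : ℕ) (f : ℕ → ℝ) :
    ∑ j ∈ range (N + 2), ((N + 1).choose j : ℝ) * y ^ j * f j =
      ∑ j ∈ range (N + 1), (N.choose j : ℝ) * y ^ j * f j +
        y * ∑ j ∈ range (N + 1), (N.choose j : ℝ) * y ^ j * f (j + 1) := by
  have h1 : ∑ j ∈ range (N + 1), (N.choose j : ℝ) * y ^ j * f j =
      ∑ j ∈ range (N + 1), (N.choose (j + 1) : ℝ) * y ^ (j + 1) * f (j + 1) + f 0 := by
    have h2 : ∑ j ∈ range (N + 2), (N.choose j : ℝ) * y ^ j * f j =
        ∑ j ∈ range (N + 1), (N.choose j : ℝ) * y ^ j * f j := by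
      rw [sum_range_succ, Nat.choose_succ_self]
      simp
    rw [← h2, sum_range_succ']
    simp
  rw [sum_range_succ', h1, mul_sum]
  have h3 : ∀ j ∈ range (N + 1), ((N + 1).choose (j + 1) : ℝ) * y ^ (j + 1) * f (j + 1) =
      (N.choose (j + 1) : ℝ) * y ^ (j + 1) * f (j + 1) +
        y * ((N.choose j : ℝ) * y ^ j * f (j + 1)) := by
    intro j _
    rw [Nat.choose_succ_succ]
    push_cast
    ring
  rw [sum_congr rfl h3, sum_add_distrib]
  simp
  ring

theorem mom {y p : ℝ} (hp : p * (1 + y) = y) (A : ℝ) (N : ℕ) : ∀ t : ℝ,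
    ∑ j ∈ range (N + 1), (N.choose j : ℝ) * y ^ j * (A * j - t) ^ 2 =
      (1 + y) ^ N * ((A * N * p - t) ^ 2 + A ^ 2 * N * (p * (1 - p))) := by
  induction N with
  | zero => intro t; simp
  | succ N ih =>
    intro t
    rw [pas y N (fun j => (A * j - t) ^ 2), ih t]
    have h1 : ∑ j ∈ range (N + 1), (N.choose j : ℝ) * y ^ j * (A * ((j + 1 : ℕ) : ℝ) - t) ^ 2 =
        ∑ j ∈ range (N + 1), (N.choose j : ℝ) * y ^ j * (A * j - (t - A)) ^ 2 := by
      refine sum_congr rfl fun j _ => ?_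
      push_cast
      ring
    rw [h1, ih (t - A)]
    push_cast
    rw [pow_succ]
    linear_combination (-(1 + y) ^ N * (2 * (A * N * p - t) * A + A ^ 2)) * hp

/-- the second moment of a linear combination -/
theorem bb_sq {y : ℝ} (hy : 0 < y) (α β t : ℝ) (N M : ℕ) :
    4 * cy y * (α ^ 2 + β ^ 2) * (min N M : ℕ) * (1 + y) ^ (N + M) ≤
      bb y N M (fun z => (α * z.1 + β * z.2 - t) ^ 2) := by
  obtain ⟨p, hpd⟩ : ∃ p : ℝ, p = y / (1 + y) := ⟨_, rfl⟩
  have hy1 : (0 : ℝ) < 1 + y := by linarith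
  have hp : p * (1 + y) = y := by rw [hpd]; field_simp
  have hcy : cy y = 2 * (p * (1 - p)) := by
    rw [hpd]
    unfold cy
    field_simp
    ring
  have h0 : bb y N M (fun z => (α * z.1 + β * z.2 - t) ^ 2) =
      ∑ j ∈ range (N + 1), (N.choose j : ℝ) * y ^ j *
        (∑ i ∈ range (M + 1), (M.choose i : ℝ) * y ^ i *
          (2 * (α - β) * i - (t - 2 * (α + β) * j)) ^ 2) := by
    unfold bb
    refine sum_congr rfl fun j _ => ?_
    rw [mul_sum]
    refine sum_congr rfl fun i _ => ?_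
    rw [pow_add]
    push_cast
    ring
  have h1 : bb y N M (fun z => (α * z.1 + β * z.2 - t) ^ 2) =
      (1 + y) ^ M * (∑ j ∈ range (N + 1), (N.choose j : ℝ) * y ^ j *
        (2 * (α + β) * j - (t - 2 * (α - β) * M * p)) ^ 2) +
      (1 + y) ^ M * ((2 * (α - β)) ^ 2 * M * (p * (1 - p))) *
        ∑ j ∈ range (N + 1), (N.choose j : ℝ) * y ^ j := by
    rw [h0, mul_sum, mul_sum, ← sum_add_distrib]
    refine sum_congr rfl fun j _ => ?_
    rw [mom hp]
    ring
  have h2 : ∑ j ∈ range (N + 1), (N.choose j : ℝ) * y ^ j = (1 + y) ^ N := by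
    have := add_pow y 1 N
    rw [add_comm y 1] at this
    rw [this]
    refine sum_congr rfl fun j _ => ?_
    rw [one_pow]
    ring
  rw [h1, mom hp, h2, hcy, pow_add]
  have hpp : 0 ≤ p * (1 - p) := by
    have := cy_pos hy
    linarith
  have hN : ((min N M : ℕ) : ℝ) ≤ N := by exact_mod_cast min_le_left N M
  have hM : ((min N M : ℕ) : ℝ) ≤ M := by exact_mod_cast min_le_right N M
  set m : ℝ := ((min N M : ℕ) : ℝ)
  set P := p * (1 - p)
  have e1 : (α ^ 2 + β ^ 2) * m * 2 ≤ (α + β) ^ 2 * N + (α - β) ^ 2 * M := by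
    have g1 := mul_le_mul_of_nonneg_left hN (sq_nonneg (α + β))
    have g2 := mul_le_mul_of_nonneg_left hM (sq_nonneg (α - β))
    nlinarith
  have e2 := mul_le_mul_of_nonneg_left e1 hpp
  have e3 : 0 ≤ (2 * (α + β) * N * p - (t - 2 * (α - β) * M * p)) ^ 2 := sq_nonneg _
  have hq : 0 < (1 + y) ^ N * (1 + y) ^ M := by positivity
  have e4 : 4 * (2 * P) * (α ^ 2 + β ^ 2) * m ≤
      (2 * (α + β) * N * p - (t - 2 * (α - β) * M * p)) ^ 2 +
        (2 * (α + β)) ^ 2 * N * P + (2 * (α - β)) ^ 2 * M * P := by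
    nlinarith
  have e5 := mul_le_mul_of_nonneg_right e4 hq.le
  refine e5.trans (le_of_eq ?_)
  ring

/-! ### the general mixture formula and the second moments -/

section

variable {Cs D V : Finset (ℤ × ℤ)} {τ : Spin} {a : Edg}

/-- the mixture formula for functionals with values in any type -/
theorem mixg (h : Setup Cs D τ a) {x : ℝ} (hx : 0 < x) (n : ℝ) {β : Type} (F : Spin → β)
    (hF : ∀ σ ∈ Cf D τ, ∀ q ∈ Sl Cs V a σ, F (fp σ q) = F σ)
    (g : β → ℤ × ℤ → ℕ × ℕ → ℤ × ℤ → ℝ) :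
    ∑ σ ∈ Cf D τ, wt x n D σ * g (F σ) (uu Cs D V a σ) (NN Cs V a σ) (LA D a σ) =
      ∑ σ ∈ Cf D τ, wt x n D σ * (bb (x ^ 2) (NN Cs V a σ).1 (NN Cs V a σ).2
        (fun z => g (F σ) (uu Cs D V a σ) (NN Cs V a σ) (uu Cs D V a σ + z)) /
          (1 + x ^ 2) ^ ((NN Cs V a σ).1 + (NN Cs V a σ).2)) := by
  have hx2 : 0 < x ^ 2 := by positivity
  obtain ⟨K, hK⟩ : ∃ K : Spin → ℝ × β × (ℤ × ℤ) × (ℤ × ℤ → Fin 2) × Finset (ℤ × ℤ),
    K = fun σ => (gg x n Cs D V a σ, F σ, uu Cs D V a σ, ty Cs σ, Sl Cs V a σ) := ⟨_, rfl⟩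
  have hm := Pool.Agent.N949.AD.mixw (Cf D τ) (fun σ => Sl Cs V a σ) (fun σ => On Cs V a σ) fp
    (fun σ _ => filter_subset _ _)
    (fun σ hσ q hq => ⟨fp_mem h hσ (Sl_pat hq).1, Sl_fp h hq, fp_fp σ q,
      fun hon => by
        refine (On_erase h hq hon).trans ?_
        ext c
        simp only [mem_erase],
      fun hoff => by
        refine (On_insert h hq hoff).trans ?_
        ext c
        simp only [mem_insert]⟩)
    K (fun σ hσ q hq => by
      rw [hK]
      simp only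
      rw [(inv_all h hσ hq hx n).1, (inv_all h hσ hq hx n).2, hF σ hσ q hq,
        ty_fp h (Sl_pat hq).1, Sl_fp h hq])
    hx2 (fun k => k.1) (fun k T => g k.2.1 k.2.2.1
      ((k.2.2.2.2.filter fun q => k.2.2.2.1 q = 0).card,
        (k.2.2.2.2.filter fun q => k.2.2.2.1 q = 1).card) (k.2.2.1 + ∑ q ∈ T, v2 (k.2.2.2.1 q)))
  have hw : ∀ σ, (K σ).1 * (x ^ 2) ^ (On Cs V a σ).card = wt x n D σ := by
    intro σ
    rw [hK]
    show wt x n D σ / (x ^ 2) ^ (On Cs V a σ).card * _ = _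
    exact div_mul_cancel₀ _ (by positivity)
  simp only [hw] at hm
  refine Eq.trans ?_ (hm.trans ?_)
  · refine sum_congr rfl fun σ _ => ?_
    rw [hK]
    simp only
    congr 2
    unfold uu
    abel
  · refine sum_congr rfl fun σ _ => ?_
    congr 1
    rw [← NN_add σ, hK]
    simp only
    have h2 := two_types (Sl Cs V a σ) (ty Cs σ) (x ^ 2) (uu Cs D V a σ)
      (fun z => g (F σ) (uu Cs D V a σ) (NN Cs V a σ) z)
    unfold NN at h2 ⊢
    rw [h2]

end

section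

variable {x n : ℝ} {Q : Cst x n} {Cs V : Finset (ℤ × ℤ)} {τ : Spin} {a b : Edg}

theorem mn_nonneg (hx : 0 < x) (hn : 0 < n) {D : Finset (ℤ × ℤ)} {f : Spin → ℝ}
    (h : ∀ σ ∈ Cf D τ, 0 ≤ f σ) : 0 ≤ mn x n D τ f := by
  unfold mn
  refine div_nonneg (sum_nonneg fun σ hσ => ?_) (Z_pos hx hn D τ).le
  exact mul_nonneg (wt_pos hx hn D σ).le (h σ hσ)

/-- the length on the event of few switches -/
theorem few_len (hx : 0 < x) (hn : 0 < n)
    (hdis : ∀ c ∈ Cs, ∀ c' ∈ Cs, c ≠ c' → Disjoint (fl c) (fl c'))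
    (hD : Dob (Cs.biUnion fl) τ a b) (hV : Q.C * V.card ≤ dst a b) :
    mn x n (Cs.biUnion fl) τ (fun σ => if Q.C *
      (min (NN Cs V a σ).1 (NN Cs V a σ).2 : ℕ) < len (Cs.biUnion fl) σ a then
        (len (Cs.biUnion fl) σ a : ℝ) else 0) ≤ 12 * Q.C * Real.exp (-(dst a b / (2 * Q.C))) := by
  obtain ⟨g1, _, _, _, _⟩ := Q.bounds hx
  have hC : 0 < Q.C := by linarith
  have h1 := few_exp (Q := Q) hx hn hdis hD hV
  have h3 : mn x n (Cs.biUnion fl) τ (fun σ => if Q.C *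
      (min (NN Cs V a σ).1 (NN Cs V a σ).2 : ℕ) < len (Cs.biUnion fl) σ a then
        (len (Cs.biUnion fl) σ a : ℝ) else 0) ≤
      mn x n (Cs.biUnion fl) τ (fun σ => 6 * Q.C * Real.exp (-(dst a b / (2 * Q.C))) *
        (if Q.C * (min (NN Cs V a σ).1 (NN Cs V a σ).2 : ℕ) < len (Cs.biUnion fl) σ a then
          Real.exp (len (Cs.biUnion fl) σ a / Q.C) else 0)) := by
    refine mn_mono hx hn fun σ hσ => ?_
    split_ifs with h4
    · have h5 := hD.len_ge hσ
      have h6 : (dst a b : ℝ) ≤ len (Cs.biUnion fl) σ a + 1 := by exact_mod_cast h5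
      set L : ℝ := (len (Cs.biUnion fl) σ a : ℝ)
      have e1 : L ≤ 2 * Q.C * Real.exp (L / (2 * Q.C)) := by
        have h7 := Real.add_one_le_exp (L / (2 * Q.C))
        have h8 : L / (2 * Q.C) ≤ Real.exp (L / (2 * Q.C)) := by linarith
        rw [div_le_iff₀ (by positivity)] at h8
        linarith
      have e2 : Real.exp (L / (2 * Q.C)) ≤
          3 * (Real.exp (-(dst a b / (2 * Q.C))) * Real.exp (L / Q.C)) := by
        have h9 : Real.exp (L / (2 * Q.C)) ≤
            Real.exp 1 * (Real.exp (-(dst a b / (2 * Q.C))) * Real.exp (L / Q.C)) := by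
          rw [← Real.exp_add, ← Real.exp_add]
          apply Real.exp_le_exp.2
          have h10 : (dst a b : ℝ) / (2 * Q.C) ≤ L / (2 * Q.C) + 1 := by
            rw [div_le_iff₀ (by positivity)]
            have : (L / (2 * Q.C) + 1) * (2 * Q.C) = L + 2 * Q.C := by field_simp
            rw [this]
            linarith
          have h11 : L / Q.C = L / (2 * Q.C) + L / (2 * Q.C) := by field_simp; ring
          rw [h11]
          linarith
        refine h9.trans (mul_le_mul_of_nonneg_right ?_ (by positivity))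
        have := Real.exp_one_lt_d9
        linarith
      have e3 := mul_le_mul_of_nonneg_left e2 (show 0 ≤ 2 * Q.C by positivity)
      linarith
    · rw [mul_zero]
  rw [mn_const_mul] at h3
  refine h3.trans ?_
  have h4 := mul_le_mul_of_nonneg_left h1
    (show 0 ≤ 6 * Q.C * Real.exp (-(dst a b / (2 * Q.C))) by positivity)
  linarith

/-- the constant for the second moments -/
noncomputable def Cst.E (Q : Cst x n) : ℝ := 12 * Q.C + Q.C / (4 * cy (x ^ 2))

theorem second (hx : 0 < x) (hn : 0 < n)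
    (hdis : ∀ c ∈ Cs, ∀ c' ∈ Cs, c ≠ c' → Disjoint (fl c) (fl c'))
    (hD : Dob (Cs.biUnion fl) τ a b) (hV : Q.C * V.card ≤ dst a b) (F H : Spin → ℝ)
    (hF : ∀ σ ∈ Cf (Cs.biUnion fl) τ, ∀ q ∈ Sl Cs V a σ, F (fp σ q) = F σ)
    (hH : ∀ σ ∈ Cf (Cs.biUnion fl) τ, ∀ q ∈ Sl Cs V a σ, H (fp σ q) = H σ)
    (hF1 : ∀ σ ∈ Cf (Cs.biUnion fl) τ, |F σ| ≤ 1) (α β : ℝ) :
    (α ^ 2 + β ^ 2) * (mn x n (Cs.biUnion fl) τ
      (fun σ => |F σ| * (len (Cs.biUnion fl) σ a : ℝ)) - Q.E * Real.exp (-(dst a b / Q.E))) ≤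
      Q.E * mn x n (Cs.biUnion fl) τ (fun σ => |F σ| * (α * (len (Cs.biUnion fl) σ a : ℝ) +
        β * (ar (Cs.biUnion fl) σ a : ℝ) - H σ) ^ 2) := by
  have hy : 0 < x ^ 2 := by positivity
  have hc := cy_pos hy
  obtain ⟨g1, _, _, _, _⟩ := Q.bounds hx
  have hC : 0 < Q.C := by linarith
  have hd := dst_nonneg a b
  set D := Cs.biUnion fl with hDd
  have hS := setup_of hdis hD
  have hm := mixg (V := V) hS hx n (fun σ => (|F σ|, H σ))
    (fun σ hσ q hq => by
      show (|F (fp σ q)|, H (fp σ q)) = (|F σ|, H σ)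
      rw [hF σ hσ q hq, hH σ hσ q hq])
    (fun f _ _ z => f.1 * (α * z.1 + β * z.2 - f.2) ^ 2)
  have h1 : mn x n D τ (fun σ => 4 * cy (x ^ 2) * (α ^ 2 + β ^ 2) *
      (|F σ| * (min (NN Cs V a σ).1 (NN Cs V a σ).2 : ℕ))) ≤
      mn x n D τ (fun σ => |F σ| * (α * (len D σ a : ℝ) + β * (ar D σ a : ℝ) - H σ) ^ 2) := by
    have e1 : mn x n D τ (fun σ => |F σ| * (α * (len D σ a : ℝ) + β * (ar D σ a : ℝ) -
        H σ) ^ 2) = mn x n D τ (fun σ => bb (x ^ 2) (NN Cs V a σ).1 (NN Cs V a σ).2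
        (fun z => |F σ| * (α * ((uu Cs D V a σ + z).1 : ℤ) + β * ((uu Cs D V a σ + z).2 : ℤ) -
          H σ) ^ 2) / (1 + x ^ 2) ^ ((NN Cs V a σ).1 + (NN Cs V a σ).2)) := by
      unfold mn
      rw [← hm]
      rfl
    rw [e1]
    refine mn_mono hx hn fun σ _ => ?_
    rw [le_div_iff₀ (by positivity)]
    have e2 := bb_sq hy α β (H σ - α * (uu Cs D V a σ).1 - β * (uu Cs D V a σ).2)
      (NN Cs V a σ).1 (NN Cs V a σ).2
    have e3 := mul_le_mul_of_nonneg_left e2 (abs_nonneg (F σ))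
    refine le_trans (le_of_eq ?_) (e3.trans (le_of_eq ?_))
    · ring
    · unfold bb
      rw [mul_sum]
      refine sum_congr rfl fun j _ => ?_
      rw [mul_sum]
      refine sum_congr rfl fun i _ => ?_
      simp only [Prod.fst_add, Prod.snd_add]
      push_cast
      ring
  rw [mn_const_mul] at h1
  have h2 : mn x n D τ (fun σ => |F σ| * (len D σ a : ℝ)) ≤
      mn x n D τ (fun σ => Q.C * (|F σ| * (min (NN Cs V a σ).1 (NN Cs V a σ).2 : ℕ)) +
        if Q.C * (min (NN Cs V a σ).1 (NN Cs V a σ).2 : ℕ) < len D σ a then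
          (len D σ a : ℝ) else 0) := by
    refine mn_mono hx hn fun σ hσ => ?_
    have e1 := hF1 σ hσ
    have e2 := abs_nonneg (F σ)
    have e3 : (0 : ℝ) ≤ len D σ a := Nat.cast_nonneg _
    have e4 : (0 : ℝ) ≤ (min (NN Cs V a σ).1 (NN Cs V a σ).2 : ℕ) := Nat.cast_nonneg _
    split_ifs with h3
    · have e5 := mul_le_mul_of_nonneg_right e1 e3
      have e6 : 0 ≤ Q.C * (|F σ| * (min (NN Cs V a σ).1 (NN Cs V a σ).2 : ℕ)) := by positivity
      linarith
    · rw [not_lt] at h3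
      have e5 := mul_le_mul_of_nonneg_left h3 e2
      linarith
  rw [mn_add, mn_const_mul] at h2
  have h3 := few_len (Q := Q) (V := V) hx hn hdis hD hV
  set M1 := mn x n D τ (fun σ => |F σ| * (len D σ a : ℝ))
  set M2 := mn x n D τ (fun σ => |F σ| * (min (NN Cs V a σ).1 (NN Cs V a σ).2 : ℕ))
  set M3 := mn x n D τ (fun σ => |F σ| * (α * (len D σ a : ℝ) + β * (ar D σ a : ℝ) - H σ) ^ 2)
    with hM3
  have hM30 : 0 ≤ M3 := mn_nonneg hx hn fun σ _ => by positivity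
  have hE12 : 12 * Q.C ≤ Q.E := by
    unfold Cst.E
    have : 0 < Q.C / (4 * cy (x ^ 2)) := by positivity
    linarith
  have hEC : Q.C / (4 * cy (x ^ 2)) ≤ Q.E := by
    unfold Cst.E
    linarith
  have hE0 : 0 < Q.E := by linarith
  have hexp : 12 * Q.C * Real.exp (-(dst a b / (2 * Q.C))) ≤
      Q.E * Real.exp (-(dst a b / Q.E)) := by
    refine mul_le_mul hE12 (Real.exp_le_exp.2 ?_) (Real.exp_pos _).le hE0.le
    have : (dst a b : ℝ) / Q.E ≤ dst a b / (2 * Q.C) :=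
      div_le_div_of_nonneg_left hd (by positivity) (by linarith)
    linarith
  have h4 : M1 - Q.E * Real.exp (-(dst a b / Q.E)) ≤ Q.C * M2 := by linarith
  have h5 : (α ^ 2 + β ^ 2) * (M1 - Q.E * Real.exp (-(dst a b / Q.E))) ≤
      (α ^ 2 + β ^ 2) * (Q.C * M2) := mul_le_mul_of_nonneg_left h4 (by positivity)
  have h6 : (α ^ 2 + β ^ 2) * (Q.C * M2) =
      Q.C / (4 * cy (x ^ 2)) * (4 * cy (x ^ 2) * (α ^ 2 + β ^ 2) * M2) := by
    field_simp
  rw [h6] at h5
  refine h5.trans ((mul_le_mul_of_nonneg_left h1 (by positivity)).trans ?_)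
  exact mul_le_mul_of_nonneg_right hEC hM30

/-- the covariance matrix -/
theorem covar (hx : 0 < x) (hn : 0 < n)
    (hdis : ∀ c ∈ Cs, ∀ c' ∈ Cs, c ≠ c' → Disjoint (fl c) (fl c'))
    (hD : Dob (Cs.biUnion fl) τ a b) (hR : 2 * Q.E + 1 ≤ dst a b) (α β t : ℝ) :
    (α ^ 2 + β ^ 2) * mn x n (Cs.biUnion fl) τ (fun σ => (len (Cs.biUnion fl) σ a : ℝ)) ≤
      2 * Q.E * mn x n (Cs.biUnion fl) τ (fun σ => (α * (len (Cs.biUnion fl) σ a : ℝ) +
        β * (ar (Cs.biUnion fl) σ a : ℝ) - t) ^ 2) := by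
  have hy : 0 < x ^ 2 := by positivity
  have hc := cy_pos hy
  obtain ⟨g1, _, _, _, _⟩ := Q.bounds hx
  have hE0 : 0 < Q.E := by
    unfold Cst.E
    have : 0 < Q.C / (4 * cy (x ^ 2)) := div_pos (by linarith) (by linarith)
    linarith
  have hd := dst_nonneg a b
  have h := second (Q := Q) (V := ∅) hx hn hdis hD (by simpa using hd) (fun _ => 1) (fun _ => t)
    (fun _ _ _ _ => rfl) (fun _ _ _ _ => rfl) (fun _ _ => by simp) α β
  simp only [abs_one, one_mul] at h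
  have h1 : mn x n (Cs.biUnion fl) τ (fun _ => ((dst a b : ℝ) - 1) * 1) ≤
      mn x n (Cs.biUnion fl) τ (fun σ => (len (Cs.biUnion fl) σ a : ℝ)) := by
    refine mn_mono hx hn fun σ hσ => ?_
    have h2 := hD.len_ge hσ
    have h3 : (dst a b : ℝ) ≤ len (Cs.biUnion fl) σ a + 1 := by exact_mod_cast h2
    linarith
  rw [mn_const_mul, mn_one hx hn] at h1
  have h2 : Real.exp (-(dst a b / Q.E)) ≤ 1 := by
    rw [Real.exp_le_one_iff]
    have : 0 ≤ (dst a b : ℝ) / Q.E := by positivity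
    linarith
  have h3 := mul_le_mul_of_nonneg_left h2 hE0.le
  set M1 := mn x n (Cs.biUnion fl) τ (fun σ => (len (Cs.biUnion fl) σ a : ℝ))
  have h4 : M1 ≤ 2 * (M1 - Q.E * Real.exp (-(dst a b / Q.E))) := by linarith
  have h5 := mul_le_mul_of_nonneg_left h4 (show 0 ≤ α ^ 2 + β ^ 2 by positivity)
  linarith

end

end Pool.Agent.V7H98.ON
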