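import Mathlib
import Pool.Agent.V7H98.ON.Mom

/-!
# All estimates with one constant
-/

set_option autoImplicit false

namespace Pool.Agent.V7H98.ON

open Equiv.Perm Finset
open scoped Classical

section

variable {x n : ℝ} {Q : Cst x n} {Cs V : Finset (ℤ × ℤ)} {τ : Spin} {a b : Edg}

/-- the constant -/
noncomputable def Cst.G (Q : Cst x n) : ℝ := Q.B + (2 * Q.E + 1) + Q.C

theorem Cst.E_pos (Q : Cst x n) (hx : 0 < x) : 0 < Q.E := by
  have hc := cy_pos (y := x ^ 2) (by positivity)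
  have g1 := (Q.bounds hx).1
  unfold Cst.E
  have : 0 < Q.C / (4 * cy (x ^ 2)) := div_pos (by linarith) (by linarith)
  linarith

theorem Cst.G_ge (Q : Cst x n) (hx : 0 < x) : 1 ≤ Q.G ∧ Q.C ≤ Q.G ∧ Q.B ≤ Q.G ∧
    2 * Q.E + 1 ≤ Q.G ∧ Q.E ≤ Q.G := by
  have h1 := Q.B_ge hx
  have h2 := Q.E_pos hx
  have h3 := (Q.bounds hx).1
  unfold Cst.G
  refine ⟨?_, ?_, ?_, ?_, ?_⟩ <;> linarith

theorem exp_mono {R C G : ℝ} (hC : 0 < C) (hG : C ≤ G) (hR : 0 ≤ R) :
    Real.exp (-(R / C)) ≤ Real.exp (-(R / G)) := by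
  apply Real.exp_le_exp.2
  have := div_le_div_of_nonneg_left hR hC hG
  linarith

theorem all_in (hx : 0 < x) (hn : 0 < n) : ∃ C : ℝ, 1 ≤ C ∧ ∃ A : ℕ → ℝ,
    ∀ (Cs : Finset (ℤ × ℤ)) (τ : Spin) (a b : Edg),
      (∀ c ∈ Cs, ∀ c' ∈ Cs, c ≠ c' → Disjoint (fl c) (fl c')) → Dob (Cs.biUnion fl) τ a b →
      (∀ l : ℤ, mn x n (Cs.biUnion fl) τ
        (fun σ => if (len (Cs.biUnion fl) σ a : ℤ) = l then 1 else 0) ≤
          C / Real.sqrt ((dst a b : ℝ) + 1)) ∧
      (C ≤ dst a b → ∀ α β t : ℝ, (α ^ 2 + β ^ 2) *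
        mn x n (Cs.biUnion fl) τ (fun σ => (len (Cs.biUnion fl) σ a : ℝ)) ≤
        C * mn x n (Cs.biUnion fl) τ (fun σ => (α * (len (Cs.biUnion fl) σ a : ℝ) +
          β * (ar (Cs.biUnion fl) σ a : ℝ) - t) ^ 2)) ∧
      ∀ V : Finset (ℤ × ℤ), C * V.card ≤ dst a b →
        mn x n (Cs.biUnion fl) τ (fun σ => if C *
          (min (NN Cs V a σ).1 (NN Cs V a σ).2 : ℕ) < len (Cs.biUnion fl) σ a then
            Real.exp (len (Cs.biUnion fl) σ a / C) else 0) ≤ 2 ∧
        ∀ F : Spin → ℝ,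
          (∀ σ ∈ Cf (Cs.biUnion fl) τ, ∀ q ∈ Sl Cs V a σ, F (fp σ q) = F σ) →
          (∀ h : ℝ → ℤ × ℤ → ℕ × ℕ → ℤ × ℤ → ℝ,
            mn x n (Cs.biUnion fl) τ (fun σ => h (F σ) (uu Cs (Cs.biUnion fl) V a σ)
              (NN Cs V a σ) (LA (Cs.biUnion fl) a σ)) =
            mn x n (Cs.biUnion fl) τ (fun σ => bb (x ^ 2) (NN Cs V a σ).1 (NN Cs V a σ).2
              (fun z => h (F σ) (uu Cs (Cs.biUnion fl) V a σ) (NN Cs V a σ)
                (uu Cs (Cs.biUnion fl) V a σ + z)) /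
                  (1 + x ^ 2) ^ ((NN Cs V a σ).1 + (NN Cs V a σ).2))) ∧
          ((∀ σ ∈ Cf (Cs.biUnion fl) τ, |F σ| ≤ 1) →
            (∀ α β φ m : ℝ, 0 ≤ m → m ≤ Real.sin (α + β) ^ 2 → m ≤ Real.sin (α - β) ^ 2 →
              |mn x n (Cs.biUnion fl) τ (fun σ => F σ * Real.cos
                (α * (len (Cs.biUnion fl) σ a : ℝ) + β * (ar (Cs.biUnion fl) σ a : ℝ) + φ))| ≤
              mn x n (Cs.biUnion fl) τ
                (fun σ => |F σ| * Real.exp (-(m * (len (Cs.biUnion fl) σ a : ℝ) / C))) +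
                C * Real.exp (-(dst a b / C))) ∧
            (∀ (k : ℕ) (g : ℤ → ℝ), (∀ z, |g z| ≤ 1) →
              |mn x n (Cs.biUnion fl) τ (fun σ => F σ * ∑ i ∈ range (k + 1), (-1 : ℝ) ^ i *
                (k.choose i : ℝ) * g ((len (Cs.biUnion fl) σ a : ℤ) + 2 * i))| ≤
              A k * (mn x n (Cs.biUnion fl) τ
                (fun σ => |F σ| / Real.sqrt ((len (Cs.biUnion fl) σ a : ℝ) + 1) ^ k) +
                Real.exp (-(dst a b / C)))) ∧
            (∀ (k : ℕ) (g : ℤ → ℝ), (∀ z, |g z| ≤ 1) →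
              |mn x n (Cs.biUnion fl) τ (fun σ => F σ * ∑ i ∈ range (k + 1), (-1 : ℝ) ^ i *
                (k.choose i : ℝ) * g (ar (Cs.biUnion fl) σ a + 2 * i))| ≤
              A k * (mn x n (Cs.biUnion fl) τ
                (fun σ => |F σ| / Real.sqrt ((len (Cs.biUnion fl) σ a : ℝ) + 1) ^ k) +
                Real.exp (-(dst a b / C)))) ∧
            (∀ (k : ℕ) (l : ℤ),
              |mn x n (Cs.biUnion fl) τ (fun σ => F σ * ∑ i ∈ range (k + 1), (-1 : ℝ) ^ i *
                (k.choose i : ℝ) * (if (len (Cs.biUnion fl) σ a : ℤ) + 2 * i = l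
                  then 1 else 0))| ≤
              A (k + 1) * (mn x n (Cs.biUnion fl) τ
                (fun σ => |F σ| / Real.sqrt ((len (Cs.biUnion fl) σ a : ℝ) + 1) ^ (k + 1)) +
                Real.exp (-(dst a b / C)))) ∧
            (∀ H : Spin → ℝ,
              (∀ σ ∈ Cf (Cs.biUnion fl) τ, ∀ q ∈ Sl Cs V a σ, H (fp σ q) = H σ) →
              ∀ α β : ℝ, (α ^ 2 + β ^ 2) * (mn x n (Cs.biUnion fl) τ
                (fun σ => |F σ| * (len (Cs.biUnion fl) σ a : ℝ)) -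
                  C * Real.exp (-(dst a b / C))) ≤
                C * mn x n (Cs.biUnion fl) τ (fun σ => |F σ| *
                  (α * (len (Cs.biUnion fl) σ a : ℝ) +
                    β * (ar (Cs.biUnion fl) σ a : ℝ) - H σ) ^ 2))) := by
  obtain ⟨Q⟩ := exists_cst hx hn
  obtain ⟨g0, gC, gB, gE, gE'⟩ := Q.G_ge hx
  have hC1 := (Q.bounds hx).1
  have hC : 0 < Q.C := by linarith
  have hE := Q.E_pos hx
  refine ⟨Q.G, g0, Q.A, ?_⟩
  intro Cs τ a b hdis hD
  have hd := dst_nonneg a b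
  have hexp := exp_mono hC gC hd
  refine ⟨fun l => ?_, fun hR α β t => ?_, fun V hV => ?_⟩
  · exact (atom (Q := Q) hx hn hdis hD l).trans
      (div_le_div_of_nonneg_right gB (Real.sqrt_nonneg _))
  · refine (covar (Q := Q) hx hn hdis hD (gE.trans hR) α β t).trans ?_
    refine mul_le_mul_of_nonneg_right (by linarith) ?_
    exact mn_nonneg hx hn fun σ _ => sq_nonneg _
  · have hV' : Q.C * V.card ≤ dst a b :=
      (mul_le_mul_of_nonneg_right gC (Nat.cast_nonneg _)).trans hV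
    refine ⟨?_, fun F hF => ⟨fun h => ?_, fun hF1 => ⟨?_, ?_, ?_, ?_, ?_⟩⟩⟩
    · refine (mn_mono hx hn fun σ _ => ?_).trans (few_exp (Q := Q) hx hn hdis hD hV')
      by_cases h2 : Q.G * (min (NN Cs V a σ).1 (NN Cs V a σ).2 : ℕ) < len (Cs.biUnion fl) σ a
      · have h3 : Q.C * (min (NN Cs V a σ).1 (NN Cs V a σ).2 : ℕ) <
            len (Cs.biUnion fl) σ a := lt_of_le_of_lt
          (mul_le_mul_of_nonneg_right gC (Nat.cast_nonneg _)) h2
        rw [if_pos h2, if_pos h3]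
        apply Real.exp_le_exp.2
        exact div_le_div_of_nonneg_left (Nat.cast_nonneg _) hC gC
      · rw [if_neg h2]
        split_ifs
        · exact (Real.exp_pos _).le
        · exact le_rfl
    · unfold mn
      rw [mixg (V := V) (setup_of hdis hD) hx n F hF h]
    · intro α β φ m hm hm1 hm2
      refine (main_chr (Q := Q) hx hn hdis hD hV' F hF hF1 α β φ m hm hm1 hm2).trans ?_
      refine add_le_add (mn_mono hx hn fun σ _ => ?_)
        (mul_le_mul gC hexp (Real.exp_pos _).le (by linarith))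
      refine mul_le_mul_of_nonneg_left (exp_mono hC gC ?_) (abs_nonneg _)
      exact mul_nonneg hm (Nat.cast_nonneg _)
    · intro k g hg
      exact (main_len (Q := Q) hx hn hdis hD hV' F hF hF1 k g hg).trans
        (mul_le_mul_of_nonneg_left (add_le_add le_rfl hexp) (Q.A_pos hx k).le)
    · intro k g hg
      exact (main_ar (Q := Q) hx hn hdis hD hV' F hF hF1 k g hg).trans
        (mul_le_mul_of_nonneg_left (add_le_add le_rfl hexp) (Q.A_pos hx k).le)
    · intro k l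
      exact (main_pt (Q := Q) hx hn hdis hD hV' F hF hF1 k l).trans
        (mul_le_mul_of_nonneg_left (add_le_add le_rfl hexp) (Q.A_pos hx (k + 1)).le)
    · intro H hH α β
      have h1 := second (Q := Q) hx hn hdis hD hV' F H hF hH hF1 α β
      have h2 : 0 ≤ mn x n (Cs.biUnion fl) τ (fun σ => |F σ| *
          (α * (len (Cs.biUnion fl) σ a : ℝ) + β * (ar (Cs.biUnion fl) σ a : ℝ) - H σ) ^ 2) :=
        mn_nonneg hx hn fun σ _ => by positivity
      refine le_trans ?_ (h1.trans (mul_le_mul_of_nonneg_right gE' h2))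
      refine mul_le_mul_of_nonneg_left ?_ (by positivity)
      have h3 : Q.E * Real.exp (-(dst a b / Q.E)) ≤ Q.G * Real.exp (-(dst a b / Q.G)) :=
        mul_le_mul gE' (exp_mono hE gE' hd) (Real.exp_pos _).le (by linarith)
      linarith

end

end Pool.Agent.V7H98.ON
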